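import Mathlib
import Pool.Agent.Lib.MP_2a816b_nt.Expo

/-!
# Sums of `⌊n ^ θ⌋`: definitions
-/

set_option autoImplicit false

open Finset Real
open Pool.Agent.Lib.MP_2a816b_nt (e norm_e conj_e e_add e_neg)

namespace Pool.Agent.Lib.MP_570bef_ntM

/-- `⌊n ^ θ⌋` -/
noncomputable def fl (θ : ℝ) (n : ℕ) : ℕ := ⌊(n : ℝ) ^ θ⌋₊

/-- every large natural number is a sum of `s` numbers `⌊n ^ θ⌋` -/
def WF (θ : ℝ) (s : ℕ) : Prop :=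
  ∀ᶠ N : ℕ in Filter.atTop, ∃ n : Fin s → ℕ, ∑ i, fl θ (n i) = N

/-- `N` is a sum of `s` numbers `⌊n ^ θ⌋` -/
def rep (θ : ℝ) (s N : ℕ) : Prop := ∃ n : Fin s → ℕ, ∑ i, fl θ (n i) = N

/-- sum of the floors of a tuple -/
noncomputable def sfl (θ : ℝ) {s : ℕ} (x : Fin s → ℕ) : ℕ := ∑ i, fl θ (x i)

/-- value of a pair of tuples -/
noncomputable def val (θ : ℝ) {s : ℕ} (t : (Fin s → ℕ) × (Fin s → ℕ)) : ℕ := sfl θ t.1 + sfl θ t.2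

/-- iterated forward differences of `x ^ θ` with steps in a list -/
noncomputable def dl (θ : ℝ) : List ℕ → ℝ → ℝ
  | [], x => x ^ θ
  | h :: l, x => dl θ l (x + h) - dl θ l x

/-- `θ (θ - 1) ... (θ - q + 1)` -/
noncomputable def fal (θ : ℝ) (q : ℕ) : ℝ := ∏ i ∈ range q, (θ - i)

/-- the exponential sum `∑_{P ≤ n < 2P} e (β n ^ θ)` -/
noncomputable def VV (θ : ℝ) (P : ℕ) (β : ℝ) : ℂ := ∑ n ∈ Ico P (2 * P), e (β * (n : ℝ) ^ θ)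

/-- the weight `sin² (π n ^ θ)` -/
noncomputable def wt (θ : ℝ) (n : ℕ) : ℝ := sin (π * (n : ℝ) ^ θ) ^ 2

/-- Fourier transform of `sin² (π x)` on `[0, 1]` -/
noncomputable def cw (β : ℝ) : ℂ := ∫ x in (0 : ℝ)..1, ((sin (π * x) ^ 2 : ℝ) : ℂ) * e (-(β * x))

/-- the weighted exponential sum with floors -/
noncomputable def SW (θ : ℝ) (P : ℕ) (α : ℝ) : ℂ :=
  ∑ n ∈ Ico P (2 * P), ((wt θ n : ℝ) : ℂ) * e (α * (fl θ n : ℕ))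

/-- weighted number of representations of `N` as `v t + v t' + g n + g k` -/
noncomputable def RR {ι : Type} (T : Finset ι) (v : ι → ℕ) (W : Finset ℕ) (w : ℕ → ℝ) (g : ℕ → ℕ)
    (Y N : ℕ) : ℝ :=
  ∑ t ∈ T, ∑ t' ∈ T, ∑ n ∈ W, ∑ k ∈ range Y, if v t + v t' + g n + g k = N then w n else 0

/-- exponential sum over the family -/
noncomputable def FT {ι : Type} (T : Finset ι) (v : ι → ℕ) (α : ℝ) : ℂ :=
  ∑ t ∈ T, e (α * (v t : ℕ))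

/-- weighted exponential sum -/
noncomputable def FW (W : Finset ℕ) (w : ℕ → ℝ) (g : ℕ → ℕ) (α : ℝ) : ℂ :=
  ∑ n ∈ W, ((w n : ℝ) : ℂ) * e (α * (g n : ℕ))

/-- exponential sum over `k < Y` -/
noncomputable def FY (g : ℕ → ℕ) (Y : ℕ) (α : ℝ) : ℂ :=
  ∑ k ∈ range Y, e (α * (g k : ℕ))

/-- averaging kernel -/
noncomputable def DH (H : ℕ) (α : ℝ) : ℂ := (∑ h ∈ range H, e (-(α * (h : ℕ)))) / (H : ℂ)

/-- number of coincidences `v t = v t'` -/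
noncomputable def JT {ι : Type} (T : Finset ι) (v : ι → ℕ) : ℕ :=
  #{p ∈ T ×ˢ T | v p.1 = v p.2}

/-- the second moment statement -/
def SMP : Prop :=
  ∀ (s : ℕ) (θ₀ η : ℝ), 1 < θ₀ → (1 - 1 / θ₀) ^ s < 1 / 2 → 0 < η →
    ∃ ε : ℝ, 0 < ε ∧ ∃ Z : Set ℝ, dimH Z < 1 ∧
      ∀ θ ∈ Set.Ioo (θ₀ - ε) (θ₀ + ε), θ ∉ Z →
        ∃ (T : ℕ → Finset ((Fin s → ℕ) × (Fin s → ℕ))) (C : ℝ), ∀ᶠ m : ℕ in Filter.atTop,
          (T m).Nonempty ∧ (∀ t ∈ T m, (val θ t : ℝ) ≤ C * ((2 : ℝ) ^ m) ^ θ) ∧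
          (JT (T m) (val θ) : ℝ) ≤ (#(T m) : ℝ) ^ 2 * ((2 : ℝ) ^ m) ^ (-θ + η)

end Pool.Agent.Lib.MP_570bef_ntM
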