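import Mathlib
import Pool.Agent.Lib.MP_570bef_ntM.Defs

/-!
# Dl: mean value theorem for the iterated differences of `x ^ θ`

* `fal_succ`: `Finset.prod_range_succ'` and `θ - (i+1) = (θ-1) - i`.
* `fal_ne_zero`: a product of the non-zero numbers `θ - i`.
* `hasDerivAt_dl`: induction on `l` (for all `x`). `l = []`: `Real.hasDerivAt_rpow_const` (`x ≠ 0`). `l = h :: l'`: the derivative of
  `dl θ l' (x + h) - dl θ l' x` is `θ * dl (θ-1) l' (x+h) - θ * dl (θ-1) l' x`, where `x + h > 0`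
  (`HasDerivAt.comp_add_const` or `HasDerivAt.comp` with `hasDerivAt_id.add_const`).
* `dl_mvt`: induction on `l` (for all `θ`, `x`). `l = []`: `ξ = x`. `l = h :: l'`, `h ≥ 1`: by the mean value theorem
  (`exists_hasDerivAt_eq_slope` for `dl θ l'` on `[x, x+h]`, with `hasDerivAt_dl`) there is `y ∈ (x, x+h)` with
  `dl θ l' (x+h) - dl θ l' x = h * θ * dl (θ-1) l' y`. The induction hypothesis for `θ - 1` and `y` gives `ξ ∈ [y, y + l'.sum] ⊆ [x, x + h + l'.sum]` with
  `dl (θ-1) l' y = fal (θ-1) l'.length * l'.prod * ξ^(θ-1-l'.length)`. Conclude with `fal_succ`, `List.prod_cons`, `List.sum_cons`, `List.length_cons`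
  and `θ - 1 - l'.length = θ - (l'.length + 1)`.
-/

set_option autoImplicit false

open Finset Real

namespace Pool.Agent.Lib.MP_570bef_ntM

theorem fal_succ (θ : ℝ) (q : ℕ) : fal θ (q + 1) = θ * fal (θ - 1) q := by
  unfold fal
  rw [prod_range_succ']
  rw [Nat.cast_zero, sub_zero, mul_comm]
  congr 1
  refine prod_congr rfl fun i _ => ?_
  push_cast
  ring

theorem fal_ne_zero (θ : ℝ) (hθ : ∀ k : ℕ, θ ≠ k) (q : ℕ) : fal θ q ≠ 0 := by
  unfold fal
  exact prod_ne_zero_iff.2 fun i _ => sub_ne_zero.2 (hθ i)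

theorem hasDerivAt_dl (θ : ℝ) (l : List ℕ) (x : ℝ) (hx : 0 < x) :
    HasDerivAt (dl θ l) (θ * dl (θ - 1) l x) x := by
  induction l generalizing x with
  | nil =>
    change HasDerivAt (fun x : ℝ => x ^ θ) (θ * x ^ (θ - 1)) x
    exact Real.hasDerivAt_rpow_const (Or.inl hx.ne')
  | cons h l ih =>
    have h1 : HasDerivAt (fun y : ℝ => dl θ l (y + h)) (θ * dl (θ - 1) l (x + h)) x :=
      HasDerivAt.comp_add_const x (h : ℝ) (ih (x + h) (by positivity))
    have h2 := h1.sub (ih x hx)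
    have h3 : θ * dl (θ - 1) (h :: l) x = θ * dl (θ - 1) l (x + h) - θ * dl (θ - 1) l x := by
      change θ * (dl (θ - 1) l (x + h) - dl (θ - 1) l x) = _
      ring
    rw [h3]
    exact h2

theorem dl_mvt (l : List ℕ) : ∀ (θ x : ℝ), 0 < x → (∀ h ∈ l, 1 ≤ h) →
    ∃ ξ : ℝ, x ≤ ξ ∧ ξ ≤ x + (l.sum : ℕ) ∧
      dl θ l x = fal θ l.length * (l.prod : ℕ) * ξ ^ (θ - (l.length : ℕ)) := by
  induction l with
  | nil =>
    intro θ x hx _
    refine ⟨x, le_rfl, by simp, ?_⟩
    change x ^ θ = _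
    simp [fal]
  | cons h l ih =>
    intro θ x hx hl
    have hh : 1 ≤ h := hl h List.mem_cons_self
    have hhr : (0 : ℝ) < h := by exact_mod_cast hh
    have hxh : x < x + h := by linarith
    obtain ⟨y, ⟨hy1, hy2⟩, hy3⟩ := exists_hasDerivAt_eq_slope (dl θ l)
      (fun y => θ * dl (θ - 1) l y) hxh
      (fun y hy => (hasDerivAt_dl θ l y (lt_of_lt_of_le hx hy.1)).continuousAt.continuousWithinAt)
      (fun y hy => hasDerivAt_dl θ l y (lt_trans hx hy.1))
    obtain ⟨ξ, hξ1, hξ2, hξ3⟩ := ih (θ - 1) y (lt_trans hx hy1)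
      (fun k hk => hl k (List.mem_cons_of_mem h hk))
    refine ⟨ξ, by linarith, ?_, ?_⟩
    · rw [List.sum_cons, Nat.cast_add]
      linarith
    · change dl θ l (x + h) - dl θ l x = _
      have h1 : x + (h : ℝ) - x = h := by ring
      rw [h1] at hy3
      have h2 : dl θ l (x + h) - dl θ l x = θ * dl (θ - 1) l y * h := by
        rw [hy3]
        field_simp
      have h3 : θ - 1 - (l.length : ℕ) = θ - ((l.length + 1 : ℕ) : ℝ) := by
        push_cast
        ring
      rw [h2, hξ3, List.length_cons, List.prod_cons, fal_succ, h3, Nat.cast_mul]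
      ring

end Pool.Agent.Lib.MP_570bef_ntM
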