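import Mathlib
import Pool.Agent.Lib.MP_570bef_ntM.Defs
import Pool.Agent.Lib.MP_50b5e1_nt.X.KL

/-!
# KLg: the Kusmin-Landau inequality for monotone increments of constant sign

`kusmin_landau` (file `MP_50b5e1_nt/X/KL.lean`) needs increments in `[L, 1/2]` which are nonincreasing.

Put `G n = s * F n`. `‖∑ e (s * F n)‖ = ‖∑ e (F n)‖`: clear for `s = 1`; for `s = -1`, `e (-(F n)) = conj (e (F n))` (`conj_e`) and `Complex.norm_conj`
(see `iter_norm_neg` in `MP_50b5e1_nt/X/Iter.lean`). So we may assume that the increments of `G` are in `[L, 1/2]` and that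
`0 ≤ t * s * (G (n+2) - 2 G (n+1) + G n)` (as `s * s = 1`), `t * s = 1` or `t * s = -1`.

* If `t * s = -1` the increments of `G` are nonincreasing: `kusmin_landau G`.
* If `t * s = 1` the increments are nondecreasing. If `b ≤ a` the sum is empty. Otherwise reflect: `G' n = -(G (a + b - 1 - n))` for `a ≤ n < b`
  (natural subtraction). For `a ≤ n`, `n + 1 < b` and `m = a + b - 1 - (n+1)` one has `m + 1 = a + b - 1 - n`, `a ≤ m`, `m + 1 < b` and
  `G' (n+1) - G' n = G (m+1) - G m ∈ [L, 1/2]`; similarly for `n + 2 < b` the increments of `G'` are nonincreasing. So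
  `‖∑ n ∈ Ico a b, e (G' n)‖ ≤ 2 / L`, and `∑ n ∈ Ico a b, e (G' n) = ∑ n ∈ Ico a b, e (-(G n))` (`Finset.sum_Ico_reflect` or
  `Finset.sum_bij'` with `n ↦ a + b - 1 - n`), whose norm is `‖∑ e (G n)‖`.
-/

set_option autoImplicit false

open Finset Real
open Pool.Agent.Lib.MP_2a816b_nt (e norm_e conj_e e_add e_neg)

namespace Pool.Agent.Lib.MP_570bef_ntM

theorem norm_sum_e_neg (S : Finset ℕ) (F : ℕ → ℝ) :
    ‖∑ n ∈ S, e (-(F n))‖ = ‖∑ n ∈ S, e (F n)‖ := by
  have h1 : ∑ n ∈ S, e (-(F n)) = (starRingEnd ℂ) (∑ n ∈ S, e (F n)) := by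
    rw [map_sum]
    exact Finset.sum_congr rfl fun n _ => (conj_e (F n)).symm
  rw [h1, Complex.norm_conj]

theorem kl_gen (F : ℕ → ℝ) (a b : ℕ) (L s t : ℝ) (hs : s = 1 ∨ s = -1) (ht : t = 1 ∨ t = -1)
    (hL : 0 < L) (hL2 : L ≤ 1 / 2)
    (hlow : ∀ n, a ≤ n → n + 1 < b → L ≤ s * (F (n + 1) - F n))
    (hup : ∀ n, a ≤ n → n + 1 < b → s * (F (n + 1) - F n) ≤ 1 / 2)
    (hmono : ∀ n, a ≤ n → n + 2 < b → 0 ≤ t * (F (n + 2) - 2 * F (n + 1) + F n)) :
    ‖∑ n ∈ Ico a b, e (F n)‖ ≤ 2 / L := by
  rcases Nat.lt_or_ge a b with hab | hab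
  swap
  · rw [Finset.Ico_eq_empty (by omega), Finset.sum_empty, norm_zero]
    positivity
  -- reduction to the sign `1`
  have key : ∀ (G : ℕ → ℝ) (r : ℝ), (r = 1 ∨ r = -1) →
      (∀ n, a ≤ n → n + 1 < b → L ≤ G (n + 1) - G n) →
      (∀ n, a ≤ n → n + 1 < b → G (n + 1) - G n ≤ 1 / 2) →
      (∀ n, a ≤ n → n + 2 < b → 0 ≤ r * (G (n + 2) - 2 * G (n + 1) + G n)) →
      ‖∑ n ∈ Ico a b, e (G n)‖ ≤ 2 / L := by
    intro G r hr h1 h2 h3
    rcases hr with rfl | rfl
    · -- nondecreasing increments: reflect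
      have h4 : ∀ n, a ≤ n → n + 1 < b → ∃ m, a ≤ m ∧ m + 1 < b ∧ a + b - 1 - (n + 1) = m ∧
          a + b - 1 - n = m + 1 := by
        intro n hn hn1
        exact ⟨a + b - 1 - (n + 1), by omega, by omega, rfl, by omega⟩
      have h5 : ‖∑ n ∈ Ico a b, e (-(G (a + b - 1 - n)))‖ ≤ 2 / L := by
        refine Pool.Agent.Lib.MP_50b5e1_nt.kusmin_landau (fun n => -(G (a + b - 1 - n))) a b L hL hL2
          ?_ ?_ ?_
        · intro n hn hn1
          obtain ⟨m, hm, hm1, e1, e2⟩ := h4 n hn hn1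
          have := h1 m hm hm1
          simp only [e1, e2]
          linarith
        · intro n hn hn1
          obtain ⟨m, hm, hm1, e1, e2⟩ := h4 n hn hn1
          have := h2 m hm hm1
          simp only [e1, e2]
          linarith
        · intro n hn hn2
          have e1 : a + b - 1 - (n + 1) = (a + b - 1 - (n + 2)) + 1 := by omega
          have e2 : a + b - 1 - n = (a + b - 1 - (n + 2)) + 2 := by omega
          have := h3 (a + b - 1 - (n + 2)) (by omega) (by omega)
          simp only [e1, e2]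
          linarith
      have h6 : ∑ n ∈ Ico a b, e (-(G (a + b - 1 - n))) = ∑ n ∈ Ico a b, e (-(G n)) := by
        refine Finset.sum_bij' (fun n _ => a + b - 1 - n) (fun n _ => a + b - 1 - n) ?_ ?_ ?_ ?_ ?_
        · intro n hn
          rw [Finset.mem_Ico] at hn ⊢
          omega
        · intro n hn
          rw [Finset.mem_Ico] at hn ⊢
          omega
        · intro n hn
          rw [Finset.mem_Ico] at hn
          show a + b - 1 - (a + b - 1 - n) = n
          omega
        · intro n hn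
          rw [Finset.mem_Ico] at hn
          show a + b - 1 - (a + b - 1 - n) = n
          omega
        · intro n hn
          rfl
      rw [h6, norm_sum_e_neg] at h5
      exact h5
    · refine Pool.Agent.Lib.MP_50b5e1_nt.kusmin_landau G a b L hL hL2 h1 h2 ?_
      intro n hn hn2
      have := h3 n hn hn2
      linarith
  have hst : s * t = 1 ∨ s * t = -1 := by
    rcases hs with rfl | rfl <;> rcases ht with rfl | rfl <;> norm_num
  have h7 : ‖∑ n ∈ Ico a b, e (s * F n)‖ ≤ 2 / L := by
    refine key (fun n => s * F n) (s * t) hst ?_ ?_ ?_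
    · intro n hn hn1
      have := hlow n hn hn1
      linarith
    · intro n hn hn1
      have := hup n hn hn1
      linarith
    · intro n hn hn2
      have h8 := hmono n hn hn2
      have hss : s * s = 1 := by
        rcases hs with rfl | rfl <;> norm_num
      have h9 : s * t * (s * F (n + 2) - 2 * (s * F (n + 1)) + s * F n) =
          (s * s) * (t * (F (n + 2) - 2 * F (n + 1) + F n)) := by ring
      show 0 ≤ s * t * (s * F (n + 2) - 2 * (s * F (n + 1)) + s * F n)
      rw [h9, hss, one_mul]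
      exact h8
  rcases hs with rfl | rfl
  · simpa using h7
  · have h8 : ∀ n, (-1 : ℝ) * F n = -(F n) := fun n => by ring
    simp only [h8] at h7
    rw [norm_sum_e_neg] at h7
    exact h7

end Pool.Agent.Lib.MP_570bef_ntM
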