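import Mathlib
import Pool.Agent.Lib.MP_570bef_ntM.Dl
import Pool.Agent.Lib.MP_570bef_ntM.KLg

/-!
# KLl: Kusmin-Landau for the phases `β * dl θ l n`

Let `r = l.length`, `E = |fal θ (r+1)| > 0` (`fal_ne_zero`), `F n = β * dl θ l n` (cast), `Π = l.prod ≥ 1`, `κ = θ - (r+1)`, `|κ| ≤ K`,
`U = β * E * Π * P^κ * 3^K`, `L = β * E * Π * P^κ * 3^(-K)`, so `0 < L ≤ U ≤ 1/2`.

For `a ≤ n`, `n + 1 < b`: `F (n+1) - F n = β * dl θ (1 :: l) n` (definition of `dl`, casts), and by `dl_mvt` (list `1 :: l`, `x = n > 0`)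
`= β * fal θ (r+1) * Π * ξ^κ` with `n ≤ ξ ≤ n + 1 + l.sum`, so `P ≤ ξ ≤ 3 P` (`n + 1 ≤ 2 P`, `l.sum ≤ P`). `ξ^κ ∈ [P^κ 3^(-K), P^κ 3^K]`:
`ξ = P * (ξ/P)`, `ξ^κ = P^κ (ξ/P)^κ` (`Real.mul_rpow`), `1 ≤ ξ/P ≤ 3` and `3^(-K) ≤ (ξ/P)^κ ≤ 3^K` (`(ξ/P)^κ ≤ (ξ/P)^|κ| ≤ 3^|κ| ≤ 3^K`,
`(ξ/P)^κ ≥ (ξ/P)^(-|κ|) ≥ 3^(-|κ|) ≥ 3^(-K)`). So with `s = SignType`-sign of `fal θ (r+1)` (`s = 1` or `-1`, `s * fal θ (r+1) = E`) the increments satisfy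
`L ≤ s * (F (n+1) - F n) ≤ U ≤ 1/2`.

For `a ≤ n`, `n + 2 < b`: `F (n+2) - 2 F (n+1) + F n = β * dl θ (1 :: 1 :: l) n` has the sign `t` of `fal θ (r+2)` by `dl_mvt` (`ξ > 0`).

Apply `kl_gen`.
-/

set_option autoImplicit false

open Finset Real
open Pool.Agent.Lib.MP_2a816b_nt (e norm_e conj_e e_add e_neg)

namespace Pool.Agent.Lib.MP_570bef_ntM

/-- `ξ ^ κ` and `P ^ κ` differ by a factor at most `3 ^ K` if `P ≤ ξ ≤ 3 P` and `|κ| ≤ K` -/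
theorem rpow_near (P ξ κ K : ℝ) (hP : 0 < P) (h1 : P ≤ ξ) (h2 : ξ ≤ 3 * P) (hK : |κ| ≤ K) :
    P ^ κ * 3 ^ (-K) ≤ ξ ^ κ ∧ ξ ^ κ ≤ P ^ κ * 3 ^ K := by
  have hK0 : 0 ≤ K := (abs_nonneg κ).trans hK
  obtain ⟨hK1, hK2⟩ := abs_le.1 hK
  obtain ⟨y, hy⟩ : ∃ y : ℝ, y = ξ / P := ⟨_, rfl⟩
  have hy1 : 1 ≤ y := by
    rw [hy, le_div_iff₀ hP]
    linarith
  have hy3 : y ≤ 3 := by
    rw [hy, div_le_iff₀ hP]
    exact h2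
  have hy0 : 0 < y := by linarith
  have e1 : ξ ^ κ = P ^ κ * y ^ κ := by
    rw [← Real.mul_rpow hP.le hy0.le, hy, mul_div_cancel₀ _ hP.ne']
  have hPk : 0 ≤ P ^ κ := (Real.rpow_pos_of_pos hP κ).le
  have h3 : y ^ κ ≤ 3 ^ K :=
    (Real.rpow_le_rpow_of_exponent_le hy1 hK2).trans (Real.rpow_le_rpow hy0.le hy3 hK0)
  have h4 : (3 : ℝ) ^ (-K) ≤ y ^ κ := by
    refine le_trans ?_ (Real.rpow_le_rpow_of_exponent_le hy1 hK1)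
    exact Real.rpow_le_rpow_of_nonpos hy0 hy3 (by linarith)
  rw [e1]
  exact ⟨mul_le_mul_of_nonneg_left h4 hPk, mul_le_mul_of_nonneg_left h3 hPk⟩

theorem kl_list (θ : ℝ) (hθ : ∀ k : ℕ, θ ≠ k) (l : List ℕ) (hl : ∀ h ∈ l, 1 ≤ h) (K : ℝ)
    (hK : |θ - ((l.length : ℝ) + 1)| ≤ K) (P a b : ℕ) (hP : 1 ≤ P) (ha : P ≤ a) (hb : b ≤ 2 * P + 1)
    (hsum : l.sum ≤ P) (β : ℝ) (hβ : 0 < β)
    (hup : β * |fal θ (l.length + 1)| * (l.prod : ℕ) * (P : ℝ) ^ (θ - ((l.length : ℝ) + 1)) * 3 ^ K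
      ≤ 1 / 2) :
    ‖∑ n ∈ Ico a b, e (β * dl θ l n)‖ ≤
      2 / (β * |fal θ (l.length + 1)| * (l.prod : ℕ) * (P : ℝ) ^ (θ - ((l.length : ℝ) + 1)) *
        3 ^ (-K)) := by
  obtain ⟨κ, hκ⟩ : ∃ κ : ℝ, κ = θ - ((l.length : ℝ) + 1) := ⟨_, rfl⟩
  obtain ⟨A, hA⟩ : ∃ A : ℝ, A = β * |fal θ (l.length + 1)| * (l.prod : ℕ) := ⟨_, rfl⟩
  rw [← hκ] at hK
  rw [← hA, ← hκ] at hup ⊢
  have hK0 : 0 ≤ K := (abs_nonneg κ).trans hK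
  have hP0 : (0 : ℝ) < P := by exact_mod_cast hP
  have hq0 : 0 < l.prod := List.prod_pos fun h hh => hl h hh
  have hq1 : (0 : ℝ) < (l.prod : ℕ) := by exact_mod_cast hq0
  have hE : 0 < |fal θ (l.length + 1)| := abs_pos.2 (fal_ne_zero θ hθ _)
  have hA0 : 0 < A := by
    rw [hA]
    positivity
  have hPk : 0 < (P : ℝ) ^ κ := Real.rpow_pos_of_pos hP0 κ
  have h3 : (0 : ℝ) < 3 ^ (-K) := Real.rpow_pos_of_pos (by norm_num) _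
  have h4 : (3 : ℝ) ^ (-K) ≤ 3 ^ K := Real.rpow_le_rpow_of_exponent_le (by norm_num) (by linarith)
  have hL : 0 < A * (P : ℝ) ^ κ * 3 ^ (-K) := by positivity
  have hL2 : A * (P : ℝ) ^ κ * 3 ^ (-K) ≤ 1 / 2 :=
    (mul_le_mul_of_nonneg_left h4 (by positivity)).trans hup
  obtain ⟨s, hs, hsE⟩ : ∃ s : ℝ, (s = 1 ∨ s = -1) ∧
      s * fal θ (l.length + 1) = |fal θ (l.length + 1)| := by
    rcases le_total 0 (fal θ (l.length + 1)) with h | h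
    · exact ⟨1, Or.inl rfl, by rw [one_mul, abs_of_nonneg h]⟩
    · exact ⟨-1, Or.inr rfl, by rw [neg_one_mul, abs_of_nonpos h]⟩
  obtain ⟨t, ht, htE⟩ : ∃ t : ℝ, (t = 1 ∨ t = -1) ∧
      t * fal θ (l.length + 2) = |fal θ (l.length + 2)| := by
    rcases le_total 0 (fal θ (l.length + 2)) with h | h
    · exact ⟨1, Or.inl rfl, by rw [one_mul, abs_of_nonneg h]⟩
    · exact ⟨-1, Or.inr rfl, by rw [neg_one_mul, abs_of_nonpos h]⟩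
  have hl1 : ∀ h ∈ 1 :: l, 1 ≤ h := by
    intro h hh
    rcases List.mem_cons.1 hh with rfl | hh
    · exact le_rfl
    · exact hl h hh
  have hl2 : ∀ h ∈ 1 :: 1 :: l, 1 ≤ h := by
    intro h hh
    rcases List.mem_cons.1 hh with rfl | hh
    · exact le_rfl
    · exact hl1 h hh
  have hinc : ∀ n : ℕ, a ≤ n → n + 1 < b →
      A * (P : ℝ) ^ κ * 3 ^ (-K) ≤
          s * (β * dl θ l ((n + 1 : ℕ) : ℝ) - β * dl θ l (n : ℝ)) ∧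
        s * (β * dl θ l ((n + 1 : ℕ) : ℝ) - β * dl θ l (n : ℝ)) ≤ A * (P : ℝ) ^ κ * 3 ^ K := by
    intro n hn hnb
    have hPn : P ≤ n := ha.trans hn
    have hPn' : (P : ℝ) ≤ n := by exact_mod_cast hPn
    have hn0 : (0 : ℝ) < n := lt_of_lt_of_le hP0 hPn'
    obtain ⟨ξ, hξ1, hξ2, hξ3⟩ := dl_mvt (1 :: l) θ n hn0 hl1
    have k1 : n + (1 + l.sum) ≤ 3 * P := by omega
    have k2 : (n : ℝ) + (((1 :: l).sum : ℕ) : ℝ) ≤ 3 * P := by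
      rw [List.sum_cons]
      exact_mod_cast k1
    have k3 : (((1 :: l).length : ℕ) : ℝ) = (l.length : ℝ) + 1 := by
      rw [List.length_cons]
      push_cast
      rfl
    have k4 : (((1 :: l).prod : ℕ) : ℝ) = ((l.prod : ℕ) : ℝ) := by
      rw [List.prod_cons, one_mul]
    rw [k3, k4, ← hκ, List.length_cons] at hξ3
    obtain ⟨k5, k6⟩ := rpow_near P ξ κ K hP0 (hPn'.trans hξ1) (hξ2.trans k2) hK
    have k7 : dl θ (1 :: l) (n : ℝ) = dl θ l ((n + 1 : ℕ) : ℝ) - dl θ l (n : ℝ) := by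
      rw [Nat.cast_add]
      rfl
    have k8 : s * (β * dl θ l ((n + 1 : ℕ) : ℝ) - β * dl θ l (n : ℝ)) = A * ξ ^ κ := by
      rw [← mul_sub, ← k7, hξ3, hA, ← hsE]
      ring
    rw [k8, mul_assoc, mul_assoc]
    exact ⟨mul_le_mul_of_nonneg_left k5 hA0.le, mul_le_mul_of_nonneg_left k6 hA0.le⟩
  refine kl_gen (fun n : ℕ => β * dl θ l (n : ℝ)) a b _ s t hs ht hL hL2
    (fun n hn hnb => (hinc n hn hnb).1) (fun n hn hnb => (hinc n hn hnb).2.trans hup) ?_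
  intro n hn hnb
  have hPn : P ≤ n := ha.trans hn
  have hPn' : (P : ℝ) ≤ n := by exact_mod_cast hPn
  have hn0 : (0 : ℝ) < n := lt_of_lt_of_le hP0 hPn'
  obtain ⟨ξ, hξ1, -, hξ3⟩ := dl_mvt (1 :: 1 :: l) θ n hn0 hl2
  have hξ0 : 0 < ξ := lt_of_lt_of_le hn0 hξ1
  have k4 : (((1 :: 1 :: l).prod : ℕ) : ℝ) = ((l.prod : ℕ) : ℝ) := by
    rw [List.prod_cons, one_mul, List.prod_cons, one_mul]
  have k5 : fal θ (1 :: 1 :: l).length = fal θ (l.length + 2) := rfl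
  rw [k4, k5] at hξ3
  have k7 : dl θ (1 :: 1 :: l) (n : ℝ) =
      dl θ l ((n + 2 : ℕ) : ℝ) - 2 * dl θ l ((n + 1 : ℕ) : ℝ) + dl θ l (n : ℝ) := by
    have k8 : dl θ (1 :: 1 :: l) (n : ℝ) =
        (dl θ l ((n : ℝ) + ((1 : ℕ) : ℝ) + ((1 : ℕ) : ℝ)) - dl θ l ((n : ℝ) + ((1 : ℕ) : ℝ))) -
          (dl θ l ((n : ℝ) + ((1 : ℕ) : ℝ)) - dl θ l (n : ℝ)) := rfl
    have k9 : ((n + 2 : ℕ) : ℝ) = (n : ℝ) + ((1 : ℕ) : ℝ) + ((1 : ℕ) : ℝ) := by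
      push_cast
      ring
    have k10 : ((n + 1 : ℕ) : ℝ) = (n : ℝ) + ((1 : ℕ) : ℝ) := by
      push_cast
      ring
    rw [k8, k9, k10]
    ring
  have k11 : t * (β * dl θ l ((n + 2 : ℕ) : ℝ) - 2 * (β * dl θ l ((n + 1 : ℕ) : ℝ)) +
      β * dl θ l (n : ℝ)) = β * (|fal θ (l.length + 2)| * (l.prod : ℕ) *
        ξ ^ (θ - (((1 :: 1 :: l).length : ℕ) : ℝ))) := by
    rw [← htE]
    linear_combination (-(t * β)) * k7 + (t * β) * hξ3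
  show 0 ≤ t * (β * dl θ l ((n + 2 : ℕ) : ℝ) - 2 * (β * dl θ l ((n + 1 : ℕ) : ℝ)) +
      β * dl θ l (n : ℝ))
  rw [k11]
  have k12 := Real.rpow_pos_of_pos hξ0 (θ - (((1 :: 1 :: l).length : ℕ) : ℝ))
  positivity

end Pool.Agent.Lib.MP_570bef_ntM
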