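import Mathlib
import Pool.Agent.Lib.MP_570bef_ntM.KLl

/-!
# BaseW: the exponential sum after `q` differencings

Fix `θ`, `q`. Put `E1 = |fal θ (q+1)| > 0`, `E2 = |fal θ (q+2)| > 0` (`fal_ne_zero`), `K = |θ| + q + 2`. Let `P ≥ 1`, `β > 0` with
`P^(q+1/4) ≤ β P^θ ≤ P^(q+5/4)`; then `y := β * P^(θ-(q+1))` satisfies `P^(-3/4) ≤ y ≤ P^(1/4)` (`Real.rpow_sub`/`rpow_add`). Let `l` have length `q`, entries
`≥ 1`, `Π = l.prod ≤ P^(1/8)` (and `1 ≤ Π`), `l.sum + P^(1/2) ≤ P`, `P ≤ a`, `b ≤ 2P + 1`. Write `S = ‖∑_{n ∈ [a,b)} e (β dl θ l n)‖`; trivially `S ≤ b - a ≤ P + 1 ≤ 2P`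
(natural subtraction; the sum has `b - a` terms of norm 1).

Case 1: `y * E1 * Π * 3^K ≤ 1/2`. `kl_list` gives `S ≤ 2 * 3^K / (E1 * y * Π) ≤ (2 * 3^K/E1) * P^(3/4) ≤ (2 * 3^K/E1) * P^(7/8)`.

Case 2: `y * Π > c1 := 1/(2 E1 3^K)`. Let `P0 ≥ 16` be such that `P^(1/8) ≥ 2 E2 3^K` for `P ≥ P0`. If `P < P0` then `S ≤ 2P ≤ 2 P0 ≤ 2 P0 P^(7/8)`. Let `P ≥ P0`
and `H = ⌊P^(1/2)⌋₊`, so `1 ≤ H ≤ P^(1/2) ≤ 2H`. If `b - a < H` then `S ≤ H ≤ P^(1/2) ≤ P^(7/8)`. Otherwise (`a ≤ b`, `H ≤ b - a`) `vdc` (file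
`MP_50b5e1_nt/X/VdC.lean`) for `F n = β dl θ l n` gives
`S² ≤ 2 (b-a)/H ((b-a) + 2 ∑_{h ∈ Ico 1 H} S_h)`, `S_h = ‖∑_{n ∈ Ico a (b-h)} e (F (n+h) - F n)‖ = ‖∑ e (β dl θ (h :: l) n)‖` (definition of `dl`, casts).
`kl_list` for `h :: l` (length `q+1`, entries `≥ 1`, sum `h + l.sum ≤ P`, `|θ - (q+2)| ≤ K`): its hypothesis is
`β E2 h Π P^(θ-(q+2)) 3^K = y P^(-1) E2 h Π 3^K ≤ P^(1/4 - 1 + 1/2 + 1/8) E2 3^K = P^(-1/8) E2 3^K ≤ 1/2`. So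
`S_h ≤ 2 * 3^K/(E2 y P^(-1) h Π) ≤ (2 * 3^K/(E2 c1)) P / h =: C5 P / h`. As `∑_{1 ≤ h < H} 1/h ≤ 1 + log H ≤ 1 + log P` (see `iter_harm` in `MP_50b5e1_nt/X/Iter.lean`,
`harmonic_le_one_add_log`) and `log P ≤ 4 P^(1/4)` (`Real.log_le_rpow_div`, `1/4`), `1 + log P ≤ 5 P^(1/4)`:
`S² ≤ (2 * 2P/H) (2P + 2 C5 P * 5 P^(1/4)) ≤ 8 P^(1/2) (2 + 10 C5) P^(5/4) = (16 + 80 C5) P^(7/4)`, so `S ≤ sqrt (16 + 80 C5) P^(7/8)`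
(`Real.le_sqrt`, `Real.sqrt_mul`, or `abs_le_of_sq_le_sq`).

`C` = the maximum (or the sum) of all constants.
-/

set_option autoImplicit false

open Finset Real
open Pool.Agent.Lib.MP_2a816b_nt (e norm_e conj_e e_add e_neg)

namespace Pool.Agent.Lib.MP_570bef_ntM

theorem norm_sum_e_le (a b : ℕ) (F : ℕ → ℝ) : ‖∑ n ∈ Ico a b, e (F n)‖ ≤ ((b - a : ℕ) : ℝ) := by
  refine (norm_sum_le _ _).trans (le_of_eq ?_)
  rw [Finset.sum_congr rfl fun n _ => norm_e (F n), Finset.sum_const, Nat.card_Ico, nsmul_eq_mul,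
    mul_one]

/-- case 1 -/
theorem base_one (θ : ℝ) (hθ : ∀ k : ℕ, θ ≠ k) (q : ℕ) :
    ∃ C : ℝ, 0 < C ∧ ∀ (P : ℕ) (β : ℝ), 1 ≤ P → 0 < β →
      (P : ℝ) ^ (-(3 / 4) : ℝ) ≤ β * (P : ℝ) ^ (θ - ((q : ℝ) + 1)) →
      ∀ l : List ℕ, l.length = q → (∀ h ∈ l, 1 ≤ h) → l.sum ≤ P →
      β * (P : ℝ) ^ (θ - ((q : ℝ) + 1)) * |fal θ (q + 1)| * (l.prod : ℕ) * 3 ^ (|θ| + q + 2) ≤ 1 / 2 →
      ∀ a b : ℕ, P ≤ a → b ≤ 2 * P + 1 →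
      ‖∑ n ∈ Ico a b, e (β * dl θ l n)‖ ≤ C * (P : ℝ) ^ (7 / 8 : ℝ) := by
  have hE : 0 < |fal θ (q + 1)| := abs_pos.2 (fal_ne_zero θ hθ (q + 1))
  have h3 : (0 : ℝ) < 3 ^ (|θ| + q + 2) := Real.rpow_pos_of_pos (by norm_num) _
  refine ⟨2 * 3 ^ (|θ| + q + 2) / |fal θ (q + 1)|, by positivity, ?_⟩
  intro P β hP hβ hy l hlen hl hsum hup a b ha hb
  subst hlen
  have hP1 : (1 : ℝ) ≤ P := by exact_mod_cast hP
  have hP0 : (0 : ℝ) < P := by linarith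
  have hK : |θ - ((l.length : ℝ) + 1)| ≤ |θ| + (l.length : ℝ) + 2 := by
    have h4 : (0 : ℝ) ≤ l.length := Nat.cast_nonneg _
    have h5 := neg_abs_le θ
    have h6 := le_abs_self θ
    rw [abs_le]
    constructor <;> linarith
  have hprod : (1 : ℝ) ≤ (l.prod : ℕ) := by
    have h4 : 1 ≤ l.prod := List.one_le_prod_of_one_le hl
    exact_mod_cast h4
  have h7 := kl_list θ hθ l hl (|θ| + (l.length : ℝ) + 2) hK P a b hP ha hb hsum β hβ (by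
    refine le_trans (le_of_eq ?_) hup
    ring)
  refine h7.trans ?_
  have h34 : (0 : ℝ) < (P : ℝ) ^ (-(3 / 4) : ℝ) := Real.rpow_pos_of_pos hP0 _
  have h3n : (0 : ℝ) < 3 ^ (-(|θ| + (l.length : ℝ) + 2)) := Real.rpow_pos_of_pos (by norm_num) _
  have hD : (P : ℝ) ^ (-(3 / 4) : ℝ) * |fal θ (l.length + 1)| *
      3 ^ (-(|θ| + (l.length : ℝ) + 2)) ≤ β * |fal θ (l.length + 1)| * (l.prod : ℕ) *
        (P : ℝ) ^ (θ - ((l.length : ℝ) + 1)) * 3 ^ (-(|θ| + (l.length : ℝ) + 2)) := by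
    refine mul_le_mul_of_nonneg_right ?_ h3n.le
    have h8 : (P : ℝ) ^ (-(3 / 4) : ℝ) * |fal θ (l.length + 1)| * 1 ≤
        β * (P : ℝ) ^ (θ - ((l.length : ℝ) + 1)) * |fal θ (l.length + 1)| * (l.prod : ℕ) :=
      mul_le_mul (mul_le_mul_of_nonneg_right hy hE.le) hprod zero_le_one (by positivity)
    refine le_trans (le_of_eq (mul_one _).symm) (h8.trans (le_of_eq ?_))
    ring
  refine (div_le_div_of_nonneg_left (by norm_num) (by positivity) hD).trans ?_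
  have h9 : 2 / ((P : ℝ) ^ (-(3 / 4) : ℝ) * |fal θ (l.length + 1)| *
      3 ^ (-(|θ| + (l.length : ℝ) + 2))) =
      2 * 3 ^ (|θ| + (l.length : ℝ) + 2) / |fal θ (l.length + 1)| * (P : ℝ) ^ (3 / 4 : ℝ) := by
    have h34' : (P : ℝ) ^ (3 / 4 : ℝ) ≠ 0 := (Real.rpow_pos_of_pos hP0 _).ne'
    rw [Real.rpow_neg hP0.le, Real.rpow_neg (by norm_num : (0 : ℝ) ≤ 3)]
    field_simp
  rw [h9]
  refine mul_le_mul_of_nonneg_left ?_ (by positivity)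
  exact Real.rpow_le_rpow_of_exponent_le hP1 (by norm_num)

end Pool.Agent.Lib.MP_570bef_ntM
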