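import Mathlib
import Pool.Agent.Lib.MP_570bef_ntM.BaseA
import Pool.Agent.Lib.MP_50b5e1_nt.X.VdC

/-!
# BaseW: the exponential sum after `q` differencings

Fix `θ`, `q`. Put `E1 = |fal θ (q+1)| > 0`, `E2 = |fal θ (q+2)| > 0` (`fal_ne_zero`), `K = |θ| + q + 2`. Let `P ≥ 1`, `β > 0` with
`P^(q+1/4) ≤ β P^θ ≤ P^(q+5/4)`; then `y := β * P^(θ-(q+1))` satisfies `P^(-3/4) ≤ y ≤ P^(1/4)` (`Real.rpow_sub`/`rpow_add`). Let `l` have length `q`, entries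
`≥ 1`, `Π = l.prod ≤ P^(1/8)` (and `1 ≤ Π`), `l.sum + P^(1/2) ≤ P`, `P ≤ a`, `b ≤ 2P + 1`. Write `S = ‖∑_{n ∈ [a,b)} e (β dl θ l n)‖`; trivially `S ≤ b - a ≤ P + 1 ≤ 2P`
(natural subtraction; the sum has `b - a` terms of norm 1).

Case 1: `y * E1 * Π * 3^K ≤ 1/2`. `kl_list` gives `S ≤ 2 * 3^K / (E1 * y * Π) ≤ (2 * 3^K/E1) * P^(3/4) ≤ (2 * 3^K/E1) * P^(7/8)`.

Case 2: `y * Π > c1 := 1/(2 E1 3^K)`. Let `P0 ≥ 16` be such that `P^(1/8) ≥ 2 E2 3^K` for `P ≥ P0`. If `P < P0` then `S ≤ 2P ≤ 2 P0 ≤ 2 P0 P^(7/8)`. Let `P ≥ P0`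
and `H = ⌊P^(1/2)⌋₊`, so `1 ≤ H ≤ P^(1/2) ≤ 2H`. If `b - a < H` then `S ≤ H ≤ P^(1/2) ≤ P^(7/8)`. Otherwise (`a ≤ b`, `H ≤ b - a`) `vdc` (file
`MP_50b5e1_nt/X/VdC.lean`) for `F n = β dl θ l n` gives
`S² ≤ 2 (b-a)/H ((b-a) + 2 ∑_{h ∈ Ico 1 H} S_h)`, `S_h = ‖∑_{n ∈ Ico a (b-h)} e (F (n+h) - F n)‖ = ‖∑ e (β dl θ (h :: l) n)‖` (definition of `dl`, casts).
`kl_list` for `h :: l` (length `q+1`, entries `≥ 1`, sum `h + l.sum ≤ P`, `|θ - (q+2)| ≤ K`): its hypothesis is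
`β E2 h Π P^(θ-(q+2)) 3^K = y P^(-1) E2 h Π 3^K ≤ P^(1/4 - 1 + 1/2 + 1/8) E2 3^K = P^(-1/8) E2 3^K ≤ 1/2`. So
`S_h ≤ 2 * 3^K/(E2 y P^(-1) h Π) ≤ (2 * 3^K/(E2 c1)) P / h =: C5 P / h`. As `∑_{1 ≤ h < H} 1/h ≤ 1 + log H ≤ 1 + log P` (see `iter_harm` in `MP_50b5e1_nt/X/Iter.lean`,
`harmonic_le_one_add_log`) and `log P ≤ 4 P^(1/4)` (`Real.log_le_rpow_div`, `1/4`), `1 + log P ≤ 5 P^(1/4)`:
`S² ≤ (2 * 2P/H) (2P + 2 C5 P * 5 P^(1/4)) ≤ 8 P^(1/2) (2 + 10 C5) P^(5/4) = (16 + 80 C5) P^(7/4)`, so `S ≤ sqrt (16 + 80 C5) P^(7/8)`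
(`Real.le_sqrt`, `Real.sqrt_mul`, or `abs_le_of_sq_le_sq`).

`C` = the maximum (or the sum) of all constants.
-/

set_option autoImplicit false

open Finset Real
open Pool.Agent.Lib.MP_2a816b_nt (e norm_e conj_e e_add e_neg)

namespace Pool.Agent.Lib.MP_570bef_ntM

private theorem BaseB_harm (H : ℕ) : ∑ h ∈ Ico 1 H, (1 : ℝ) / h ≤ 1 + Real.log H := by
  have h1 : ∑ h ∈ Ico 1 H, (1 : ℝ) / h ≤ ∑ h ∈ Icc 1 H, (1 : ℝ) / h := by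
    refine Finset.sum_le_sum_of_subset_of_nonneg ?_ (fun i _ _ => by positivity)
    intro x hx
    rw [mem_Ico] at hx
    rw [mem_Icc]
    omega
  have h2 := harmonic_le_one_add_log H
  rw [harmonic_eq_sum_Icc] at h2
  push_cast at h2
  refine h1.trans (le_trans (le_of_eq ?_) h2)
  exact Finset.sum_congr rfl fun x _ => one_div _

private theorem BaseB_log {P : ℝ} (hP : 1 ≤ P) : 1 + Real.log P ≤ 5 * P ^ (1 / 4 : ℝ) := by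
  have h1 : Real.log P ≤ P ^ (1 / 4 : ℝ) / (1 / 4) :=
    Real.log_le_rpow_div (by linarith) (by norm_num)
  have h2 : 1 ≤ P ^ (1 / 4 : ℝ) := Real.one_le_rpow hP (by norm_num)
  linarith

/-- one shifted sum -/
private theorem BaseB_kl (θ : ℝ) (hθ : ∀ k : ℕ, θ ≠ k) (q : ℕ) (P : ℕ) (β : ℝ) (hP : 1 ≤ P)
    (hβ : 0 < β) (hy : β * (P : ℝ) ^ (θ - ((q : ℝ) + 1)) ≤ (P : ℝ) ^ (1 / 4 : ℝ))
    (l : List ℕ) (hl : l.length = q) (hl1 : ∀ h ∈ l, 1 ≤ h)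
    (hpr : (l.prod : ℕ) ≤ (P : ℝ) ^ (1 / 8 : ℝ)) (hsum : (l.sum : ℕ) + (P : ℝ) ^ (1 / 2 : ℝ) ≤ P)
    (hbig : 1 / 2 < β * (P : ℝ) ^ (θ - ((q : ℝ) + 1)) * |fal θ (q + 1)| * (l.prod : ℕ) *
      3 ^ (|θ| + q + 2))
    (hP8 : 2 * |fal θ (q + 2)| * 3 ^ (|θ| + q + 2) ≤ (P : ℝ) ^ (1 / 8 : ℝ))
    (h : ℕ) (h1 : 1 ≤ h) (hh : (h : ℝ) ≤ (P : ℝ) ^ (1 / 2 : ℝ)) (a b : ℕ) (ha : P ≤ a)
    (hb : b ≤ 2 * P + 1) :
    ‖∑ n ∈ Ico a b, e (β * dl θ (h :: l) n)‖ ≤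
      4 * |fal θ (q + 1)| * (3 ^ (|θ| + q + 2)) ^ 2 / |fal θ (q + 2)| * P * (1 / h) := by
  subst hl
  have hP0 : (0 : ℝ) < P := by exact_mod_cast hP
  have hP1 : (1 : ℝ) ≤ P := by exact_mod_cast hP
  obtain ⟨T, hT⟩ : ∃ T : ℝ, T = 3 ^ (|θ| + (l.length : ℝ) + 2) := ⟨_, rfl⟩
  have hT0 : 0 < T := by rw [hT]; positivity
  have hTn : (3 : ℝ) ^ (-(|θ| + (l.length : ℝ) + 2)) = T⁻¹ := by
    rw [Real.rpow_neg (by norm_num), hT]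
  obtain ⟨E1, hE1⟩ : ∃ E1 : ℝ, E1 = |fal θ (l.length + 1)| := ⟨_, rfl⟩
  obtain ⟨E2, hE2⟩ : ∃ E2 : ℝ, E2 = |fal θ (l.length + 2)| := ⟨_, rfl⟩
  have hE10 : 0 < E1 := by
    rw [hE1]
    exact abs_pos.2 (fal_ne_zero θ hθ _)
  have hE20 : 0 < E2 := by
    rw [hE2]
    exact abs_pos.2 (fal_ne_zero θ hθ _)
  obtain ⟨y, hyd⟩ : ∃ y : ℝ, y = β * (P : ℝ) ^ (θ - ((l.length : ℝ) + 1)) := ⟨_, rfl⟩
  have hy0 : 0 < y := by
    rw [hyd]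
    positivity
  have hpr1 : (1 : ℝ) ≤ (l.prod : ℕ) := by
    have : 1 ≤ l.prod := by
      rw [Nat.one_le_iff_ne_zero]
      intro h0
      have h2 := List.prod_eq_zero_iff.1 h0
      have h3 := hl1 0 h2
      omega
    exact_mod_cast this
  have hh0 : (0 : ℝ) < h := by exact_mod_cast h1
  rw [← hT, ← hE1, ← hyd] at hbig
  rw [← hyd] at hy
  rw [← hT, ← hE2] at hP8
  have hyP : β * (P : ℝ) ^ (θ - (((l.length : ℝ) + 1) + 1)) = y / P := by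
    rw [hyd]
    have h2 : θ - (((l.length : ℝ) + 1) + 1) = θ - ((l.length : ℝ) + 1) - 1 := by ring
    rw [h2, Real.rpow_sub hP0, Real.rpow_one]
    ring
  have hlen : ((h :: l).length : ℝ) + 1 = ((l.length : ℝ) + 1) + 1 := by
    rw [List.length_cons]
    push_cast
    ring
  have hfal : (h :: l).length + 1 = l.length + 2 := by rw [List.length_cons]
  have hprod : (((h :: l).prod : ℕ) : ℝ) = h * (l.prod : ℕ) := by
    rw [List.prod_cons]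
    push_cast
    ring
  have hK : |θ - (((h :: l).length : ℝ) + 1)| ≤ |θ| + (l.length : ℝ) + 2 := by
    rw [hlen]
    calc |θ - (((l.length : ℝ) + 1) + 1)| ≤ |θ| + |((l.length : ℝ) + 1) + 1| := abs_sub _ _
      _ = |θ| + (l.length : ℝ) + 2 := by
        rw [abs_of_nonneg (a := ((l.length : ℝ) + 1) + 1) (by positivity)]
        ring
  have hsum' : (h :: l).sum ≤ P := by
    rw [List.sum_cons]
    have h2 : ((h + l.sum : ℕ) : ℝ) ≤ (P : ℝ) := by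
      rw [Nat.cast_add]
      linarith
    exact_mod_cast h2
  have hrew : β * |fal θ ((h :: l).length + 1)| * ((h :: l).prod : ℕ) *
      (P : ℝ) ^ (θ - (((h :: l).length : ℝ) + 1)) = y / P * E2 * (h * (l.prod : ℕ)) := by
    rw [hlen, hfal, hprod, ← hE2, ← hyP]
    ring
  have hup : β * |fal θ ((h :: l).length + 1)| * ((h :: l).prod : ℕ) *
      (P : ℝ) ^ (θ - (((h :: l).length : ℝ) + 1)) * 3 ^ (|θ| + (l.length : ℝ) + 2) ≤ 1 / 2 := by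
    rw [hrew, ← hT]
    have h4 : (P : ℝ) ^ (1 / 4 : ℝ) * (P : ℝ) ^ (1 / 2 : ℝ) * (P : ℝ) ^ (1 / 8 : ℝ) *
        (P : ℝ) ^ (1 / 8 : ℝ) = P := by
      rw [← Real.rpow_add hP0, ← Real.rpow_add hP0, ← Real.rpow_add hP0]
      norm_num
    have h5 : y * (h * (l.prod : ℕ)) ≤
        (P : ℝ) ^ (1 / 4 : ℝ) * ((P : ℝ) ^ (1 / 2 : ℝ) * (P : ℝ) ^ (1 / 8 : ℝ)) :=
      mul_le_mul hy (mul_le_mul hh hpr (by positivity) (by positivity)) (by positivity)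
        (by positivity)
    have h6 : 2 * (y * (h * (l.prod : ℕ)) * (E2 * T)) ≤ P := by
      calc 2 * (y * (h * (l.prod : ℕ)) * (E2 * T)) =
          y * (h * (l.prod : ℕ)) * (2 * E2 * T) := by ring
        _ ≤ (P : ℝ) ^ (1 / 4 : ℝ) * ((P : ℝ) ^ (1 / 2 : ℝ) * (P : ℝ) ^ (1 / 8 : ℝ)) *
            (P : ℝ) ^ (1 / 8 : ℝ) := mul_le_mul h5 hP8 (by positivity) (by positivity)
        _ = P := by
            rw [← mul_assoc]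
            exact h4
    have h7 : y / P * E2 * (h * (l.prod : ℕ)) * T = y * (h * (l.prod : ℕ)) * (E2 * T) / P := by
      field_simp
    rw [h7, div_le_iff₀ hP0]
    linarith
  have key := kl_list θ hθ (h :: l) (by
      intro x hx
      rw [List.mem_cons] at hx
      rcases hx with rfl | hx
      · exact h1
      · exact hl1 x hx) _ hK P a b hP ha hb hsum' β hβ hup
  refine key.trans ?_
  rw [hrew, hTn, ← hE1, ← hT, ← hE2]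
  rw [div_le_iff₀ (by positivity)]
  have h8 : 4 * E1 * T ^ 2 / E2 * P * (1 / h) * (y / P * E2 * (h * (l.prod : ℕ)) * T⁻¹) =
      4 * (y * E1 * (l.prod : ℕ) * T) := by
    field_simp
  rw [h8]
  linarith

/-- case 2 -/
theorem base_two (θ : ℝ) (hθ : ∀ k : ℕ, θ ≠ k) (q : ℕ) :
    ∃ C : ℝ, 0 < C ∧ ∀ (P : ℕ) (β : ℝ), 1 ≤ P → 0 < β →
      β * (P : ℝ) ^ (θ - ((q : ℝ) + 1)) ≤ (P : ℝ) ^ (1 / 4 : ℝ) →
      ∀ l : List ℕ, l.length = q → (∀ h ∈ l, 1 ≤ h) → (l.prod : ℕ) ≤ (P : ℝ) ^ (1 / 8 : ℝ) →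
      (l.sum : ℕ) + (P : ℝ) ^ (1 / 2 : ℝ) ≤ P →
      1 / 2 < β * (P : ℝ) ^ (θ - ((q : ℝ) + 1)) * |fal θ (q + 1)| * (l.prod : ℕ) * 3 ^ (|θ| + q + 2) →
      ∀ a b : ℕ, P ≤ a → b ≤ 2 * P + 1 →
      ‖∑ n ∈ Ico a b, e (β * dl θ l n)‖ ≤ C * (P : ℝ) ^ (7 / 8 : ℝ) := by
  obtain ⟨T, hT⟩ : ∃ T : ℝ, T = 3 ^ (|θ| + (q : ℝ) + 2) := ⟨_, rfl⟩
  have hT0 : 0 < T := by rw [hT]; positivity
  obtain ⟨C5, hC5⟩ : ∃ C5 : ℝ, C5 = 4 * |fal θ (q + 1)| * T ^ 2 / |fal θ (q + 2)| := ⟨_, rfl⟩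
  have hC50 : 0 ≤ C5 := by
    rw [hC5]
    positivity
  obtain ⟨P0, hP0⟩ : ∃ P0 : ℝ, P0 = max 16 ((2 * |fal θ (q + 2)| * T) ^ (8 : ℕ)) := ⟨_, rfl⟩
  have hP016 : 16 ≤ P0 := by
    rw [hP0]
    exact le_max_left _ _
  refine ⟨2 * P0 + (1 + Real.sqrt (16 + 80 * C5)), by positivity, ?_⟩
  intro P β hP hβ hy l hl hl1 hpr hsum hbig a b ha hb
  have hPr : (0 : ℝ) < P := by exact_mod_cast hP
  have hP1 : (1 : ℝ) ≤ P := by exact_mod_cast hP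
  obtain ⟨S, hS⟩ : ∃ S : ℝ, S = ‖∑ n ∈ Ico a b, e (β * dl θ l n)‖ := ⟨_, rfl⟩
  have hS0 : 0 ≤ S := by rw [hS]; exact norm_nonneg _
  rw [← hS]
  have hX : 1 ≤ (P : ℝ) ^ (7 / 8 : ℝ) := Real.one_le_rpow hP1 (by norm_num)
  have hX12 : (P : ℝ) ^ (1 / 2 : ℝ) ≤ (P : ℝ) ^ (7 / 8 : ℝ) :=
    Real.rpow_le_rpow_of_exponent_le hP1 (by norm_num)
  have hsq : 0 ≤ Real.sqrt (16 + 80 * C5) := Real.sqrt_nonneg _
  have htriv : S ≤ ((b - a : ℕ) : ℝ) := by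
    rw [hS]
    exact norm_sum_e_le a b fun n => β * dl θ l n
  have hba : ((b - a : ℕ) : ℝ) ≤ 2 * P := by
    have h1 : b - a ≤ 2 * P := by omega
    exact_mod_cast h1
  -- small `P`
  rcases lt_or_ge (P : ℝ) P0 with hsm | hlarge
  · calc S ≤ 2 * P := htriv.trans hba
      _ ≤ 2 * P0 * 1 := by linarith
      _ ≤ 2 * P0 * (P : ℝ) ^ (7 / 8 : ℝ) := mul_le_mul_of_nonneg_left hX (by linarith)
      _ ≤ (2 * P0 + (1 + Real.sqrt (16 + 80 * C5))) * (P : ℝ) ^ (7 / 8 : ℝ) :=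
          mul_le_mul_of_nonneg_right (by linarith) (by linarith)
  have hP16 : (16 : ℝ) ≤ P := by linarith
  have hP8 : 2 * |fal θ (q + 2)| * T ≤ (P : ℝ) ^ (1 / 8 : ℝ) := by
    have h1 : (2 * |fal θ (q + 2)| * T) ^ (8 : ℕ) ≤ P := by
      refine le_trans ?_ hlarge
      rw [hP0]
      exact le_max_right _ _
    have h2 : 0 ≤ 2 * |fal θ (q + 2)| * T := by positivity
    calc 2 * |fal θ (q + 2)| * T = ((2 * |fal θ (q + 2)| * T) ^ (8 : ℕ)) ^ (1 / 8 : ℝ) := by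
          rw [← Real.rpow_natCast, ← Real.rpow_mul h2]
          norm_num
      _ ≤ (P : ℝ) ^ (1 / 8 : ℝ) := Real.rpow_le_rpow (by positivity) h1 (by norm_num)
  obtain ⟨R, hR⟩ : ∃ R : ℝ, R = (P : ℝ) ^ (1 / 2 : ℝ) := ⟨_, rfl⟩
  have hR4 : 4 ≤ R := by
    rw [hR]
    calc (4 : ℝ) = (16 : ℝ) ^ (1 / 2 : ℝ) := by
          rw [← Real.sqrt_eq_rpow]
          rw [show (16 : ℝ) = 4 ^ 2 by norm_num, Real.sqrt_sq (by norm_num)]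
      _ ≤ (P : ℝ) ^ (1 / 2 : ℝ) := Real.rpow_le_rpow (by norm_num) hP16 (by norm_num)
  obtain ⟨H, hH⟩ : ∃ H : ℕ, H = ⌊R⌋₊ := ⟨_, rfl⟩
  have hHR : (H : ℝ) ≤ R := by
    rw [hH]
    exact Nat.floor_le (by linarith)
  have hRH : R ≤ 2 * H := by
    have h1 : R - 1 < (H : ℝ) := by
      rw [hH]
      exact Nat.sub_one_lt_floor R
    linarith
  have hH0 : (0 : ℝ) < H := by linarith
  have hH1 : 1 ≤ H := by
    have : 0 < H := by exact_mod_cast hH0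
    omega
  rcases lt_or_ge (b - a) H with hbH | hbH
  · have h1 : ((b - a : ℕ) : ℝ) ≤ H := by exact_mod_cast hbH.le
    calc S ≤ H := htriv.trans h1
      _ ≤ R := hHR
      _ ≤ 1 * (P : ℝ) ^ (7 / 8 : ℝ) := by rw [one_mul, hR]; exact hX12
      _ ≤ (2 * P0 + (1 + Real.sqrt (16 + 80 * C5))) * (P : ℝ) ^ (7 / 8 : ℝ) :=
          mul_le_mul_of_nonneg_right (by linarith) (by linarith)
  have hab : a ≤ b := by omega
  have hv := Pool.Agent.Lib.MP_50b5e1_nt.vdc (fun n => β * dl θ l n) a b H hab hH1 hbH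
  have hbar : (b : ℝ) - a = ((b - a : ℕ) : ℝ) := by rw [Nat.cast_sub hab]
  rw [← hS, hbar] at hv
  have hSh : ∀ h ∈ Ico 1 H, ‖∑ n ∈ Ico a (b - h),
      e (β * dl θ l ((n + h : ℕ) : ℝ) - β * dl θ l (n : ℝ))‖ ≤ C5 * P * (1 / h) := by
    intro h hh
    rw [mem_Ico] at hh
    have h1 : ∀ n : ℕ, β * dl θ l ((n + h : ℕ) : ℝ) - β * dl θ l (n : ℝ) =
        β * dl θ (h :: l) n := by
      intro n
      rw [dl]
      push_cast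
      ring
    simp_rw [h1]
    have h2 : (h : ℝ) ≤ (P : ℝ) ^ (1 / 2 : ℝ) := by
      rw [← hR]
      have h3 : (h : ℝ) ≤ H := by exact_mod_cast hh.2.le
      linarith
    have h3 := BaseB_kl θ hθ q P β hP hβ hy l hl hl1 hpr hsum hbig (by rw [← hT]; exact hP8)
      h hh.1 h2 a (b - h) ha (by omega)
    rw [← hT, ← hC5] at h3
    exact h3
  have hsumh : ∑ h ∈ Ico 1 H, ‖∑ n ∈ Ico a (b - h),
      e (β * dl θ l ((n + h : ℕ) : ℝ) - β * dl θ l (n : ℝ))‖ ≤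
      C5 * P * (5 * (P : ℝ) ^ (1 / 4 : ℝ)) := by
    refine (sum_le_sum hSh).trans ?_
    rw [← mul_sum]
    refine mul_le_mul_of_nonneg_left ?_ (by positivity)
    refine (BaseB_harm H).trans ?_
    have h1 : Real.log H ≤ Real.log P := by
      refine Real.log_le_log hH0 ?_
      have h2 : R ≤ P := by
        rw [hR]
        calc (P : ℝ) ^ (1 / 2 : ℝ) ≤ (P : ℝ) ^ (1 : ℝ) :=
              Real.rpow_le_rpow_of_exponent_le hP1 (by norm_num)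
          _ = P := Real.rpow_one _
      linarith
    linarith [BaseB_log hP1]
  have hQ1 : 1 ≤ (P : ℝ) ^ (1 / 4 : ℝ) := Real.one_le_rpow hP1 (by norm_num)
  have hbr : ((b - a : ℕ) : ℝ) + 2 * ∑ h ∈ Ico 1 H, ‖∑ n ∈ Ico a (b - h),
      e (β * dl θ l ((n + h : ℕ) : ℝ) - β * dl θ l (n : ℝ))‖ ≤
      (2 + 10 * C5) * (P * (P : ℝ) ^ (1 / 4 : ℝ)) := by
    have h1 : (P : ℝ) * 1 ≤ P * (P : ℝ) ^ (1 / 4 : ℝ) := mul_le_mul_of_nonneg_left hQ1 hPr.le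
    nlinarith
  have hfr : 2 * ((b - a : ℕ) : ℝ) / H ≤ 8 * R := by
    rw [div_le_iff₀ hH0]
    have h1 : R * R = P := by
      rw [hR, ← Real.rpow_add hPr]
      norm_num
    nlinarith
  have hfin : S ^ 2 ≤ (16 + 80 * C5) * (P : ℝ) ^ (7 / 4 : ℝ) := by
    calc S ^ 2 ≤ _ := hv
      _ ≤ 8 * R * ((2 + 10 * C5) * (P * (P : ℝ) ^ (1 / 4 : ℝ))) := by
          refine mul_le_mul hfr hbr ?_ (by positivity)
          have h9 : 0 ≤ ∑ h ∈ Ico 1 H, ‖∑ n ∈ Ico a (b - h),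
            e (β * dl θ l ((n + h : ℕ) : ℝ) - β * dl θ l (n : ℝ))‖ :=
            sum_nonneg fun _ _ => norm_nonneg _
          exact add_nonneg (Nat.cast_nonneg _) (mul_nonneg zero_le_two h9)
      _ = (16 + 80 * C5) * (R * (P * (P : ℝ) ^ (1 / 4 : ℝ))) := by ring
      _ = (16 + 80 * C5) * (P : ℝ) ^ (7 / 4 : ℝ) := by
          congr 1
          rw [hR]
          nth_rewrite 2 [← Real.rpow_one (P : ℝ)]
          rw [← Real.rpow_add hPr, ← Real.rpow_add hPr]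
          norm_num
  have hS2 : S ≤ Real.sqrt (16 + 80 * C5) * (P : ℝ) ^ (7 / 8 : ℝ) := by
    refine abs_le_of_sq_le_sq' ?_ (by positivity) |>.2
    rw [mul_pow, Real.sq_sqrt (by positivity), ← Real.rpow_natCast, ← Real.rpow_natCast,
      ← Real.rpow_mul hPr.le, Real.rpow_natCast]
    have h1 : (7 / 8 : ℝ) * ((2 : ℕ) : ℝ) = 7 / 4 := by norm_num
    rw [h1]
    exact hfin
  calc S ≤ Real.sqrt (16 + 80 * C5) * (P : ℝ) ^ (7 / 8 : ℝ) := hS2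
    _ ≤ (2 * P0 + (1 + Real.sqrt (16 + 80 * C5))) * (P : ℝ) ^ (7 / 8 : ℝ) :=
        mul_le_mul_of_nonneg_right (by linarith) (by linarith)

end Pool.Agent.Lib.MP_570bef_ntM
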