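import Mathlib
import Pool.Agent.Lib.MP_570bef_ntM.BaseB

/-!
# BaseW: the exponential sum after `q` differencings

Fix `θ`, `q`. Put `E1 = |fal θ (q+1)| > 0`, `E2 = |fal θ (q+2)| > 0` (`fal_ne_zero`), `K = |θ| + q + 2`. Let `P ≥ 1`, `β > 0` with
`P^(q+1/4) ≤ β P^θ ≤ P^(q+5/4)`; then `y := β * P^(θ-(q+1))` satisfies `P^(-3/4) ≤ y ≤ P^(1/4)` (`Real.rpow_sub`/`rpow_add`). Let `l` have length `q`, entries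
`≥ 1`, `Π = l.prod ≤ P^(1/8)` (and `1 ≤ Π`), `l.sum + P^(1/2) ≤ P`, `P ≤ a`, `b ≤ 2P + 1`. Write `S = ‖∑_{n ∈ [a,b)} e (β dl θ l n)‖`; trivially `S ≤ b - a ≤ P + 1 ≤ 2P`
(natural subtraction; the sum has `b - a` terms of norm 1).

Case 1: `y * E1 * Π * 3^K ≤ 1/2`. `kl_list` gives `S ≤ 2 * 3^K / (E1 * y * Π) ≤ (2 * 3^K/E1) * P^(3/4) ≤ (2 * 3^K/E1) * P^(7/8)`.

Case 2: `y * Π > c1 := 1/(2 E1 3^K)`. Let `P0 ≥ 16` be such that `P^(1/8) ≥ 2 E2 3^K` for `P ≥ P0`. If `P < P0` then `S ≤ 2P ≤ 2 P0 ≤ 2 P0 P^(7/8)`. Let `P ≥ P0`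
and `H = ⌊P^(1/2)⌋₊`, so `1 ≤ H ≤ P^(1/2) ≤ 2H`. If `b - a < H` then `S ≤ H ≤ P^(1/2) ≤ P^(7/8)`. Otherwise (`a ≤ b`, `H ≤ b - a`) `vdc` (file
`MP_50b5e1_nt/X/VdC.lean`) for `F n = β dl θ l n` gives
`S² ≤ 2 (b-a)/H ((b-a) + 2 ∑_{h ∈ Ico 1 H} S_h)`, `S_h = ‖∑_{n ∈ Ico a (b-h)} e (F (n+h) - F n)‖ = ‖∑ e (β dl θ (h :: l) n)‖` (definition of `dl`, casts).
`kl_list` for `h :: l` (length `q+1`, entries `≥ 1`, sum `h + l.sum ≤ P`, `|θ - (q+2)| ≤ K`): its hypothesis is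
`β E2 h Π P^(θ-(q+2)) 3^K = y P^(-1) E2 h Π 3^K ≤ P^(1/4 - 1 + 1/2 + 1/8) E2 3^K = P^(-1/8) E2 3^K ≤ 1/2`. So
`S_h ≤ 2 * 3^K/(E2 y P^(-1) h Π) ≤ (2 * 3^K/(E2 c1)) P / h =: C5 P / h`. As `∑_{1 ≤ h < H} 1/h ≤ 1 + log H ≤ 1 + log P` (see `iter_harm` in `MP_50b5e1_nt/X/Iter.lean`,
`harmonic_le_one_add_log`) and `log P ≤ 4 P^(1/4)` (`Real.log_le_rpow_div`, `1/4`), `1 + log P ≤ 5 P^(1/4)`:
`S² ≤ (2 * 2P/H) (2P + 2 C5 P * 5 P^(1/4)) ≤ 8 P^(1/2) (2 + 10 C5) P^(5/4) = (16 + 80 C5) P^(7/4)`, so `S ≤ sqrt (16 + 80 C5) P^(7/8)`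
(`Real.le_sqrt`, `Real.sqrt_mul`, or `abs_le_of_sq_le_sq`).

`C` = the maximum (or the sum) of all constants.
-/

set_option autoImplicit false

open Finset Real
open Pool.Agent.Lib.MP_2a816b_nt (e norm_e conj_e e_add e_neg)

namespace Pool.Agent.Lib.MP_570bef_ntM

theorem base_w (θ : ℝ) (hθ : ∀ k : ℕ, θ ≠ k) (q : ℕ) :
    ∃ C : ℝ, 0 < C ∧ ∀ (P : ℕ) (β : ℝ), 1 ≤ P → 0 < β →
      (P : ℝ) ^ ((q : ℝ) + 1 / 4) ≤ β * (P : ℝ) ^ θ → β * (P : ℝ) ^ θ ≤ (P : ℝ) ^ ((q : ℝ) + 5 / 4) →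
      ∀ l : List ℕ, l.length = q → (∀ h ∈ l, 1 ≤ h) → (l.prod : ℕ) ≤ (P : ℝ) ^ (1 / 8 : ℝ) →
      (l.sum : ℕ) + (P : ℝ) ^ (1 / 2 : ℝ) ≤ P →
      ∀ a b : ℕ, P ≤ a → b ≤ 2 * P + 1 →
      ‖∑ n ∈ Ico a b, e (β * dl θ l n)‖ ≤ C * (P : ℝ) ^ (7 / 8 : ℝ) := by
  obtain ⟨C1, hC1, h1⟩ := base_one θ hθ q
  obtain ⟨C2, hC2, h2⟩ := base_two θ hθ q
  refine ⟨C1 + C2, by positivity, fun P β hP hβ hlo hhi l hl hl1 hprod hsum a b ha hb => ?_⟩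
  have hP1 : (1 : ℝ) ≤ P := by exact_mod_cast hP
  have hP0 : (0 : ℝ) < P := by linarith
  have hPP : 0 ≤ (P : ℝ) ^ (7 / 8 : ℝ) := by positivity
  have hneg : 0 < (P : ℝ) ^ (-((q : ℝ) + 1)) := Real.rpow_pos_of_pos hP0 _
  have e0 : β * (P : ℝ) ^ (θ - ((q : ℝ) + 1)) = β * (P : ℝ) ^ θ * (P : ℝ) ^ (-((q : ℝ) + 1)) := by
    rw [mul_assoc, ← Real.rpow_add hP0]
    congr 2
  have y1 : (P : ℝ) ^ (-(3 / 4) : ℝ) ≤ β * (P : ℝ) ^ (θ - ((q : ℝ) + 1)) := by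
    have h := mul_le_mul_of_nonneg_right hlo hneg.le
    rw [← Real.rpow_add hP0] at h
    have e1 : (q : ℝ) + 1 / 4 + -((q : ℝ) + 1) = -(3 / 4) := by ring
    rw [e1] at h
    rw [e0]
    exact h
  have y2 : β * (P : ℝ) ^ (θ - ((q : ℝ) + 1)) ≤ (P : ℝ) ^ (1 / 4 : ℝ) := by
    have h := mul_le_mul_of_nonneg_right hhi hneg.le
    rw [← Real.rpow_add hP0] at h
    have e1 : (q : ℝ) + 5 / 4 + -((q : ℝ) + 1) = 1 / 4 := by ring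
    rw [e1] at h
    rw [e0]
    exact h
  have hsumP : l.sum ≤ P := by
    have h3 : 0 ≤ (P : ℝ) ^ (1 / 2 : ℝ) := by positivity
    have h4 : ((l.sum : ℕ) : ℝ) ≤ P := by linarith
    exact_mod_cast h4
  rcases le_or_gt (β * (P : ℝ) ^ (θ - ((q : ℝ) + 1)) * |fal θ (q + 1)| * (l.prod : ℕ) * 3 ^ (|θ| + q + 2)) (1 / 2)
    with hcase | hcase
  · refine (h1 P β hP hβ y1 l hl hl1 hsumP hcase a b ha hb).trans ?_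
    exact mul_le_mul_of_nonneg_right (by linarith) hPP
  · refine (h2 P β hP hβ y2 l hl hl1 hprod hsum hcase a b ha hb).trans ?_
    exact mul_le_mul_of_nonneg_right (by linarith) hPP

end Pool.Agent.Lib.MP_570bef_ntM
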