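import Mathlib
import Pool.Agent.Lib.MP_570bef_ntM.Defs

/-!
# ParO: one scale, and all large `N`

* `big_mod`: `M = 1 + N + H + 2 ∑_{t∈T} v t + ∑_{n∈W} g n + ∑_{k<Y} g k + 1` (`Finset.single_le_sum`).
* `one_scale`: `σ = 1/(8 Q 2^Q)`, `C3 = 2 (2C + 2^θ)`, `W = Ico P (2P)`, `H = HH θ P`, `Y = YY θ N`, `M` from `big_mod`. For `j < M`, `α = j/M ∈ [0,1]`; `kernel_bound` gives the hypothesis of
  `circle_ineq` with `B = C8 P^(2-σ)`. So with `avg_bound`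
  `RR N ≥ c (#T)² P^(2-θ) - C8 P^(2-σ) (#T)² P^(-θ+σ/2) = (#T)² P^(2-θ) (c - C8 P^(-σ/2)) > 0` for `P ≥ P0` (`1/(16 Q 2^Q) = σ/2`; `P^(-σ/2) → 0`: `tendsto_rpow_neg_atTop`), `#T ≥ 1`.
* `scale`: `x_m = C3 (2^m)^θ` is strictly increasing and tends to infinity (`(2^m)^θ = (2^θ)^m`, `2^θ > 1`). `N0` with `N0 ≥ x_(m0)`. For `N ≥ N0` let `m` be the greatest with `x_m ≤ N` (`Nat.findGreatest`, or
  `exists_nat_pow_near`-type for the real number `N/C3 ≥ 1` and the base `2^θ > 1`: `exists_nat_pow_near : 1 ≤ x → 1 < y → ∃ n, y^n ≤ x ∧ x < y^(n+1)`; then `m ≥ m0` by monotonicity).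
* `circle`: combine. `C ≥ 1` may be assumed (replace `C` by `max C 1`), `P = 2^m` (`((2^m : ℕ) : ℝ) = 2^m`), `(2 * P)^θ = (2^(m+1))^θ`. Choose `m0` such that the hypothesis `hT` holds and
  `2^m ≥ m ≥ P0` for `m ≥ m0`. `rr_pos` gives the representation.
-/

set_option autoImplicit false

open Finset Real

namespace Pool.Agent.Lib.MP_570bef_ntM

theorem big_mod {ι : Type} (T : Finset ι) (v : ι → ℕ) (W : Finset ℕ) (g : ℕ → ℕ) (Y N H : ℕ) :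
    ∃ M : ℕ, 1 ≤ M ∧ N + H ≤ M ∧ (∀ t ∈ T, v t < M) ∧
      ∀ t ∈ T, ∀ t' ∈ T, ∀ n ∈ W, ∀ k ∈ range Y, v t + v t' + g n + g k < M := by
  refine ⟨1 + N + H + 2 * ∑ t ∈ T, v t + ∑ n ∈ W, g n + ∑ k ∈ range Y, g k, by omega, by omega,
    ?_, ?_⟩
  · intro t ht
    have h1 : v t ≤ ∑ t ∈ T, v t := Finset.single_le_sum (f := v) (fun i _ => Nat.zero_le _) ht
    omega
  · intro t ht t' ht' n hn k hk
    have h1 : v t ≤ ∑ t ∈ T, v t := Finset.single_le_sum (f := v) (fun i _ => Nat.zero_le _) ht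
    have h2 : v t' ≤ ∑ t ∈ T, v t := Finset.single_le_sum (f := v) (fun i _ => Nat.zero_le _) ht'
    have h3 : g n ≤ ∑ n ∈ W, g n := Finset.single_le_sum (f := g) (fun i _ => Nat.zero_le _) hn
    have h4 : g k ≤ ∑ k ∈ range Y, g k :=
      Finset.single_le_sum (f := g) (fun i _ => Nat.zero_le _) hk
    omega

theorem scale (θ C3 : ℝ) (h1 : 1 < θ) (hC : 0 < C3) (m0 : ℕ) :
    ∃ N0 : ℕ, ∀ N : ℕ, N0 ≤ N → ∃ m : ℕ, m0 ≤ m ∧ C3 * ((2 : ℝ) ^ m) ^ θ ≤ N ∧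
      (N : ℝ) ≤ C3 * ((2 : ℝ) ^ (m + 1)) ^ θ := by
  have hy : (1 : ℝ) < (2 : ℝ) ^ θ := Real.one_lt_rpow (by norm_num) (by linarith)
  have hpow : ∀ m : ℕ, ((2 : ℝ) ^ m) ^ θ = ((2 : ℝ) ^ θ) ^ m := fun m =>
    (Real.rpow_pow_comm (by norm_num) θ m).symm
  refine ⟨⌈C3 * ((2 : ℝ) ^ θ) ^ m0⌉₊, fun N hN => ?_⟩
  have h2 : C3 * ((2 : ℝ) ^ θ) ^ m0 ≤ N := (Nat.le_ceil _).trans (by exact_mod_cast hN)
  have h3 : ((2 : ℝ) ^ θ) ^ m0 ≤ N / C3 := by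
    rw [le_div_iff₀ hC]
    linarith
  have h4 : (1 : ℝ) ≤ N / C3 := (one_le_pow₀ hy.le).trans h3
  obtain ⟨m, hm1, hm2⟩ := exists_nat_pow_near h4 hy
  refine ⟨m, ?_, ?_, ?_⟩
  · have h5 : ((2 : ℝ) ^ θ) ^ m0 < ((2 : ℝ) ^ θ) ^ (m + 1) := lt_of_le_of_lt h3 hm2
    have h6 := (pow_lt_pow_iff_right₀ hy).1 h5
    omega
  · rw [hpow]
    rw [le_div_iff₀ hC] at hm1
    linarith
  · rw [hpow]
    rw [div_lt_iff₀ hC] at hm2
    linarith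

end Pool.Agent.Lib.MP_570bef_ntM
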