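import Mathlib
import Pool.Agent.Lib.MP_570bef_ntM.Defs

/-!
# CircI: comparison of `R(N)` with its average

* `dh_two`: `‖DH‖ ≤ 1` (norm of a sum of `H` terms of norm 1, divided by `H`), so `‖1 - DH‖ ≤ 2`.
* `dh_small`: `1 - DH H α = (∑_{h<H} (1 - e (-(αh))))/H`, `e (-(αh)) = e (-((α-m)h))` for an integer `m` (`e_add_int`, `m h` is an integer), and
  `‖1 - e (-(xh))‖ = ‖e (-(xh)) - 1‖ = 2|sin (π x h)| ≤ 2π|x|h ≤ 2π H |x|` (`norm_e_sub_one`, `Real.abs_sin_le`/`abs_sin_le_abs`... `|sin y| ≤ |y|`).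
* `circle_ineq`: by `rr_fourier` for `N' = N + h` (`h < H`, `N + h < M`) and for `N' = N` (`H ≥ 1`): with `α_j = j/M`
  `M (R(N) - (∑_{h<H} R(N+h))/H) = ∑_j FT² FW FY e (-(α_j N)) (1 - DH H α_j)` as `e (-(α (N+h))) = e (-(αN)) e (-(αh))`. Norms: `≤ ∑_j ‖FT‖² B = B M JT` (`parseval`). Divide by `M > 0`.
  (`v t < M` for `t ∈ T`: hypothesis `hv`.)
* `avg_lower`: `∑_{h<H} RR (N+h) = ∑_{t,t',n} ∑_{k<Y} ∑_{h<H} [v t + v t' + g n + g k = N + h] w n = ∑_{t,t',n} w n #{k < Y : N ≤ v t + v t' + g n + g k < N + H}`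
  (`Finset.sum_comm`, `Finset.sum_ite_eq`-type: for a number `x` the sum over `h < H` of `[x = N + h]` is `1` if `N ≤ x < N + H` and `0` otherwise) `≥ ∑_{t,t',n} w n c = c (#T)² ∑ w`.
-/

set_option autoImplicit false

open Finset Real
open Pool.Agent.Lib.MP_2a816b_nt (e norm_e conj_e e_add e_neg e_int e_add_int e_sub_int norm_e_sub_one)

namespace Pool.Agent.Lib.MP_570bef_ntM

theorem dh_two (H : ℕ) (hH : 1 ≤ H) (α : ℝ) : ‖1 - DH H α‖ ≤ 2 := by
  have hH0 : (0 : ℝ) < H := by exact_mod_cast hH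
  have h1 : ‖DH H α‖ ≤ 1 := by
    unfold DH
    rw [norm_div, Complex.norm_natCast, div_le_one hH0]
    refine (norm_sum_le _ _).trans ?_
    rw [Finset.sum_congr rfl fun h _ => norm_e (-(α * (h : ℕ)))]
    simp
  have h2 := norm_sub_le (1 : ℂ) (DH H α)
  rw [norm_one] at h2
  linarith

theorem dh_small (H : ℕ) (hH : 1 ≤ H) (α : ℝ) (m : ℤ) : ‖1 - DH H α‖ ≤ 2 * π * H * |α - m| := by
  have hH0 : (0 : ℝ) < H := by exact_mod_cast hH
  have hHc : (H : ℂ) ≠ 0 := by exact_mod_cast hH0.ne'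
  have h1 : 1 - DH H α = (∑ h ∈ range H, (1 - e (-(α * (h : ℕ))))) / (H : ℂ) := by
    unfold DH
    rw [Finset.sum_sub_distrib, Finset.sum_const, Finset.card_range, nsmul_eq_mul, mul_one,
      sub_div, div_self hHc]
  have h2 : ∀ h ∈ range H, ‖1 - e (-(α * (h : ℕ)))‖ ≤ 2 * π * H * |α - m| := by
    intro h hh
    have hh1 : (h : ℝ) ≤ H := by exact_mod_cast (Finset.mem_range.1 hh).le
    have h3 : e (-(α * (h : ℕ))) = e (-((α - m) * (h : ℕ))) := by
      have h4 : -(α * ((h : ℕ) : ℝ)) = -((α - m) * ((h : ℕ) : ℝ)) - ((m * h : ℤ) : ℝ) := by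
        push_cast
        ring
      rw [h4, e_sub_int]
    rw [h3, norm_sub_rev, norm_e_sub_one]
    have h5 := Real.abs_sin_le_abs (x := π * -((α - m) * ((h : ℕ) : ℝ)))
    have h6 : |π * -((α - m) * ((h : ℕ) : ℝ))| = π * (|α - m| * h) := by
      rw [abs_mul, abs_neg, abs_mul, abs_of_pos Real.pi_pos, Nat.abs_cast]
    rw [h6] at h5
    have h7 : |α - m| * (h : ℝ) ≤ |α - m| * H := mul_le_mul_of_nonneg_left hh1 (abs_nonneg _)
    have h8 : π * (|α - m| * h) ≤ π * (|α - m| * H) :=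
      mul_le_mul_of_nonneg_left h7 Real.pi_pos.le
    linarith
  rw [h1, norm_div, Complex.norm_natCast, div_le_iff₀ hH0]
  refine (norm_sum_le _ _).trans ?_
  refine (Finset.sum_le_sum h2).trans ?_
  rw [Finset.sum_const, Finset.card_range, nsmul_eq_mul]
  exact (mul_comm _ _).le

end Pool.Agent.Lib.MP_570bef_ntM
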