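import Mathlib
import Pool.Agent.Lib.MP_570bef_ntM.Defs

/-!
# Orth: discrete orthogonality, Parseval

* `e_orth`: with `z = e (n/M)`, `e (j * n / M) = z^j` (`e_nat_mul`), `z^M = e n = 1` (`e_int`). If `M ∣ n`, `z = 1` (`n/M` is an integer), sum `= M`. Otherwise `z ≠ 1` (`e_eq_one_iff`:
  `n/M = m` would give `n = m M`), and the geometric sum is `(z^M - 1)/(z - 1) = 0` (`geom_sum_eq`).
* `parseval`: `‖FT‖² = FT * conj FT = ∑_{t,t'} e (j/M * (v t - v t'))` (`Complex.mul_conj`, `Complex.normSq_eq_norm_sq`, `conj_e`), exchange the sums, `e_orth` with `n = v t - v t'`: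
  `M ∣ v t - v t'` iff `v t = v t'` (both `< M`). The number of pairs is `JT T v` (`Finset.sum_product'`, `Finset.card_filter`).
-/

set_option autoImplicit false

open Finset Real
open Pool.Agent.Lib.MP_2a816b_nt (e norm_e conj_e e_add e_neg e_int e_nat_mul e_eq_one_iff)

namespace Pool.Agent.Lib.MP_570bef_ntM

theorem e_orth (M : ℕ) (hM : 1 ≤ M) (n : ℤ) :
    ∑ j ∈ range M, e ((j : ℝ) / M * n) = if (M : ℤ) ∣ n then (M : ℂ) else 0 := by
  have hM0 : (M : ℝ) ≠ 0 := by
    have : (0:ℝ) < M := by exact_mod_cast hM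
    exact this.ne'
  have e1 : ∀ j ∈ range M, e ((j : ℝ) / M * n) = (e ((n : ℝ) / M)) ^ j := by
    intro j _
    rw [← e_nat_mul]
    congr 1
    field_simp
  rw [Finset.sum_congr rfl e1]
  split_ifs with h
  · obtain ⟨m, hm⟩ := h
    have e2 : (n : ℝ) / M = (m : ℝ) := by
      rw [hm]
      push_cast
      field_simp
    rw [e2, e_int]
    simp
  · have h1 : e ((n : ℝ) / M) ≠ 1 := by
      intro h2
      rw [e_eq_one_iff] at h2
      obtain ⟨m, hm⟩ := h2
      apply h
      refine ⟨m, ?_⟩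
      rw [div_eq_iff hM0] at hm
      have h3 : (n : ℝ) = ((M * m : ℤ) : ℝ) := by
        push_cast
        rw [hm]
        ring
      exact_mod_cast h3
    rw [geom_sum_eq h1, ← e_nat_mul]
    have e3 : (M : ℝ) * ((n : ℝ) / M) = (n : ℝ) := by field_simp
    rw [e3, e_int, sub_self, zero_div]

theorem parseval {ι : Type} (T : Finset ι) (v : ι → ℕ) (M : ℕ) (hM : 1 ≤ M)
    (hv : ∀ t ∈ T, v t < M) :
    ∑ j ∈ range M, ‖FT T v ((j : ℝ) / M)‖ ^ 2 = M * (JT T v : ℝ) := by
  have key : ((∑ j ∈ range M, ‖FT T v ((j : ℝ) / M)‖ ^ 2 : ℝ) : ℂ) = ((M * (JT T v : ℝ) : ℝ) : ℂ) := by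
    push_cast
    have e1 : ∀ j ∈ range M, ((‖FT T v ((j : ℝ) / M)‖ : ℂ)) ^ 2 =
        ∑ t ∈ T, ∑ t' ∈ T, e ((j : ℝ) / M * (((v t : ℤ) - (v t' : ℤ) : ℤ) : ℝ)) := by
      intro j _
      have e2 : ((‖FT T v ((j : ℝ) / M)‖ : ℂ)) ^ 2 =
          FT T v ((j : ℝ) / M) * (starRingEnd ℂ) (FT T v ((j : ℝ) / M)) := by
        rw [Complex.mul_conj, Complex.normSq_eq_norm_sq]
        push_cast
        rfl
      rw [e2]
      unfold FT
      rw [map_sum, Finset.sum_mul_sum]
      refine Finset.sum_congr rfl fun t _ => Finset.sum_congr rfl fun t' _ => ?_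
      rw [conj_e, ← e_add]
      congr 1
      push_cast
      ring
    rw [Finset.sum_congr rfl e1, Finset.sum_comm]
    have e3 : ∀ t ∈ T, ∑ j ∈ range M, ∑ t' ∈ T, e ((j : ℝ) / M * (((v t : ℤ) - (v t' : ℤ) : ℤ) : ℝ)) =
        ∑ t' ∈ T, if v t = v t' then (M : ℂ) else 0 := by
      intro t ht
      rw [Finset.sum_comm]
      refine Finset.sum_congr rfl fun t' ht' => ?_
      rw [e_orth M hM]
      have h1 := hv t ht
      have h2 := hv t' ht'
      have h3 : ((M : ℤ) ∣ (v t : ℤ) - (v t' : ℤ)) ↔ v t = v t' := by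
        constructor
        · intro h
          have h4 : ((v t : ℤ) - (v t' : ℤ)) = 0 := by
            refine Int.eq_zero_of_abs_lt_dvd h ?_
            rw [abs_lt]
            constructor <;> omega
          omega
        · intro h
          rw [h, sub_self]
          exact dvd_zero _
      simp only [h3]
    rw [Finset.sum_congr rfl e3]
    unfold JT
    rw [Finset.card_filter, Finset.sum_product]
    push_cast
    rw [Finset.mul_sum]
    refine Finset.sum_congr rfl fun t _ => ?_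
    rw [Finset.mul_sum]
    refine Finset.sum_congr rfl fun t' _ => ?_
    by_cases h : v t = v t'
    · rw [if_pos h, if_pos h, mul_one]
    · rw [if_neg h, if_neg h, mul_zero]
  exact_mod_cast key

end Pool.Agent.Lib.MP_570bef_ntM
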