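import Mathlib
import Pool.Agent.Lib.MP_570bef_ntM.Orth

/-!
# RF: Fourier formula for the representation number

`FT² * FW * FY * e (-(α N'))` with `α = j/M` is `∑_{t,t',n,k} w n e (j/M * (v t + v t' + g n + g k - N'))` (`Finset.sum_mul_sum`, `Finset.mul_sum`, `e_add`). Sum over `j < M`, exchange sums and use
`e_orth` with `n = v t + v t' + g n + g k - N' : ℤ`: as `0 ≤ v t + v t' + g n + g k < M` and `0 ≤ N' < M`, `M` divides the difference iff `v t + v t' + g n + g k = N'`.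
-/

set_option autoImplicit false

open Finset Real
open Pool.Agent.Lib.MP_2a816b_nt (e norm_e conj_e e_add e_neg)

namespace Pool.Agent.Lib.MP_570bef_ntM

private theorem RF_prod {ι : Type} (T : Finset ι) (W : Finset ℕ) (Y : ℕ) (f : ι → ℂ) (g h : ℕ → ℂ)
    (c : ℂ) : (∑ t ∈ T, f t) ^ 2 * (∑ n ∈ W, g n) * (∑ k ∈ range Y, h k) * c =
      ∑ t ∈ T, ∑ t' ∈ T, ∑ n ∈ W, ∑ k ∈ range Y, f t * f t' * g n * h k * c := by
  simp only [← Finset.sum_mul, ← Finset.mul_sum]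
  rw [pow_two]

private theorem RF_term (M N' a b c d : ℕ) (hM : 1 ≤ M) (w : ℝ) (hS : a + b + c + d < M)
    (hN : N' < M) :
    (M : ℂ) * ((if a + b + c + d = N' then w else 0 : ℝ) : ℂ) =
      ∑ j ∈ range M, e ((j : ℝ) / M * (a : ℕ)) * e ((j : ℝ) / M * (b : ℕ)) *
        (((w : ℝ) : ℂ) * e ((j : ℝ) / M * (c : ℕ))) * e ((j : ℝ) / M * (d : ℕ)) *
        e (-((j : ℝ) / M * (N' : ℕ))) := by
  have h1 : ∀ j ∈ range M, e ((j : ℝ) / M * (a : ℕ)) * e ((j : ℝ) / M * (b : ℕ)) *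
        (((w : ℝ) : ℂ) * e ((j : ℝ) / M * (c : ℕ))) * e ((j : ℝ) / M * (d : ℕ)) *
        e (-((j : ℝ) / M * (N' : ℕ))) =
      ((w : ℝ) : ℂ) * e ((j : ℝ) / M * (((a + b + c + d : ℕ) : ℤ) - (N' : ℤ) : ℤ)) := by
    intro j _
    have h2 : (j : ℝ) / M * ((((a + b + c + d : ℕ) : ℤ) - (N' : ℤ) : ℤ) : ℝ) =
        (j : ℝ) / M * (a : ℕ) + (j : ℝ) / M * (b : ℕ) + (j : ℝ) / M * (c : ℕ) +
          (j : ℝ) / M * (d : ℕ) + -((j : ℝ) / M * (N' : ℕ)) := by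
      push_cast
      ring
    rw [h2, e_add, e_add, e_add, e_add]
    ring
  rw [Finset.sum_congr rfl h1, ← Finset.mul_sum, e_orth M hM]
  by_cases h3 : a + b + c + d = N'
  · rw [if_pos h3, if_pos, mul_comm]
    rw [h3, sub_self]
    exact dvd_zero _
  · rw [if_neg h3, if_neg]
    · rw [Complex.ofReal_zero, mul_zero, mul_zero]
    · rintro ⟨q, hq⟩
      rcases lt_trichotomy q 0 with h4 | h4 | h4
      · have h5 : (M : ℤ) * q ≤ (M : ℤ) * (-1) :=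
          mul_le_mul_of_nonneg_left (by omega) (by omega)
        omega
      · rw [h4, mul_zero] at hq
        omega
      · have h5 : (M : ℤ) * 1 ≤ (M : ℤ) * q :=
          mul_le_mul_of_nonneg_left (by omega) (by omega)
        omega

theorem rr_fourier {ι : Type} (T : Finset ι) (v : ι → ℕ) (W : Finset ℕ) (w : ℕ → ℝ) (g : ℕ → ℕ)
    (Y M N' : ℕ) (hM : 1 ≤ M)
    (hS : ∀ t ∈ T, ∀ t' ∈ T, ∀ n ∈ W, ∀ k ∈ range Y, v t + v t' + g n + g k < M) (hN : N' < M) :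
    (M : ℂ) * ((RR T v W w g Y N' : ℝ) : ℂ) =
      ∑ j ∈ range M, FT T v ((j : ℝ) / M) ^ 2 * FW W w g ((j : ℝ) / M) * FY g Y ((j : ℝ) / M) *
        e (-((j : ℝ) / M * (N' : ℕ))) := by
  have h1 : ∀ j ∈ range M, FT T v ((j : ℝ) / M) ^ 2 * FW W w g ((j : ℝ) / M) *
      FY g Y ((j : ℝ) / M) * e (-((j : ℝ) / M * (N' : ℕ))) =
      ∑ t ∈ T, ∑ t' ∈ T, ∑ n ∈ W, ∑ k ∈ range Y,
        e ((j : ℝ) / M * (v t : ℕ)) * e ((j : ℝ) / M * (v t' : ℕ)) *
        (((w n : ℝ) : ℂ) * e ((j : ℝ) / M * (g n : ℕ))) * e ((j : ℝ) / M * (g k : ℕ)) *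
        e (-((j : ℝ) / M * (N' : ℕ))) := by
    intro j _
    unfold FT FW FY
    exact RF_prod T W Y _ _ _ _
  rw [Finset.sum_congr rfl h1, RR, Complex.ofReal_sum, Finset.mul_sum, Finset.sum_comm]
  refine Finset.sum_congr rfl fun t ht => ?_
  rw [Complex.ofReal_sum, Finset.mul_sum, Finset.sum_comm]
  refine Finset.sum_congr rfl fun t' ht' => ?_
  rw [Complex.ofReal_sum, Finset.mul_sum, Finset.sum_comm]
  refine Finset.sum_congr rfl fun n hn => ?_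
  rw [Complex.ofReal_sum, Finset.mul_sum, Finset.sum_comm]
  refine Finset.sum_congr rfl fun k hk => ?_
  exact RF_term M N' (v t) (v t') (g n) (g k) hM (w n) (hS t ht t' ht' n hn k hk) hN

end Pool.Agent.Lib.MP_570bef_ntM
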