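import Mathlib
import Pool.Agent.Lib.MP_570bef_ntM.RF
import Pool.Agent.Lib.MP_570bef_ntM.CirA

/-!
# CircI: comparison of `R(N)` with its average

* `dh_two`: `‖DH‖ ≤ 1` (norm of a sum of `H` terms of norm 1, divided by `H`), so `‖1 - DH‖ ≤ 2`.
* `dh_small`: `1 - DH H α = (∑_{h<H} (1 - e (-(αh))))/H`, `e (-(αh)) = e (-((α-m)h))` for an integer `m` (`e_add_int`, `m h` is an integer), and
  `‖1 - e (-(xh))‖ = ‖e (-(xh)) - 1‖ = 2|sin (π x h)| ≤ 2π|x|h ≤ 2π H |x|` (`norm_e_sub_one`, `Real.abs_sin_le`/`abs_sin_le_abs`... `|sin y| ≤ |y|`).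
* `circle_ineq`: by `rr_fourier` for `N' = N + h` (`h < H`, `N + h < M`) and for `N' = N` (`H ≥ 1`): with `α_j = j/M`
  `M (R(N) - (∑_{h<H} R(N+h))/H) = ∑_j FT² FW FY e (-(α_j N)) (1 - DH H α_j)` as `e (-(α (N+h))) = e (-(αN)) e (-(αh))`. Norms: `≤ ∑_j ‖FT‖² B = B M JT` (`parseval`). Divide by `M > 0`.
  (`v t < M` for `t ∈ T`: hypothesis `hv`.)
* `avg_lower`: `∑_{h<H} RR (N+h) = ∑_{t,t',n} ∑_{k<Y} ∑_{h<H} [v t + v t' + g n + g k = N + h] w n = ∑_{t,t',n} w n #{k < Y : N ≤ v t + v t' + g n + g k < N + H}`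
  (`Finset.sum_comm`, `Finset.sum_ite_eq`-type: for a number `x` the sum over `h < H` of `[x = N + h]` is `1` if `N ≤ x < N + H` and `0` otherwise) `≥ ∑_{t,t',n} w n c = c (#T)² ∑ w`.
-/

set_option autoImplicit false

open Finset Real
open Pool.Agent.Lib.MP_2a816b_nt (e norm_e conj_e e_add e_neg e_int e_add_int e_sub_int norm_e_sub_one)

namespace Pool.Agent.Lib.MP_570bef_ntM

theorem circle_ineq {ι : Type} (T : Finset ι) (v : ι → ℕ) (W : Finset ℕ) (w : ℕ → ℝ) (g : ℕ → ℕ)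
    (Y M N H : ℕ) (hM : 1 ≤ M) (hH : 1 ≤ H) (hNH : N + H ≤ M)
    (hS : ∀ t ∈ T, ∀ t' ∈ T, ∀ n ∈ W, ∀ k ∈ range Y, v t + v t' + g n + g k < M)
    (hv : ∀ t ∈ T, v t < M) (B : ℝ)
    (hB : ∀ j ∈ range M, ‖FW W w g ((j : ℝ) / M)‖ * ‖FY g Y ((j : ℝ) / M)‖ *
      ‖1 - DH H ((j : ℝ) / M)‖ ≤ B) :
    |RR T v W w g Y N - (∑ h ∈ range H, RR T v W w g Y (N + h)) / H| ≤ B * (JT T v : ℝ) := by
  have hM0 : (0 : ℝ) < M := by exact_mod_cast hM
  have hH0 : (0 : ℝ) < H := by exact_mod_cast hH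
  have hHc : (H : ℂ) ≠ 0 := by
    have : (H : ℝ) ≠ 0 := hH0.ne'
    exact_mod_cast this
  have key : (M : ℂ) * ((RR T v W w g Y N - (∑ h ∈ range H, RR T v W w g Y (N + h)) / H : ℝ) : ℂ) =
      ∑ j ∈ range M, FT T v ((j : ℝ) / M) ^ 2 * FW W w g ((j : ℝ) / M) * FY g Y ((j : ℝ) / M) *
        e (-((j : ℝ) / M * (N : ℕ))) * (1 - DH H ((j : ℝ) / M)) := by
    have h1 := rr_fourier T v W w g Y M N hM hS (by omega)
    have h2 : ∀ h ∈ range H, (M : ℂ) * ((RR T v W w g Y (N + h) : ℝ) : ℂ) =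
        ∑ j ∈ range M, FT T v ((j : ℝ) / M) ^ 2 * FW W w g ((j : ℝ) / M) * FY g Y ((j : ℝ) / M) *
          e (-((j : ℝ) / M * (N : ℕ))) * e (-((j : ℝ) / M * (h : ℕ))) := by
      intro h hh
      have h3 := rr_fourier T v W w g Y M (N + h) hM hS (by have := mem_range.1 hh; omega)
      rw [h3]
      refine sum_congr rfl fun j _ => ?_
      have h4 : -((j : ℝ) / M * ((N + h : ℕ) : ℝ)) = -((j : ℝ) / M * (N : ℕ)) + -((j : ℝ) / M * (h : ℕ)) := by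
        push_cast
        ring
      rw [h4, e_add]
      ring
    have h5 : (M : ℂ) * ((RR T v W w g Y N - (∑ h ∈ range H, RR T v W w g Y (N + h)) / H : ℝ) : ℂ) =
        (M : ℂ) * ((RR T v W w g Y N : ℝ) : ℂ) -
          (∑ h ∈ range H, (M : ℂ) * ((RR T v W w g Y (N + h) : ℝ) : ℂ)) / H := by
      rw [← mul_sum]
      push_cast
      ring
    rw [h5, h1, sum_congr rfl h2, sum_comm, sum_div, ← sum_sub_distrib]
    refine sum_congr rfl fun j _ => ?_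
    rw [← mul_sum]
    unfold DH
    ring
  have hnorm : (M : ℝ) * |RR T v W w g Y N - (∑ h ∈ range H, RR T v W w g Y (N + h)) / H| ≤
      ∑ j ∈ range M, ‖FT T v ((j : ℝ) / M)‖ ^ 2 * B := by
    have h1 : (M : ℝ) * |RR T v W w g Y N - (∑ h ∈ range H, RR T v W w g Y (N + h)) / H| =
        ‖(M : ℂ) * ((RR T v W w g Y N - (∑ h ∈ range H, RR T v W w g Y (N + h)) / H : ℝ) : ℂ)‖ := by
      rw [norm_mul, Complex.norm_natCast, Complex.norm_real, Real.norm_eq_abs]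
    rw [h1, key]
    refine (norm_sum_le _ _).trans (sum_le_sum fun j hj => ?_)
    rw [norm_mul, norm_mul, norm_mul, norm_mul, norm_pow, norm_e, mul_one]
    have h2 := mul_le_mul_of_nonneg_left (hB j hj) (sq_nonneg ‖FT T v ((j : ℝ) / M)‖)
    calc ‖FT T v ((j : ℝ) / M)‖ ^ 2 * ‖FW W w g ((j : ℝ) / M)‖ * ‖FY g Y ((j : ℝ) / M)‖ *
          ‖1 - DH H ((j : ℝ) / M)‖ = ‖FT T v ((j : ℝ) / M)‖ ^ 2 * (‖FW W w g ((j : ℝ) / M)‖ *
            ‖FY g Y ((j : ℝ) / M)‖ * ‖1 - DH H ((j : ℝ) / M)‖) := by ring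
      _ ≤ _ := h2
  rw [← sum_mul, parseval T v M hM hv] at hnorm
  have h6 : (M : ℝ) * |RR T v W w g Y N - (∑ h ∈ range H, RR T v W w g Y (N + h)) / H| ≤
      M * (B * (JT T v : ℝ)) := by
    calc _ ≤ _ := hnorm
      _ = _ := by ring
  exact le_of_mul_le_mul_left h6 hM0

end Pool.Agent.Lib.MP_570bef_ntM
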