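import Mathlib
import Pool.Agent.Lib.MP_570bef_ntM.Defs

/-!
# CircI: comparison of `R(N)` with its average

* `dh_two`: `‖DH‖ ≤ 1` (norm of a sum of `H` terms of norm 1, divided by `H`), so `‖1 - DH‖ ≤ 2`.
* `dh_small`: `1 - DH H α = (∑_{h<H} (1 - e (-(αh))))/H`, `e (-(αh)) = e (-((α-m)h))` for an integer `m` (`e_add_int`, `m h` is an integer), and
  `‖1 - e (-(xh))‖ = ‖e (-(xh)) - 1‖ = 2|sin (π x h)| ≤ 2π|x|h ≤ 2π H |x|` (`norm_e_sub_one`, `Real.abs_sin_le`/`abs_sin_le_abs`... `|sin y| ≤ |y|`).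
* `circle_ineq`: by `rr_fourier` for `N' = N + h` (`h < H`, `N + h < M`) and for `N' = N` (`H ≥ 1`): with `α_j = j/M`
  `M (R(N) - (∑_{h<H} R(N+h))/H) = ∑_j FT² FW FY e (-(α_j N)) (1 - DH H α_j)` as `e (-(α (N+h))) = e (-(αN)) e (-(αh))`. Norms: `≤ ∑_j ‖FT‖² B = B M JT` (`parseval`). Divide by `M > 0`.
  (`v t < M` for `t ∈ T`: hypothesis `hv`.)
* `avg_lower`: `∑_{h<H} RR (N+h) = ∑_{t,t',n} ∑_{k<Y} ∑_{h<H} [v t + v t' + g n + g k = N + h] w n = ∑_{t,t',n} w n #{k < Y : N ≤ v t + v t' + g n + g k < N + H}`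
  (`Finset.sum_comm`, `Finset.sum_ite_eq`-type: for a number `x` the sum over `h < H` of `[x = N + h]` is `1` if `N ≤ x < N + H` and `0` otherwise) `≥ ∑_{t,t',n} w n c = c (#T)² ∑ w`.
-/

set_option autoImplicit false

open Finset Real
open Pool.Agent.Lib.MP_2a816b_nt (e norm_e conj_e e_add e_neg e_int e_add_int e_sub_int norm_e_sub_one)

namespace Pool.Agent.Lib.MP_570bef_ntM

theorem avg_lower {ι : Type} (T : Finset ι) (v : ι → ℕ) (W : Finset ℕ) (w : ℕ → ℝ) (g : ℕ → ℕ)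
    (Y N H : ℕ) (hw : ∀ n, 0 ≤ w n) (c : ℝ)
    (hc : ∀ t ∈ T, ∀ t' ∈ T, ∀ n ∈ W,
      c ≤ (#{k ∈ range Y | N ≤ v t + v t' + g n + g k ∧ v t + v t' + g n + g k < N + H} : ℝ)) :
    c * (#T : ℝ) ^ 2 * ∑ n ∈ W, w n ≤ ∑ h ∈ range H, RR T v W w g Y (N + h) := by
  have key : ∀ (x : ℕ) (y : ℝ), ∑ h ∈ range H, (if x = N + h then y else 0) =
      y * (if N ≤ x ∧ x < N + H then 1 else 0) := by
    intro x y
    by_cases hx : N ≤ x ∧ x < N + H
    · rw [if_pos hx, mul_one, Finset.sum_eq_single (x - N)]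
      · rw [if_pos (by omega)]
      · intro h _ hne
        rw [if_neg (by omega)]
      · intro h
        rw [Finset.mem_range] at h
        omega
    · rw [if_neg hx, mul_zero]
      refine Finset.sum_eq_zero fun h hh => ?_
      rw [Finset.mem_range] at hh
      rw [if_neg]
      rintro rfl
      exact hx ⟨by omega, by omega⟩
  have h1 : ∑ h ∈ range H, RR T v W w g Y (N + h) = ∑ t ∈ T, ∑ t' ∈ T, ∑ n ∈ W,
      w n * (#{k ∈ range Y | N ≤ v t + v t' + g n + g k ∧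
        v t + v t' + g n + g k < N + H} : ℝ) := by
    unfold RR
    rw [Finset.sum_comm]
    refine Finset.sum_congr rfl fun t _ => ?_
    rw [Finset.sum_comm]
    refine Finset.sum_congr rfl fun t' _ => ?_
    rw [Finset.sum_comm]
    refine Finset.sum_congr rfl fun n _ => ?_
    rw [Finset.sum_comm, Finset.card_filter, Nat.cast_sum, Finset.mul_sum]
    refine Finset.sum_congr rfl fun k _ => ?_
    rw [key]
    split_ifs <;> simp
  have h2 : c * (#T : ℝ) ^ 2 * ∑ n ∈ W, w n = ∑ _ ∈ T, ∑ _ ∈ T, ∑ n ∈ W, w n * c := by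
    rw [Finset.sum_const, Finset.sum_const, nsmul_eq_mul, nsmul_eq_mul, ← Finset.sum_mul]
    ring
  rw [h1, h2]
  refine Finset.sum_le_sum fun t ht => Finset.sum_le_sum fun t' ht' =>
    Finset.sum_le_sum fun n hn => ?_
  exact mul_le_mul_of_nonneg_left (hc t ht t' ht' n hn) (hw n)

theorem rr_pos {ι : Type} (T : Finset ι) (v : ι → ℕ) (W : Finset ℕ) (w : ℕ → ℝ) (g : ℕ → ℕ)
    (Y N : ℕ) (h : 0 < RR T v W w g Y N) :
    ∃ t ∈ T, ∃ t' ∈ T, ∃ n k : ℕ, v t + v t' + g n + g k = N := by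
  unfold RR at h
  obtain ⟨t, ht, h1⟩ := Finset.exists_ne_zero_of_sum_ne_zero h.ne'
  obtain ⟨t', ht', h2⟩ := Finset.exists_ne_zero_of_sum_ne_zero h1
  obtain ⟨n, _, h3⟩ := Finset.exists_ne_zero_of_sum_ne_zero h2
  obtain ⟨k, _, h4⟩ := Finset.exists_ne_zero_of_sum_ne_zero h3
  refine ⟨t, ht, t', ht', n, k, ?_⟩
  by_contra h5
  exact h4 (if_neg h5)

end Pool.Agent.Lib.MP_570bef_ntM
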