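import Mathlib
import Pool.Agent.Lib.MP_570bef_ntM.Defs

/-!
# Cnt: numbers `⌊k^θ⌋` in a short interval

`rpow_diff`: for `0 < A ≤ B` real and `1 < θ`: `B^(1/θ) - A^(1/θ) ≥ (B - A)/θ * B^(1/θ-1)`: mean value theorem (`exists_deriv_eq_slope` / `exists_hasDerivAt_eq_slope` with
`Real.hasDerivAt_rpow_const`): `= (B-A)/θ * ξ^(1/θ-1)` with `A < ξ < B` and `1/θ - 1 < 0` (`Real.rpow_le_rpow_of_nonpos`); trivial if `A = B`.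

`cnt_lower`: for `k : ℕ`, `A ≤ fl θ k ↔ A ≤ k^θ` (`Nat.le_floor_iff`) `⇐ A^(1/θ) ≤ k`, and `fl θ k < A + H ↔ k^θ < A + H` (`Nat.floor_lt`) `⇐ k < (A+H)^(1/θ)`
(`(x^(1/θ))^θ = x`, monotonicity). All naturals `k` with `⌈A^(1/θ)⌉₊ ≤ k < ⌈(A+H)^(1/θ)⌉₊` qualify and are `< ⌈(A+H)^(1/θ)⌉₊ ≤ Y` (`(A+H)^(1/θ) ≤ (2N)^(1/θ) ≤ Y`, `Nat.ceil_le`). So
`Finset.Ico ⌈A^(1/θ)⌉₊ ⌈(A+H)^(1/θ)⌉₊` is contained in the set, and its cardinality is (real) `≥ (A+H)^(1/θ) - A^(1/θ) - 1` (`Nat.le_ceil`, `Nat.ceil_lt_add_one`;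
natural subtraction: `(m - n : ℕ) ≥ m - n` in `ℝ`). By `rpow_diff` with `B = A + H ≤ 2N` and `B^(1/θ-1) ≥ (2N)^(1/θ-1)` (negative exponent) the claim follows.
-/

set_option autoImplicit false

open Finset Real

namespace Pool.Agent.Lib.MP_570bef_ntM

theorem rpow_diff (θ A B : ℝ) (hθ : 1 < θ) (hA : 0 < A) (hAB : A ≤ B) :
    (B - A) / θ * B ^ (1 / θ - 1) ≤ B ^ (1 / θ) - A ^ (1 / θ) := by
  have hθ0 : 0 < θ := by linarith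
  have hp : 1 / θ - 1 ≤ 0 := by
    rw [sub_nonpos, div_le_one hθ0]
    exact hθ.le
  rcases hAB.lt_or_eq with h | h
  · obtain ⟨y, ⟨hy1, hy2⟩, hy3⟩ := exists_hasDerivAt_eq_slope (fun x : ℝ => x ^ (1 / θ))
      (fun x => 1 / θ * x ^ (1 / θ - 1)) h
      (fun x hx => (Real.hasDerivAt_rpow_const
        (Or.inl (lt_of_lt_of_le hA hx.1).ne')).continuousAt.continuousWithinAt)
      (fun x hx => Real.hasDerivAt_rpow_const (Or.inl (lt_trans hA hx.1).ne'))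
    have hBA : 0 < B - A := sub_pos.2 h
    have h1 : B ^ (1 / θ) - A ^ (1 / θ) = 1 / θ * y ^ (1 / θ - 1) * (B - A) := by
      rw [hy3, div_mul_cancel₀ _ hBA.ne']
    have h2 : B ^ (1 / θ - 1) ≤ y ^ (1 / θ - 1) :=
      Real.rpow_le_rpow_of_nonpos (lt_trans hA hy1) hy2.le hp
    rw [h1]
    have h3 : 0 ≤ (B - A) / θ := by positivity
    refine (mul_le_mul_of_nonneg_left h2 h3).trans (le_of_eq ?_)
    ring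
  · rw [h, sub_self, sub_self, zero_div, zero_mul]

theorem cnt_lower (θ : ℝ) (hθ : 1 < θ) (A H Y N : ℕ) (hA : 1 ≤ A) (hAH : A + H ≤ 2 * N)
    (hY : (2 * (N : ℝ)) ^ (1 / θ) ≤ Y) :
    (H : ℝ) / θ * (2 * (N : ℝ)) ^ (1 / θ - 1) - 1 ≤
      (#{k ∈ range Y | A ≤ fl θ k ∧ fl θ k < A + H} : ℝ) := by
  have hθ0 : 0 < θ := by linarith
  have hp0 : 0 ≤ 1 / θ := by positivity
  have hp : 1 / θ - 1 ≤ 0 := by
    rw [sub_nonpos, div_le_one hθ0]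
    exact hθ.le
  have hpθ : ∀ x : ℝ, 0 ≤ x → (x ^ (1 / θ)) ^ θ = x := by
    intro x hx
    rw [← Real.rpow_mul hx, one_div, inv_mul_cancel₀ hθ0.ne', Real.rpow_one]
  have hAr : (0 : ℝ) < A := by exact_mod_cast hA
  have hHr : (0 : ℝ) ≤ H := Nat.cast_nonneg H
  have hAHr : (A : ℝ) + H ≤ 2 * N := by exact_mod_cast hAH
  have hAH0 : (0 : ℝ) < (A : ℝ) + H := by linarith
  have hsub : Ico ⌈(A : ℝ) ^ (1 / θ)⌉₊ ⌈((A : ℝ) + H) ^ (1 / θ)⌉₊ ⊆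
      {k ∈ range Y | A ≤ fl θ k ∧ fl θ k < A + H} := by
    intro k hk
    obtain ⟨hk1, hk2⟩ := mem_Ico.1 hk
    have h1 : (A : ℝ) ^ (1 / θ) ≤ k := Nat.ceil_le.1 hk1
    have h2 : (k : ℝ) < ((A : ℝ) + H) ^ (1 / θ) := Nat.lt_ceil.1 hk2
    have h3 : ((A : ℝ) + H) ^ (1 / θ) ≤ (2 * (N : ℝ)) ^ (1 / θ) :=
      Real.rpow_le_rpow hAH0.le hAHr hp0
    have hk0 : (0 : ℝ) ≤ k := Nat.cast_nonneg k
    refine mem_filter.2 ⟨mem_range.2 ?_, ?_, ?_⟩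
    · have h4 : (k : ℝ) < Y := lt_of_lt_of_le h2 (h3.trans hY)
      exact_mod_cast h4
    · refine Nat.le_floor ?_
      have h5 := Real.rpow_le_rpow (by positivity) h1 hθ0.le
      rwa [hpθ _ hAr.le] at h5
    · refine (Nat.floor_lt (by positivity)).2 ?_
      have h5 := Real.rpow_lt_rpow hk0 h2 hθ0
      rw [hpθ _ hAH0.le] at h5
      rw [Nat.cast_add]
      exact h5
  have hcard := card_le_card hsub
  rw [Nat.card_Ico] at hcard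
  have h6 : (⌈((A : ℝ) + H) ^ (1 / θ)⌉₊ : ℝ) - (⌈(A : ℝ) ^ (1 / θ)⌉₊ : ℝ) ≤
      ((⌈((A : ℝ) + H) ^ (1 / θ)⌉₊ - ⌈(A : ℝ) ^ (1 / θ)⌉₊ : ℕ) : ℝ) := by
    rw [sub_le_iff_le_add]
    have h5 : ⌈((A : ℝ) + H) ^ (1 / θ)⌉₊ ≤
        (⌈((A : ℝ) + H) ^ (1 / θ)⌉₊ - ⌈(A : ℝ) ^ (1 / θ)⌉₊) + ⌈(A : ℝ) ^ (1 / θ)⌉₊ :=
      le_tsub_add
    exact_mod_cast h5
  have h7 : ((⌈((A : ℝ) + H) ^ (1 / θ)⌉₊ - ⌈(A : ℝ) ^ (1 / θ)⌉₊ : ℕ) : ℝ) ≤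
      (#{k ∈ range Y | A ≤ fl θ k ∧ fl θ k < A + H} : ℝ) := by exact_mod_cast hcard
  have h8 : ((A : ℝ) + H) ^ (1 / θ) ≤ (⌈((A : ℝ) + H) ^ (1 / θ)⌉₊ : ℝ) := Nat.le_ceil _
  have h9 : (⌈(A : ℝ) ^ (1 / θ)⌉₊ : ℝ) < (A : ℝ) ^ (1 / θ) + 1 := Nat.ceil_lt_add_one (by positivity)
  have h10 := rpow_diff θ A ((A : ℝ) + H) hθ hAr (by linarith)
  have h11 : (A : ℝ) + H - A = H := by ring
  rw [h11] at h10
  have h12 : (2 * (N : ℝ)) ^ (1 / θ - 1) ≤ ((A : ℝ) + H) ^ (1 / θ - 1) :=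
    Real.rpow_le_rpow_of_nonpos hAH0 hAHr hp
  have h13 := mul_le_mul_of_nonneg_left h12 (show (0 : ℝ) ≤ (H : ℝ) / θ by positivity)
  linarith

end Pool.Agent.Lib.MP_570bef_ntM
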