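import Mathlib
import Pool.Agent.Lib.MP_570bef_ntM.Defs

/-!
# ParA: lower bound for the averaged number of representations

Let `C3 = 2 (2C + 2^θ) ≥ 8`, `P ≥ P0`, `C3 P^θ ≤ N ≤ C3 (2P)^θ`, `H = HH θ P = ⌈P^(θ-3/4)⌉₊`, `Y = YY θ N = ⌈(2N)^(1/θ)⌉₊`, `v t ≤ C P^θ`.

* For `t, t' ∈ T`, `n ∈ Ico P (2P)`: `S := v t + v t' + fl θ n ≤ 2C P^θ + (2P)^θ = (2C + 2^θ) P^θ ≤ N/2` (`Nat.floor_le`, `Real.mul_rpow`). Let `A = N - S ≥ N/2 ≥ 1`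
  (natural number, `S ≤ N`; `N ≥ C3 P^θ ≥ 8`). `N ≤ S + fl θ k ∧ S + fl θ k < N + H` iff `A ≤ fl θ k ∧ fl θ k < A + H`. `H ≤ P^(θ-3/4) + 1 ≤ 2 P^θ ≤ N`, so `A + H ≤ 2N`.
  `cnt_lower`: the number of such `k < Y` is `≥ (H/θ) (2N)^(1/θ-1) - 1`.
* `(2N)^(1/θ-1) ≥ (2 C3 (2P)^θ)^(1/θ-1) = (2 C3 2^θ)^(1/θ-1) P^(1-θ) =: c' P^(1-θ)` (exponent negative: `Real.rpow_le_rpow_of_nonpos`; `(P^θ)^(1/θ-1) = P^(1-θ)`).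
  As `H ≥ P^(θ-3/4)`: `(H/θ) c' P^(1-θ) ≥ (c'/θ) P^(1/4) ≥ 2` for `P ≥ P0`; so the number is `≥ (c'/(2θ)) H P^(1-θ)`.
* `avg_lower` with `c = (c'/(2θ)) H P^(1-θ)` and `wt_sum` (`∑ wt ≥ P/4`): `∑_{h<H} RR (N+h) ≥ (c'/(2θ)) H P^(1-θ) (#T)² P/4`. Divide by `H ≥ 1`: `c = c'/(8θ)`, `P^(1-θ) P = P^(2-θ)`.
-/

set_option autoImplicit false

open Finset Real

namespace Pool.Agent.Lib.MP_570bef_ntM

/-- length of the averaging interval -/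
noncomputable def HH (θ : ℝ) (P : ℕ) : ℕ := ⌈(P : ℝ) ^ (θ - 3 / 4)⌉₊

/-- range of the last variable -/
noncomputable def YY (θ : ℝ) (N : ℕ) : ℕ := ⌈(2 * (N : ℝ)) ^ (1 / θ)⌉₊

theorem hh_bounds (θ : ℝ) (h1 : 1 < θ) (P : ℕ) (hP : 1 ≤ P) :
    1 ≤ HH θ P ∧ (P : ℝ) ^ (θ - 3 / 4) ≤ HH θ P ∧ (HH θ P : ℝ) ≤ 2 * (P : ℝ) ^ (θ - 3 / 4) := by
  have hP1 : (1 : ℝ) ≤ P := by exact_mod_cast hP
  have h2 : (1 : ℝ) ≤ (P : ℝ) ^ (θ - 3 / 4) := Real.one_le_rpow hP1 (by linarith)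
  unfold HH
  have h3 := Nat.le_ceil ((P : ℝ) ^ (θ - 3 / 4))
  have h4 := Nat.ceil_lt_add_one (a := (P : ℝ) ^ (θ - 3 / 4)) (by linarith)
  refine ⟨?_, h3, by linarith⟩
  exact Nat.ceil_pos.2 (by linarith)

theorem two_n_pow (θ C3 : ℝ) (h1 : 1 < θ) (hC : 0 < C3) (P N : ℕ) (hP : 1 ≤ P) (hN0 : 1 ≤ N)
    (hN : (N : ℝ) ≤ C3 * (2 * (P : ℝ)) ^ θ) :
    (2 * C3 * 2 ^ θ) ^ (1 / θ - 1) * (P : ℝ) ^ (1 - θ) ≤ (2 * (N : ℝ)) ^ (1 / θ - 1) := by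
  have hP1 : (1 : ℝ) ≤ P := by exact_mod_cast hP
  have hP0 : (0 : ℝ) < P := by linarith
  have hN1 : (1 : ℝ) ≤ N := by exact_mod_cast hN0
  have hθ0 : 0 < θ := by linarith
  have h2θ : (0 : ℝ) < 2 ^ θ := Real.rpow_pos_of_pos (by norm_num) θ
  have hPθ : (0 : ℝ) < (P : ℝ) ^ θ := Real.rpow_pos_of_pos hP0 θ
  have hexp : 1 / θ - 1 ≤ 0 := by
    have : 1 / θ ≤ 1 := by
      rw [div_le_one hθ0]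
      linarith
    linarith
  have hle : 2 * (N : ℝ) ≤ 2 * C3 * 2 ^ θ * (P : ℝ) ^ θ := by
    rw [Real.mul_rpow (by norm_num) hP0.le] at hN
    nlinarith
  have h3 := Real.rpow_le_rpow_of_nonpos (by linarith : 0 < 2 * (N : ℝ)) hle hexp
  refine le_trans (le_of_eq ?_) h3
  rw [Real.mul_rpow (by positivity) hPθ.le, ← Real.rpow_mul hP0.le]
  congr 2
  field_simp

end Pool.Agent.Lib.MP_570bef_ntM
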