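import Mathlib
import Pool.Agent.Lib.MP_570bef_ntM.Defs

/-!
# CwB: `|cw β| ≤ 27/(1+|β|)^3`

`|β| ≤ 2`: the integrand has norm `≤ 1` (`sin² ≤ 1`, `norm_e`), so `‖cw β‖ ≤ 1` (`intervalIntegral.norm_integral_le_of_norm_le_const`), and `1 ≤ 27/(1+|β|)^3` as `1 + |β| ≤ 3`.

`cw_explicit`, for `β ≠ 0, 1, -1`: `sin² (π x) = 1/2 - (e x + e (-x))/4` (`e (±x) = cos (2πx) ± i sin (2πx)`, `Real.sin_sq`, `Real.cos_sq`), so the integrand is
`e (-(βx))/2 - e (-((β-1)x))/4 - e (-((β+1)x))/4` (`e_add`), and for `γ ≠ 0` `∫_0^1 e (-(γx)) dx = (1 - e (-γ))/(2πiγ)` (`integral_exp_mul_complex` with `c = -2πiγ ≠ 0`, or FTC).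
As `e (-(β-1)) = e (-(β+1)) = e (-β)` (`e_add_int`, `e_sub_int`),
`cw β = (1 - e (-β))/(2πi) * (1/(2β) - 1/(4(β-1)) - 1/(4(β+1))) = -(1 - e (-β))/(4πi β(β²-1))` (check: `1/(2β) - β/(2(β²-1)) = -1/(2β(β²-1))`).

`|β| > 2`: `‖1 - e (-β)‖ ≤ 2`, `|β² - 1| ≥ (3/4) β²`, so `‖cw β‖ ≤ 2/(4π (3/4) |β|³) ≤ 1/|β|³ ≤ 27/(1+|β|)³` (`π ≥ 3`; `1 + |β| ≤ 3|β|`).
-/

set_option autoImplicit false

open Finset Real
open Pool.Agent.Lib.MP_2a816b_nt (e norm_e conj_e e_add e_neg e_add_int e_sub_int)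

namespace Pool.Agent.Lib.MP_570bef_ntM

theorem integral_e (γ : ℝ) (hγ : γ ≠ 0) :
    ∫ x in (0 : ℝ)..1, e (-(γ * x)) = (1 - e (-γ)) / (2 * π * Complex.I * γ) := by
  have hc : (-(2 * π * Complex.I * γ) : ℂ) ≠ 0 := by
    have h1 : (π : ℂ) ≠ 0 := Complex.ofReal_ne_zero.2 Real.pi_ne_zero
    have h2 : (γ : ℂ) ≠ 0 := Complex.ofReal_ne_zero.2 hγ
    have h3 := Complex.I_ne_zero
    simp only [ne_eq, neg_eq_zero, mul_eq_zero, not_or]
    exact ⟨⟨⟨two_ne_zero, h1⟩, h3⟩, h2⟩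
  have h := integral_exp_mul_complex (a := 0) (b := 1) hc
  have e1 : ∀ x : ℝ, e (-(γ * x)) = Complex.exp (-(2 * π * Complex.I * γ) * x) := by
    intro x
    unfold e
    congr 1
    push_cast
    ring
  have e2 : e (-γ) = Complex.exp (-(2 * π * Complex.I * γ)) := by
    unfold e
    congr 1
    push_cast
    ring
  simp_rw [e1]
  rw [h, e2]
  simp only [Complex.ofReal_one, Complex.ofReal_zero, mul_one, mul_zero, Complex.exp_zero]
  rw [div_neg, ← neg_div]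
  congr 1
  ring

theorem cw_explicit (β : ℝ) (h0 : β ≠ 0) (h1 : β ≠ 1) (h2 : β ≠ -1) :
    cw β = -(1 - e (-β)) / (4 * π * Complex.I * (β * (β ^ 2 - 1))) := by
  have hsin : ∀ x : ℝ, ((sin (π * x) ^ 2 : ℝ) : ℂ) = 1 / 2 - (e x + e (-x)) / 4 := by
    intro x
    have h3 : e x + e (-x) = 2 * Complex.cos (2 * (π * x)) := by
      rw [Complex.two_cos]
      unfold e
      congr 1
      · congr 1
        ring
      · congr 1
        push_cast
        ring
    rw [h3]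
    push_cast
    rw [Complex.cos_two_mul, Complex.sin_sq]
    ring
  have hint : ∀ x : ℝ, ((sin (π * x) ^ 2 : ℝ) : ℂ) * e (-(β * x)) =
      1 / 2 * e (-(β * x)) - (1 / 4 * e (-((β - 1) * x)) + 1 / 4 * e (-((β + 1) * x))) := by
    intro x
    have a1 : e (-((β - 1) * x)) = e x * e (-(β * x)) := by
      rw [← e_add]
      congr 1
      ring
    have a2 : e (-((β + 1) * x)) = e (-x) * e (-(β * x)) := by
      rw [← e_add]
      congr 1
      ring
    rw [hsin, a1, a2]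
    ring
  have hcont : ∀ γ : ℝ, Continuous fun x : ℝ => e (-(γ * x)) := by
    intro γ
    unfold e
    fun_prop
  have i1 : ∀ γ : ℝ, IntervalIntegrable (fun x : ℝ => e (-(γ * x))) MeasureTheory.volume 0 1 := fun γ =>
    (hcont γ).intervalIntegrable _ _
  have hb1 : β - 1 ≠ 0 := sub_ne_zero.2 h1
  have hb2 : β + 1 ≠ 0 := by
    intro h
    exact h2 (by linarith)
  have g1 : e (-(β - 1)) = e (-β) := by
    have : -(β - 1) = -β + ((1 : ℤ) : ℝ) := by
      push_cast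
      ring
    rw [this, e_add_int]
  have g2 : e (-(β + 1)) = e (-β) := by
    have : -(β + 1) = -β - ((1 : ℤ) : ℝ) := by
      push_cast
      ring
    rw [this, e_sub_int]
  unfold cw
  simp_rw [hint]
  rw [intervalIntegral.integral_sub ((i1 β).const_mul _) (((i1 (β - 1)).const_mul _).add ((i1 (β + 1)).const_mul _)),
    intervalIntegral.integral_add ((i1 (β - 1)).const_mul _) ((i1 (β + 1)).const_mul _),
    intervalIntegral.integral_const_mul, intervalIntegral.integral_const_mul, intervalIntegral.integral_const_mul,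
    integral_e β h0, integral_e (β - 1) hb1, integral_e (β + 1) hb2, g1, g2]
  have hπ : (π : ℂ) ≠ 0 := Complex.ofReal_ne_zero.2 Real.pi_ne_zero
  have c0 : (β : ℂ) ≠ 0 := Complex.ofReal_ne_zero.2 h0
  have c1 : (β : ℂ) - 1 ≠ 0 := by
    have := Complex.ofReal_ne_zero.2 hb1
    push_cast at this
    exact this
  have c2 : (β : ℂ) + 1 ≠ 0 := by
    have := Complex.ofReal_ne_zero.2 hb2
    push_cast at this
    exact this
  have c3 : (β : ℂ) ^ 2 - 1 ≠ 0 := by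
    have : (β : ℂ) ^ 2 - 1 = ((β : ℂ) - 1) * ((β : ℂ) + 1) := by ring
    rw [this]
    exact mul_ne_zero c1 c2
  have hI := Complex.I_ne_zero
  push_cast
  have c4 : (β : ℂ) ^ 2 - 1 = ((β : ℂ) - 1) * ((β : ℂ) + 1) := by ring
  rw [c4]
  field_simp
  ring

theorem cw_norm (β : ℝ) : ‖cw β‖ ≤ 27 / (1 + |β|) ^ 3 := by
  rcases le_or_gt |β| 2 with h | h
  · have h1 : ‖cw β‖ ≤ 1 := by
      unfold cw
      have h2 : ∀ x ∈ Set.uIoc (0 : ℝ) 1, ‖((sin (π * x) ^ 2 : ℝ) : ℂ) * e (-(β * x))‖ ≤ 1 := by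
        intro x _
        rw [norm_mul, norm_e, mul_one, Complex.norm_real, Real.norm_of_nonneg (sq_nonneg _)]
        exact Real.sin_sq_le_one _
      have h3 := intervalIntegral.norm_integral_le_of_norm_le_const h2
      simpa using h3
    refine h1.trans ?_
    have h0 : 0 ≤ |β| := abs_nonneg _
    rw [le_div_iff₀ (by positivity), one_mul]
    have h2 : (1 + |β|) ^ 3 ≤ 3 ^ 3 := pow_le_pow_left₀ (by positivity) (by linarith) 3
    norm_num at h2
    exact h2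
  · have h0 : 0 < |β| := by linarith
    have b0 : β ≠ 0 := abs_pos.1 h0
    have b1 : β ≠ 1 := by
      rintro rfl
      norm_num at h
    have b2 : β ≠ -1 := by
      rintro rfl
      norm_num at h
    rw [cw_explicit β b0 b1 b2]
    have hsq : |β| ^ 2 = β ^ 2 := sq_abs β
    have h4 : 4 ≤ β ^ 2 := by
      rw [← hsq]
      nlinarith
    have h5 : 3 / 4 * |β| ^ 2 ≤ β ^ 2 - 1 := by
      rw [hsq]
      linarith
    have h6 : ‖-(1 - e (-β))‖ ≤ 2 := by
      rw [norm_neg]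
      have := norm_sub_le (1 : ℂ) (e (-β))
      rw [norm_one, norm_e] at this
      linarith
    have hπ := Real.pi_gt_three
    have h7 : ‖(4 * π * Complex.I * (β * (β ^ 2 - 1)) : ℂ)‖ = 4 * π * (|β| * (β ^ 2 - 1)) := by
      have e1 : (4 * π * Complex.I * (β * (β ^ 2 - 1)) : ℂ) = ((4 * π * (β * (β ^ 2 - 1)) : ℝ) : ℂ) * Complex.I := by
        push_cast
        ring
      have e2 : |4 * π * (β * (β ^ 2 - 1))| = 4 * π * (|β| * (β ^ 2 - 1)) := by
        rw [abs_mul (4 * π), abs_mul β, abs_of_pos (by positivity : (0 : ℝ) < 4 * π),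
          abs_of_pos (by linarith : (0 : ℝ) < β ^ 2 - 1)]
      rw [e1, norm_mul, Complex.norm_I, mul_one, Complex.norm_real, Real.norm_eq_abs, e2]
    rw [norm_div, h7]
    have h8 : |β| ^ 3 ≤ 2 * π * (|β| * (β ^ 2 - 1)) := by
      have a1 : |β| * (3 / 4 * |β| ^ 2) ≤ |β| * (β ^ 2 - 1) := mul_le_mul_of_nonneg_left h5 h0.le
      have a2 : 0 < |β| ^ 3 := by positivity
      have a3 : |β| * (3 / 4 * |β| ^ 2) = 3 / 4 * |β| ^ 3 := by ring
      rw [a3] at a1
      nlinarith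
    have h9 : 0 < |β| ^ 3 := by positivity
    have h10 : (1 + |β|) ^ 3 ≤ 27 * |β| ^ 3 := by
      have := pow_le_pow_left₀ (by positivity) (by linarith : 1 + |β| ≤ 3 * |β|) 3
      calc (1 + |β|) ^ 3 ≤ (3 * |β|) ^ 3 := this
        _ = 27 * |β| ^ 3 := by ring
    rw [div_le_div_iff₀ (by linarith) (by positivity)]
    have h11 : 0 < (1 + |β|) ^ 3 := by positivity
    calc ‖-(1 - e (-β))‖ * (1 + |β|) ^ 3 ≤ 2 * (1 + |β|) ^ 3 := mul_le_mul_of_nonneg_right h6 h11.le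
      _ ≤ 2 * (27 * |β| ^ 3) := by linarith
      _ ≤ 27 * (4 * π * (|β| * (β ^ 2 - 1))) := by linarith

end Pool.Agent.Lib.MP_570bef_ntM
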