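import Mathlib
import Pool.Agent.Lib.MP_570bef_ntM.Defs

/-!
# InvS: `∑_{h ∈ ℤ} 1/(1+|α+h|)²` is bounded for `0 ≤ α ≤ 1`

For `0 ≤ α ≤ 1` and `h ∈ ℤ`, `1 + |h| ≤ 2 (1 + |α + h|)` (`|h| ≤ |α+h| + 1`), so `1/(1+|α+h|)² ≤ 4/(1+|h|)²`. `g h = 4/(1+|h|)²` is summable on `ℤ`
(`Summable.of_nat_of_neg` or `summable_int_iff_summable_nat_and_neg`, with `1/(1+n)²` summable on `ℕ`: `Real.summable_one_div_nat_pow` shifted by
`summable_nat_add_iff 1`). `C = ∑' h, g h` (`Summable.of_nonneg_of_le`, `Summable.tsum_le_tsum`).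
-/

set_option autoImplicit false

open Finset Real

namespace Pool.Agent.Lib.MP_570bef_ntM

theorem inv_sum : ∃ C : ℝ, 0 < C ∧ ∀ α : ℝ, 0 ≤ α → α ≤ 1 →
    Summable (fun h : ℤ => 1 / (1 + |α + h|) ^ 2) ∧ ∑' h : ℤ, 1 / (1 + |α + h|) ^ 2 ≤ C := by
  have hnat : Summable (fun n : ℕ => 4 / (1 + (n : ℝ)) ^ 2) := by
    have h1 : Summable (fun n : ℕ => 1 / (n : ℝ) ^ 2) := Real.summable_one_div_nat_pow.2 (by norm_num)
    have h2 : Summable (fun n : ℕ => 1 / ((n + 1 : ℕ) : ℝ) ^ 2) :=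
      (summable_nat_add_iff (f := fun n : ℕ => 1 / (n : ℝ) ^ 2) 1).2 h1
    refine (h2.mul_left 4).congr fun n => ?_
    push_cast
    rw [add_comm (n : ℝ) 1]
    ring
  have hg : Summable (fun h : ℤ => 4 / (1 + |(h : ℝ)|) ^ 2) := by
    refine Summable.of_nat_of_neg ?_ ?_
    · refine hnat.congr fun n => ?_
      rw [Int.cast_natCast, abs_of_nonneg (Nat.cast_nonneg n)]
    · refine hnat.congr fun n => ?_
      rw [Int.cast_neg, Int.cast_natCast, abs_neg, abs_of_nonneg (Nat.cast_nonneg n)]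
  have hg0 : ∀ h : ℤ, 0 ≤ 4 / (1 + |(h : ℝ)|) ^ 2 := fun h => by positivity
  refine ⟨(∑' h : ℤ, 4 / (1 + |(h : ℝ)|) ^ 2) + 1, ?_, fun α h0 h1 => ?_⟩
  · have : 0 ≤ ∑' h : ℤ, 4 / (1 + |(h : ℝ)|) ^ 2 := tsum_nonneg hg0
    linarith
  have hle : ∀ h : ℤ, 1 / (1 + |α + h|) ^ 2 ≤ 4 / (1 + |(h : ℝ)|) ^ 2 := by
    intro h
    have h2 : |(h : ℝ)| ≤ |α + h| + 1 := by
      have h3 : (h : ℝ) = (α + h) - α := by ring
      have h4 := abs_sub (α + h) α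
      rw [← h3, abs_of_nonneg h0] at h4
      linarith
    have h5 : 0 ≤ |α + h| := abs_nonneg _
    have h6 : 1 + |(h : ℝ)| ≤ 2 * (1 + |α + h|) := by linarith
    have h7 : 0 ≤ |(h : ℝ)| := abs_nonneg _
    rw [div_le_div_iff₀ (by positivity) (by positivity)]
    have h8 := pow_le_pow_left₀ (by positivity) h6 2
    nlinarith
  have hs : Summable (fun h : ℤ => 1 / (1 + |α + h|) ^ 2) :=
    Summable.of_nonneg_of_le (fun h => by positivity) hle hg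
  refine ⟨hs, ?_⟩
  have := Summable.tsum_le_tsum hle hs hg
  linarith

end Pool.Agent.Lib.MP_570bef_ntM
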