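import Mathlib
import Pool.Agent.Lib.MP_570bef_ntM.CwB
import Pool.Agent.Lib.MP_570bef_ntM.InvS

/-!
# Four: Fourier expansion of `sin² (πu) e (α ⌊u⌋)`

Let `f x = sin² (πx) e (-(αx))` on `[0,1]`, continuous with `f 0 = f 1 = 0`. `F = AddCircle.liftIco 1 0 f` is continuous on `AddCircle (1:ℝ)`
(`AddCircle.liftIco_zero_continuous` or `AddCircle.liftIco_continuous`), its Fourier coefficients are
`fourierCoeff F h = fourierCoeffOn zero_lt_one f h = ∫ x in 0..1, fourier (-h) x • f x = ∫ x in 0..1, e (-(hx)) f x = cw (α + h)`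
(`fourierCoeff_liftIco_eq`, `fourierCoeffOn_eq_integral`, `fourier_coe_apply`, `e_add`). By `cw_norm`, `‖cw (α+h)‖ ≤ 27/(1+|α+h|)^3 ≤ 27/(1+|α+h|)²`, which is summable
(first `cw_summable` for all real `α`: reduce to `0 ≤ α ≤ 1` by shifting `h` by `⌊α⌋`, `Equiv.addRight`/`Equiv.summable_iff`, and `inv_sum`). So
`has_pointwise_sum_fourier_series_of_summable` gives for `x = Int.fract u ∈ [0,1)`: `HasSum (fun h => cw (α+h) * e (hx)) (f x)` (`fourier_coe_apply`; `F x = f x` by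
`AddCircle.liftIco_coe_apply`). Compare `hasSum_one_div_nat_pow_mul_fourier` and its lemmas in `Mathlib/NumberTheory/ZetaValues.lean`. Multiply by `e (αu)`
(`HasSum.mul_left`): `e (hx) = e (hu)` as `u - x = ⌊u⌋` is an integer (`e_add_int`-type), so the terms are `cw (α+h) e ((α+h)u)`; and `e (αu) f x = sin² (πx) e (α(u - x)) = sin² (πu) e (α⌊u⌋)`
(`sin (π(u - ⌊u⌋)) = ± sin (πu)`, `Real.sin_sub_int_mul_pi`-type; squares).
-/

set_option autoImplicit false

open Finset Real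
open Pool.Agent.Lib.MP_2a816b_nt (e norm_e conj_e e_add e_neg e_add_int e_sub_int)

namespace Pool.Agent.Lib.MP_570bef_ntM

theorem cw_summable (α : ℝ) : Summable (fun h : ℤ => ‖cw (α + h)‖) := by
  obtain ⟨C, -, hC⟩ := inv_sum
  have h1 := (hC (Int.fract α) (Int.fract_nonneg α) (Int.fract_lt_one α).le).1
  have h2 : Summable (fun h : ℤ => 1 / (1 + |α + h|) ^ 2) := by
    have h3 := (Equiv.addRight ⌊α⌋).summable_iff.2 h1
    refine h3.congr fun h => ?_
    have h4 : Int.fract α + ((h + ⌊α⌋ : ℤ) : ℝ) = α + h := by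
      push_cast
      have := Int.fract_add_floor α
      linarith
    change 1 / (1 + |Int.fract α + ((h + ⌊α⌋ : ℤ) : ℝ)|) ^ 2 = _
    rw [h4]
  refine Summable.of_nonneg_of_le (fun h => norm_nonneg _) (fun h => ?_) (h2.mul_left 27)
  refine (cw_norm _).trans ?_
  have h5 : 1 ≤ 1 + |α + h| := by linarith [abs_nonneg (α + (h : ℝ))]
  have h6 : (1 + |α + h|) ^ 2 ≤ (1 + |α + h|) ^ 3 := pow_le_pow_right₀ h5 (by norm_num)
  rw [mul_one_div]
  exact div_le_div_of_nonneg_left (by norm_num) (by positivity) h6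

theorem four_sum (α u : ℝ) :
    HasSum (fun h : ℤ => cw (α + h) * e ((α + h) * u))
      (((sin (π * u) ^ 2 : ℝ) : ℂ) * e (α * (⌊u⌋ : ℤ))) := by
  have hf : Fact ((0 : ℝ) < 1) := ⟨one_pos⟩
  obtain ⟨f, hfdef⟩ : ∃ f : ℝ → ℂ, f = fun x => ((sin (π * x) ^ 2 : ℝ) : ℂ) * e (-(α * x)) := ⟨_, rfl⟩
  have hcont : Continuous f := by
    rw [hfdef]
    unfold e
    fun_prop
  have h01 : f 0 = f 1 := by
    rw [hfdef]
    simp
  obtain ⟨F, hF⟩ : ∃ F : C(AddCircle (1 : ℝ), ℂ), ∀ x, F x = AddCircle.liftIco 1 0 f x :=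
    ⟨⟨AddCircle.liftIco 1 0 f, AddCircle.liftIco_zero_continuous h01 hcont.continuousOn⟩, fun _ => rfl⟩
  have hFx : ∀ x ∈ Set.Ico (0 : ℝ) 1, F (x : AddCircle (1 : ℝ)) = f x := by
    intro x hx
    rw [hF]
    exact AddCircle.liftIco_zero_coe_apply hx
  have hfou : ∀ (n : ℤ) (x : ℝ), fourier n (x : AddCircle (1 : ℝ)) = e (n * x) := by
    intro n x
    rw [fourier_coe_apply]
    unfold e
    congr 1
    push_cast
    ring
  have hcoef : ∀ n : ℤ, fourierCoeff (F : AddCircle (1 : ℝ) → ℂ) n = cw (α + n) := by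
    intro n
    rw [fourierCoeff_eq_intervalIntegral _ n 0]
    have e1 : (0 : ℝ) + 1 = 1 := zero_add 1
    rw [e1, one_div_one, one_smul]
    unfold cw
    refine intervalIntegral.integral_congr_Ioo_of_le zero_le_one fun x hx => ?_
    have h1 := hFx x ⟨hx.1.le, hx.2⟩
    have h2 := hfou (-n) x
    have h3 : -((α + (n : ℝ)) * x) = ((-n : ℤ) : ℝ) * x + -(α * x) := by
      push_cast
      ring
    change fourier (-n) (x : AddCircle (1 : ℝ)) • F (x : AddCircle (1 : ℝ)) = _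
    rw [h1, h2, hfdef, h3, e_add, smul_eq_mul]
    ring
  have hsum : Summable (fourierCoeff (F : AddCircle (1 : ℝ) → ℂ)) := by
    have h1 : (fourierCoeff (F : AddCircle (1 : ℝ) → ℂ)) = fun n : ℤ => cw (α + n) := funext hcoef
    rw [h1]
    exact (cw_summable α).of_norm
  have h1 := has_pointwise_sum_fourier_series_of_summable hsum ((Int.fract u : ℝ) : AddCircle (1 : ℝ))
  have h2 := h1.mul_left (e (α * u))
  have hfr : ∀ n : ℤ, e ((n : ℝ) * Int.fract u) = e (n * u) := by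
    intro n
    have h3 : (n : ℝ) * Int.fract u = n * u - ((n * ⌊u⌋ : ℤ) : ℝ) := by
      push_cast
      have := Int.fract_add_floor u
      have h4 : Int.fract u = u - ⌊u⌋ := by linarith
      rw [h4]
      ring
    rw [h3, e_sub_int]
  have hval : e (α * u) * F ((Int.fract u : ℝ) : AddCircle (1 : ℝ)) =
      ((sin (π * u) ^ 2 : ℝ) : ℂ) * e (α * (⌊u⌋ : ℤ)) := by
    rw [hFx _ ⟨Int.fract_nonneg u, Int.fract_lt_one u⟩, hfdef]
    have h3 : sin (π * Int.fract u) ^ 2 = sin (π * u) ^ 2 := by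
      have h4 : π * Int.fract u = π * u - ⌊u⌋ * π := by
        have h5 : Int.fract u = u - ⌊u⌋ := by linarith [Int.fract_add_floor u]
        rw [h5]
        ring
      rw [h4, Real.sin_sub_int_mul_pi, mul_pow]
      have h6 : ((-1 : ℝ) ^ ⌊u⌋) ^ 2 = 1 := by
        rcases Int.even_or_odd ⌊u⌋ with h | h
        · rw [h.neg_one_zpow, one_pow]
        · rw [h.neg_one_zpow]
          norm_num
      rw [h6, one_mul]
    have h7 : α * ((⌊u⌋ : ℤ) : ℝ) = α * u + -(α * Int.fract u) := by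
      have h5 : Int.fract u = u - ⌊u⌋ := by linarith [Int.fract_add_floor u]
      rw [h5]
      ring
    change e (α * u) * (((sin (π * Int.fract u) ^ 2 : ℝ) : ℂ) * e (-(α * Int.fract u))) = _
    rw [h3, h7, e_add]
    ring
  rw [hval] at h2
  have hterm : (fun h : ℤ => cw (α + h) * e ((α + h) * u)) =
      fun i : ℤ => e (α * u) * (fourierCoeff (F : AddCircle (1 : ℝ) → ℂ) i •
        fourier i ((Int.fract u : ℝ) : AddCircle (1 : ℝ))) := by
    funext h
    rw [hcoef, hfou, hfr, smul_eq_mul, add_mul, e_add]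
    ring
  rw [hterm]
  exact h2

end Pool.Agent.Lib.MP_570bef_ntM
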