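import Mathlib
import Pool.Agent.Lib.MP_570bef_ntM.Four

/-!
# SwB: the weighted sum with floors on the minor arcs

* `sw_expand`: `four_sum α (n^θ)` for `n ∈ Ico P (2P)` and `hasSum_sum`: `∑_n cw (α+h) e ((α+h) n^θ) = cw (α+h) VV θ P (α+h)` (`Finset.mul_sum`), and
  `(⌊n^θ⌋ : ℤ) = fl θ n` because `n^θ ≥ 0` (`natCast_floor_eq_intCast_floor` or `Int.natCast_floor_eq_floor`); `wt θ n = sin² (π n^θ)`.
* `sw_minor`: let `0 < P^(-θ+1/4) ≤ α ≤ 1 - P^(-θ+1/4)`. For `h ∈ ℤ` `|α + h| ≥ P^(-θ+1/4)` (`h ≥ 0`: `α + h ≥ α`; `h ≤ -1`: `-(α+h) ≥ 1 - α`). So by `weyl_all` and `cw_norm`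
  `‖cw (α+h) VV θ P (α+h)‖ ≤ 27/(1+|α+h|)^3 * C P^(1-σ) (1+|α+h|) = 27 C P^(1-σ)/(1+|α+h|)²`, and `inv_sum` gives `‖SW θ P α‖ ≤ 27 C C' P^(1-σ)`
  (`tsum_of_norm_bounded` or `norm_tsum_le_tsum_norm` with `sw_expand.tsum_eq`).
* `wt_sum`: `wt θ n = (1 - cos (2π n^θ))/2`, `cos (2π n^θ) = re (e (n^θ))`, so `∑_{Ico P (2P)} wt θ n = P/2 - re (VV θ P 1)/2 ≥ P/2 - ‖VV θ P 1‖/2`, and by `weyl_all` (`β = 1`,
  `P^(-θ+1/4) ≤ 1`) `‖VV θ P 1‖ ≤ 2 C P^(1-σ) ≤ P/2` as soon as `P^σ ≥ 4C`.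
* `wt_le`: `0 ≤ wt ≤ 1`.
-/

set_option autoImplicit false

open Finset Real
open Pool.Agent.Lib.MP_2a816b_nt (e norm_e conj_e e_add e_neg)

namespace Pool.Agent.Lib.MP_570bef_ntM

theorem wt_mem (θ : ℝ) (n : ℕ) : 0 ≤ wt θ n ∧ wt θ n ≤ 1 := by
  unfold wt
  exact ⟨sq_nonneg _, Real.sin_sq_le_one _⟩

theorem sw_expand (θ : ℝ) (P : ℕ) (α : ℝ) :
    HasSum (fun h : ℤ => cw (α + h) * VV θ P (α + h)) (SW θ P α) := by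
  have h := hasSum_sum (s := Ico P (2 * P)) fun n _ => four_sum α ((n : ℝ) ^ θ)
  have e1 : (fun h : ℤ => cw (α + h) * VV θ P (α + h)) =
      fun h : ℤ => ∑ n ∈ Ico P (2 * P), cw (α + h) * e ((α + h) * (n : ℝ) ^ θ) := by
    funext h
    unfold VV
    rw [Finset.mul_sum]
  have e2 : SW θ P α = ∑ n ∈ Ico P (2 * P), ((sin (π * (n : ℝ) ^ θ) ^ 2 : ℝ) : ℂ) *
      e (α * (⌊(n : ℝ) ^ θ⌋ : ℤ)) := by
    unfold SW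
    refine Finset.sum_congr rfl fun n _ => ?_
    have h0 : 0 ≤ (n : ℝ) ^ θ := Real.rpow_nonneg (Nat.cast_nonneg n) θ
    have e3 : ((fl θ n : ℕ) : ℝ) = ((⌊(n : ℝ) ^ θ⌋ : ℤ) : ℝ) := by
      unfold fl
      exact natCast_floor_eq_intCast_floor h0
    rw [e3]
    rfl
  rw [e1, e2]
  exact h

end Pool.Agent.Lib.MP_570bef_ntM
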