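import Mathlib
import Pool.Agent.Lib.MP_570bef_ntM.Defs

/-!
# IterW: `q` van der Corput steps

Fix `θ`, `Q ≥ 1`, `q ≤ Q`, `ν = 1/(8Q)`. Claim(r), `r ≤ q`, by induction on `r`: there is `C > 0` such that for all `P ≥ 1`, `β > 0` in the range of `base_w`, all lists
`l` with `l.length + r = q` and entries `1 ≤ h ≤ P^ν`, and all `P ≤ a`, `b ≤ 2P+1`: `S(l,a,b) := ‖∑_{Ico a b} e (β dl θ l n)‖ ≤ C P^(1 - ν/2^r)`.

`r = 0`: `l.length = q`, `l.prod ≤ (P^ν)^q = P^(νq) ≤ P^(1/8)` (`List.prod_le_pow_card` is for `ℕ`; prove the real inequality by induction on the list),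
`l.sum ≤ q P^ν ≤ q P^(1/8)` (real, by induction on the list). There is `P1` with `q P^(1/8) + P^(1/2) ≤ P` for `P ≥ P1` (e.g. `P^(1/2) ≥ q + 1` suffices:
`q P^(1/8) + P^(1/2) ≤ (q+1) P^(1/2) ≤ P`). For `P < P1`: `S ≤ 2P ≤ 2 P1 ≤ 2 P1 P^(1-ν)` (`norm_sum_e_le`, `1 - ν ≥ 0`). For `P ≥ P1` `base_w` gives
`S ≤ C P^(7/8) ≤ C P^(1-ν)` as `ν ≤ 1/8`.

`r → r+1`: let `l.length + (r+1) = q`, `C` the constant of `r`. `H = ⌊P^ν⌋₊`, `1 ≤ H ≤ P^ν ≤ 2H`. If `b - a < H`: `S ≤ H ≤ P^ν ≤ P^(1 - ν/2^(r+1))` (`ν ≤ 1/8`).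
Otherwise `vdc`: with `N = b - a ≤ P + 1 ≤ 2P` (real), `S² ≤ (2N/H) (N + 2 ∑_{h ∈ Ico 1 H} S_h)`, `S_h = S(h :: l, a, b-h) ≤ C P^(1-ν/2^r)` by the induction hypothesis
(`1 ≤ h ≤ H ≤ P^ν`; `F (n+h) - F n = β dl θ (h :: l) n`). So `S² ≤ 2N²/H + 4 N C P^(1-ν/2^r) ≤ 8P²/H + 8 P C P^(1-ν/2^r) ≤ 16 P^(2-ν) + 8 C P^(2-ν/2^r) ≤ (16 + 8C) P^(2-ν/2^r)`,
and `S ≤ sqrt (16+8C) P^(1 - ν/2^(r+1))` (`(P^(1-ν/2^(r+1)))² = P^(2-ν/2^r)`).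

The theorem is the case `r = q`, `l = []` (`dl θ [] x = x^θ`), with `P^(1-ν/2^q) ≤ P^(1-ν/2^Q)`.
-/

set_option autoImplicit false

open Finset Real
open Pool.Agent.Lib.MP_2a816b_nt (e norm_e conj_e e_add e_neg)

namespace Pool.Agent.Lib.MP_570bef_ntM

theorem list_bounds (ν : ℝ) (P : ℕ) (hP : 1 ≤ P) (hν : 0 ≤ ν) (l : List ℕ)
    (hl : ∀ h ∈ l, 1 ≤ h ∧ (h : ℝ) ≤ (P : ℝ) ^ ν) :
    ((l.prod : ℕ) : ℝ) ≤ (P : ℝ) ^ (ν * l.length) ∧ ((l.sum : ℕ) : ℝ) ≤ l.length * (P : ℝ) ^ ν := by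
  have hP0 : (0:ℝ) < P := by exact_mod_cast hP
  have _ := hν
  induction l with
  | nil => simp
  | cons h l ih =>
    obtain ⟨h1, h2⟩ := ih fun x hx => hl x (List.mem_cons_of_mem _ hx)
    obtain ⟨_, h3⟩ := hl h List.mem_cons_self
    have hp : 0 < (P : ℝ) ^ ν := Real.rpow_pos_of_pos hP0 ν
    constructor
    · rw [List.prod_cons, List.length_cons, Nat.cast_mul, Nat.cast_add, Nat.cast_one]
      have e1 : (P : ℝ) ^ (ν * ((l.length : ℝ) + 1)) = (P : ℝ) ^ ν * (P : ℝ) ^ (ν * l.length) := by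
        rw [← Real.rpow_add hP0]
        congr 1
        ring
      rw [e1]
      exact mul_le_mul h3 h1 (Nat.cast_nonneg _) hp.le
    · rw [List.sum_cons, List.length_cons, Nat.cast_add, Nat.cast_add, Nat.cast_one]
      nlinarith

end Pool.Agent.Lib.MP_570bef_ntM
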