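import Mathlib
import Pool.Agent.Lib.MP_570bef_ntM.BaseW
import Pool.Agent.Lib.MP_570bef_ntM.IterA

/-!
# IterW: `q` van der Corput steps

Fix `θ`, `Q ≥ 1`, `q ≤ Q`, `ν = 1/(8Q)`. Claim(r), `r ≤ q`, by induction on `r`: there is `C > 0` such that for all `P ≥ 1`, `β > 0` in the range of `base_w`, all lists
`l` with `l.length + r = q` and entries `1 ≤ h ≤ P^ν`, and all `P ≤ a`, `b ≤ 2P+1`: `S(l,a,b) := ‖∑_{Ico a b} e (β dl θ l n)‖ ≤ C P^(1 - ν/2^r)`.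

`r = 0`: `l.length = q`, `l.prod ≤ (P^ν)^q = P^(νq) ≤ P^(1/8)` (`List.prod_le_pow_card` is for `ℕ`; prove the real inequality by induction on the list),
`l.sum ≤ q P^ν ≤ q P^(1/8)` (real, by induction on the list). There is `P1` with `q P^(1/8) + P^(1/2) ≤ P` for `P ≥ P1` (e.g. `P^(1/2) ≥ q + 1` suffices:
`q P^(1/8) + P^(1/2) ≤ (q+1) P^(1/2) ≤ P`). For `P < P1`: `S ≤ 2P ≤ 2 P1 ≤ 2 P1 P^(1-ν)` (`norm_sum_e_le`, `1 - ν ≥ 0`). For `P ≥ P1` `base_w` gives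
`S ≤ C P^(7/8) ≤ C P^(1-ν)` as `ν ≤ 1/8`.

`r → r+1`: let `l.length + (r+1) = q`, `C` the constant of `r`. `H = ⌊P^ν⌋₊`, `1 ≤ H ≤ P^ν ≤ 2H`. If `b - a < H`: `S ≤ H ≤ P^ν ≤ P^(1 - ν/2^(r+1))` (`ν ≤ 1/8`).
Otherwise `vdc`: with `N = b - a ≤ P + 1 ≤ 2P` (real), `S² ≤ (2N/H) (N + 2 ∑_{h ∈ Ico 1 H} S_h)`, `S_h = S(h :: l, a, b-h) ≤ C P^(1-ν/2^r)` by the induction hypothesis
(`1 ≤ h ≤ H ≤ P^ν`; `F (n+h) - F n = β dl θ (h :: l) n`). So `S² ≤ 2N²/H + 4 N C P^(1-ν/2^r) ≤ 8P²/H + 8 P C P^(1-ν/2^r) ≤ 16 P^(2-ν) + 8 C P^(2-ν/2^r) ≤ (16 + 8C) P^(2-ν/2^r)`,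
and `S ≤ sqrt (16+8C) P^(1 - ν/2^(r+1))` (`(P^(1-ν/2^(r+1)))² = P^(2-ν/2^r)`).

The theorem is the case `r = q`, `l = []` (`dl θ [] x = x^θ`), with `P^(1-ν/2^q) ≤ P^(1-ν/2^Q)`.
-/

set_option autoImplicit false

open Finset Real
open Pool.Agent.Lib.MP_2a816b_nt (e norm_e conj_e e_add e_neg)

namespace Pool.Agent.Lib.MP_570bef_ntM

private theorem iterW_vdc (θ β : ℝ) (l : List ℕ) (a b H : ℕ) (hab : a ≤ b) (hH : 1 ≤ H)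
    (hHN : H ≤ b - a) :
    ‖∑ n ∈ Ico a b, e (β * dl θ l n)‖ ^ 2 ≤ 2 * ((b : ℝ) - a) / H *
      (((b : ℝ) - a) + 2 * ∑ h ∈ Ico 1 H, ‖∑ n ∈ Ico a (b - h), e (β * dl θ (h :: l) n)‖) := by
  have h := Pool.Agent.Lib.MP_50b5e1_nt.vdc (fun n => β * dl θ l n) a b H hab hH hHN
  have e1 : ∀ h n : ℕ, β * dl θ l ((n + h : ℕ) : ℝ) - β * dl θ l n = β * dl θ (h :: l) n := by
    intro h n
    have h2 : dl θ (h :: l) n = dl θ l ((n : ℝ) + h) - dl θ l n := rfl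
    rw [h2]
    push_cast
    ring
  simp only [e1] at h
  exact h

private theorem iterW_base (θ : ℝ) (hθ : ∀ k : ℕ, θ ≠ k) (Q q : ℕ) (hQ : 1 ≤ Q) (hq : q ≤ Q) :
    ∃ C : ℝ, 0 < C ∧ ∀ (P : ℕ) (β : ℝ), 1 ≤ P → 0 < β →
      (P : ℝ) ^ ((q : ℝ) + 1 / 4) ≤ β * (P : ℝ) ^ θ → β * (P : ℝ) ^ θ ≤ (P : ℝ) ^ ((q : ℝ) + 5 / 4) →
      ∀ l : List ℕ, l.length = q → (∀ h ∈ l, 1 ≤ h ∧ (h : ℝ) ≤ (P : ℝ) ^ (1 / (8 * Q) : ℝ)) →
      ∀ a b : ℕ, P ≤ a → b ≤ 2 * P + 1 →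
      ‖∑ n ∈ Ico a b, e (β * dl θ l n)‖ ≤ C * (P : ℝ) ^ (1 - 1 / (8 * Q) : ℝ) := by
  obtain ⟨C, hC, hb⟩ := base_w θ hθ q
  refine ⟨C + 2 * ((q : ℝ) + 1) ^ 2, by positivity, ?_⟩
  intro P β hP hβ h1 h2 l hl hl2 a b ha hb2
  have hx : (1 : ℝ) ≤ P := by exact_mod_cast hP
  have hx0 : (0 : ℝ) < P := by linarith
  have hQ1 : (1 : ℝ) ≤ Q := by exact_mod_cast hQ
  have hqQ : (q : ℝ) ≤ Q := by exact_mod_cast hq
  have hν0 : (0 : ℝ) ≤ 1 / (8 * Q) := by positivity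
  have hν1 : (1 : ℝ) / (8 * Q) ≤ 1 / 8 := by
    rw [div_le_div_iff₀ (by positivity) (by norm_num)]
    linarith
  have hpw : (1 : ℝ) ≤ (P : ℝ) ^ (1 - 1 / (8 * Q) : ℝ) :=
    Real.one_le_rpow hx (by linarith)
  by_cases hbig : (q : ℝ) + 1 ≤ (P : ℝ) ^ (1 / 2 : ℝ)
  · have hlb := list_bounds (1 / (8 * Q)) P hP hν0 l hl2
    have h3 : ((l.prod : ℕ) : ℝ) ≤ (P : ℝ) ^ (1 / 8 : ℝ) := by
      refine hlb.1.trans (Real.rpow_le_rpow_of_exponent_le hx ?_)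
      rw [hl, one_div, inv_mul_eq_div, div_le_iff₀ (by positivity)]
      linarith
    have h4 : ((l.sum : ℕ) : ℝ) + (P : ℝ) ^ (1 / 2 : ℝ) ≤ P := by
      have h5 : (P : ℝ) ^ (1 / (8 * Q) : ℝ) ≤ (P : ℝ) ^ (1 / 2 : ℝ) :=
        Real.rpow_le_rpow_of_exponent_le hx (by linarith)
      have h6 : ((l.sum : ℕ) : ℝ) ≤ q * (P : ℝ) ^ (1 / 2 : ℝ) := by
        refine hlb.2.trans ?_
        rw [hl]
        exact mul_le_mul_of_nonneg_left h5 (Nat.cast_nonneg _)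
      have h7 : (P : ℝ) ^ (1 / 2 : ℝ) * (P : ℝ) ^ (1 / 2 : ℝ) = P := by
        rw [← Real.rpow_add hx0]
        norm_num
      have h8 : 0 < (P : ℝ) ^ (1 / 2 : ℝ) := Real.rpow_pos_of_pos hx0 _
      calc ((l.sum : ℕ) : ℝ) + (P : ℝ) ^ (1 / 2 : ℝ)
          ≤ q * (P : ℝ) ^ (1 / 2 : ℝ) + (P : ℝ) ^ (1 / 2 : ℝ) := by linarith
        _ = ((q : ℝ) + 1) * (P : ℝ) ^ (1 / 2 : ℝ) := by ring
        _ ≤ (P : ℝ) ^ (1 / 2 : ℝ) * (P : ℝ) ^ (1 / 2 : ℝ) :=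
            mul_le_mul_of_nonneg_right hbig h8.le
        _ = P := h7
    have h9 := hb P β hP hβ h1 h2 l hl (fun h hh => (hl2 h hh).1) h3 h4 a b ha hb2
    have h10 : (P : ℝ) ^ (7 / 8 : ℝ) ≤ (P : ℝ) ^ (1 - 1 / (8 * Q) : ℝ) :=
      Real.rpow_le_rpow_of_exponent_le hx (by linarith)
    calc ‖∑ n ∈ Ico a b, e (β * dl θ l n)‖ ≤ C * (P : ℝ) ^ (7 / 8 : ℝ) := h9
      _ ≤ C * (P : ℝ) ^ (1 - 1 / (8 * Q) : ℝ) := mul_le_mul_of_nonneg_left h10 hC.le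
      _ ≤ (C + 2 * ((q : ℝ) + 1) ^ 2) * (P : ℝ) ^ (1 - 1 / (8 * Q) : ℝ) := by
          refine mul_le_mul_of_nonneg_right ?_ (by linarith)
          have : (0 : ℝ) ≤ 2 * ((q : ℝ) + 1) ^ 2 := by positivity
          linarith
  · have h3 : (P : ℝ) < ((q : ℝ) + 1) ^ 2 := by
      by_contra hcon
      apply hbig
      have h4 : (((q : ℝ) + 1) ^ 2) ^ (1 / 2 : ℝ) ≤ (P : ℝ) ^ (1 / 2 : ℝ) :=
        Real.rpow_le_rpow (by positivity) (not_lt.1 hcon) (by norm_num)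
      have h5 : (((q : ℝ) + 1) ^ 2) ^ (1 / 2 : ℝ) = (q : ℝ) + 1 := by
        rw [← Real.sqrt_eq_rpow, Real.sqrt_sq (by positivity)]
      rwa [h5] at h4
    have h4 := norm_sum_e_le a b (fun n => β * dl θ l n)
    have h5 : ((b - a : ℕ) : ℝ) ≤ P + 1 := by
      have : b - a ≤ P + 1 := by omega
      exact_mod_cast this
    calc ‖∑ n ∈ Ico a b, e (β * dl θ l n)‖ ≤ P + 1 := h4.trans h5
      _ ≤ 2 * ((q : ℝ) + 1) ^ 2 := by linarith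
      _ ≤ (C + 2 * ((q : ℝ) + 1) ^ 2) * 1 := by linarith
      _ ≤ (C + 2 * ((q : ℝ) + 1) ^ 2) * (P : ℝ) ^ (1 - 1 / (8 * Q) : ℝ) :=
          mul_le_mul_of_nonneg_left hpw (by positivity)

private theorem iterW_fin (S N H x C μ ν : ℝ) (hS : 0 ≤ S) (hx : 1 ≤ x) (hC : 0 < C) (hN0 : 0 ≤ N)
    (hN : N ≤ 2 * x) (hH : 0 < H) (hH2 : x ^ ν ≤ 2 * H) (hμν : μ ≤ ν)
    (hS2 : S ^ 2 ≤ 2 * N / H * (N + 2 * (H * (C * x ^ (1 - μ))))) :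
    S ≤ Real.sqrt (16 + 8 * C) * x ^ (1 - μ / 2) := by
  have hx0 : 0 < x := by linarith
  have h1 : (Real.sqrt (16 + 8 * C) * x ^ (1 - μ / 2)) ^ 2 = (16 + 8 * C) * x ^ (2 - μ) := by
    rw [mul_pow, Real.sq_sqrt (by positivity), ← Real.rpow_natCast (x ^ (1 - μ / 2)) 2,
      ← Real.rpow_mul hx0.le]
    congr 2
    push_cast
    ring
  have h2 : x * x ^ (1 - μ) = x ^ (2 - μ) := by
    have h3 : x ^ (1 : ℝ) * x ^ (1 - μ) = x ^ (1 + (1 - μ)) := (Real.rpow_add hx0 1 (1 - μ)).symm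
    rw [Real.rpow_one] at h3
    rw [h3]
    congr 1
    ring
  have h3 : x ^ 2 ≤ 2 * H * x ^ (2 - μ) := by
    have h4 : x ^ ν * x ^ (2 - μ) = x ^ (2 + (ν - μ)) := by
      rw [← Real.rpow_add hx0]
      congr 1
      ring
    have h5 : x ^ (2 : ℕ) ≤ x ^ (2 + (ν - μ)) := by
      rw [← Real.rpow_natCast]
      exact Real.rpow_le_rpow_of_exponent_le hx (by push_cast; linarith)
    have h6 : 0 < x ^ (2 - μ) := Real.rpow_pos_of_pos hx0 _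
    calc x ^ 2 ≤ x ^ ν * x ^ (2 - μ) := by rw [h4]; exact h5
      _ ≤ 2 * H * x ^ (2 - μ) := mul_le_mul_of_nonneg_right hH2 h6.le
  have h7 : 0 < x ^ (1 - μ) := Real.rpow_pos_of_pos hx0 _
  have h8 : 2 * N / H * (N + 2 * (H * (C * x ^ (1 - μ)))) ≤ (16 + 8 * C) * x ^ (2 - μ) := by
    have h9 : 2 * N / H * (N + 2 * (H * (C * x ^ (1 - μ)))) =
        2 * N ^ 2 / H + 4 * N * C * x ^ (1 - μ) := by
      field_simp
      ring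
    rw [h9]
    have h10 : 2 * N ^ 2 / H ≤ 16 * x ^ (2 - μ) := by
      rw [div_le_iff₀ hH]
      have : N ^ 2 ≤ (2 * x) ^ 2 := pow_le_pow_left₀ hN0 hN 2
      nlinarith
    have h11 : 4 * N * C * x ^ (1 - μ) ≤ 8 * C * x ^ (2 - μ) := by
      rw [← h2]
      have : N * (C * x ^ (1 - μ)) ≤ 2 * x * (C * x ^ (1 - μ)) :=
        mul_le_mul_of_nonneg_right hN (by positivity)
      nlinarith
    linarith
  have h12 : 0 ≤ Real.sqrt (16 + 8 * C) * x ^ (1 - μ / 2) := by positivity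
  rw [← pow_le_pow_iff_left₀ hS h12 two_ne_zero, h1]
  exact hS2.trans h8

theorem iter_claim (θ : ℝ) (hθ : ∀ k : ℕ, θ ≠ k) (Q q : ℕ) (hQ : 1 ≤ Q) (hq : q ≤ Q) (r : ℕ)
    (hr : r ≤ q) :
    ∃ C : ℝ, 0 < C ∧ ∀ (P : ℕ) (β : ℝ), 1 ≤ P → 0 < β →
      (P : ℝ) ^ ((q : ℝ) + 1 / 4) ≤ β * (P : ℝ) ^ θ → β * (P : ℝ) ^ θ ≤ (P : ℝ) ^ ((q : ℝ) + 5 / 4) →
      ∀ l : List ℕ, l.length + r = q → (∀ h ∈ l, 1 ≤ h ∧ (h : ℝ) ≤ (P : ℝ) ^ (1 / (8 * Q) : ℝ)) →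
      ∀ a b : ℕ, P ≤ a → b ≤ 2 * P + 1 →
      ‖∑ n ∈ Ico a b, e (β * dl θ l n)‖ ≤ C * (P : ℝ) ^ (1 - 1 / (8 * Q) / 2 ^ r : ℝ) := by
  induction r with
  | zero =>
    obtain ⟨C, hC, h⟩ := iterW_base θ hθ Q q hQ hq
    refine ⟨C, hC, ?_⟩
    intro P β hP hβ h1 h2 l hl hl2 a b ha hb
    rw [pow_zero, div_one]
    exact h P β hP hβ h1 h2 l (by omega) hl2 a b ha hb
  | succ r ih =>
    obtain ⟨C, hC, h⟩ := ih (by omega)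
    refine ⟨Real.sqrt (16 + 8 * C), Real.sqrt_pos.2 (by positivity), ?_⟩
    intro P β hP hβ h1 h2 l hl hl2 a b ha hb
    have hx : (1 : ℝ) ≤ P := by exact_mod_cast hP
    have hx0 : (0 : ℝ) < P := by linarith
    have hQ1 : (1 : ℝ) ≤ Q := by exact_mod_cast hQ
    have hν0 : (0 : ℝ) ≤ 1 / (8 * Q) := by positivity
    have hν1 : (1 : ℝ) / (8 * Q) ≤ 1 / 8 := by
      rw [div_le_div_iff₀ (by positivity) (by norm_num)]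
      linarith
    have hμ : (1 : ℝ) / (8 * Q) / 2 ^ (r + 1) = 1 / (8 * Q) / 2 ^ r / 2 := by
      rw [pow_succ]
      field_simp
    have hμν : (1 : ℝ) / (8 * Q) / 2 ^ r ≤ 1 / (8 * Q) :=
      div_le_self hν0 (one_le_pow₀ (by norm_num))
    have hxν : (1 : ℝ) ≤ (P : ℝ) ^ (1 / (8 * Q) : ℝ) := Real.one_le_rpow hx hν0
    have hH1 : 1 ≤ ⌊(P : ℝ) ^ (1 / (8 * Q) : ℝ)⌋₊ := by
      rw [Nat.one_le_floor_iff]
      exact hxν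
    have hHle : ((⌊(P : ℝ) ^ (1 / (8 * Q) : ℝ)⌋₊ : ℕ) : ℝ) ≤ (P : ℝ) ^ (1 / (8 * Q) : ℝ) :=
      Nat.floor_le (by linarith)
    have hHlt : (P : ℝ) ^ (1 / (8 * Q) : ℝ) < (⌊(P : ℝ) ^ (1 / (8 * Q) : ℝ)⌋₊ : ℕ) + 1 :=
      Nat.lt_floor_add_one _
    set H := ⌊(P : ℝ) ^ (1 / (8 * Q) : ℝ)⌋₊ with hHdef
    have hH1r : (1 : ℝ) ≤ H := by exact_mod_cast hH1
    have hsq : (1 : ℝ) ≤ Real.sqrt (16 + 8 * C) := by
      rw [Real.one_le_sqrt]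
      linarith
    rw [hμ]
    by_cases hab : a + H ≤ b
    · have h3 := iterW_vdc θ β l a b H (by omega) hH1 (by omega)
      have hab' : (a : ℝ) ≤ b := by exact_mod_cast (show a ≤ b by omega)
      have hN : (b : ℝ) - a ≤ 2 * P := by
        have h4 : b ≤ a + P + 1 := by omega
        have h5 : (b : ℝ) ≤ a + P + 1 := by exact_mod_cast h4
        linarith
      refine iterW_fin _ ((b : ℝ) - a) H P C _ (1 / (8 * Q)) (norm_nonneg _) hx hC (by linarith) hN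
        (by linarith) (by linarith) hμν ?_
      refine h3.trans ?_
      refine mul_le_mul_of_nonneg_left ?_ (div_nonneg (by linarith) (by linarith))
      have h6 : ∀ k ∈ Ico 1 H, ‖∑ n ∈ Ico a (b - k), e (β * dl θ (k :: l) n)‖ ≤
          C * (P : ℝ) ^ (1 - 1 / (8 * Q) / 2 ^ r : ℝ) := by
        intro k hk
        rw [Finset.mem_Ico] at hk
        refine h P β hP hβ h1 h2 (k :: l) (by rw [List.length_cons]; omega) ?_ a (b - k) ha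
          (by omega)
        intro j hj
        rcases List.mem_cons.1 hj with h7 | h7
        · rw [h7]
          refine ⟨hk.1, le_trans ?_ hHle⟩
          exact_mod_cast hk.2.le
        · exact hl2 j h7
      have h8 : ∑ k ∈ Ico 1 H, ‖∑ n ∈ Ico a (b - k), e (β * dl θ (k :: l) n)‖ ≤
          H * (C * (P : ℝ) ^ (1 - 1 / (8 * Q) / 2 ^ r : ℝ)) := by
        refine (Finset.sum_le_card_nsmul _ _ _ h6).trans ?_
        rw [nsmul_eq_mul, Nat.card_Ico]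
        refine mul_le_mul_of_nonneg_right ?_ (by positivity)
        exact_mod_cast Nat.sub_le H 1
      linarith
    · have h4 := norm_sum_e_le a b (fun n => β * dl θ l n)
      have h5 : ((b - a : ℕ) : ℝ) ≤ H := by
        have : b - a ≤ H := by omega
        exact_mod_cast this
      have h6 : (P : ℝ) ^ (1 / (8 * Q) : ℝ) ≤ (P : ℝ) ^ (1 - 1 / (8 * Q) / 2 ^ r / 2 : ℝ) :=
        Real.rpow_le_rpow_of_exponent_le hx (by linarith)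
      calc ‖∑ n ∈ Ico a b, e (β * dl θ l n)‖ ≤ (P : ℝ) ^ (1 / (8 * Q) : ℝ) :=
            h4.trans (h5.trans hHle)
        _ ≤ 1 * (P : ℝ) ^ (1 - 1 / (8 * Q) / 2 ^ r / 2 : ℝ) := by rw [one_mul]; exact h6
        _ ≤ Real.sqrt (16 + 8 * C) * (P : ℝ) ^ (1 - 1 / (8 * Q) / 2 ^ r / 2 : ℝ) :=
            mul_le_mul_of_nonneg_right hsq (by positivity)

theorem iter_w (θ : ℝ) (hθ : ∀ k : ℕ, θ ≠ k) (Q q : ℕ) (hQ : 1 ≤ Q) (hq : q ≤ Q) :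
    ∃ C : ℝ, 0 < C ∧ ∀ (P : ℕ) (β : ℝ), 1 ≤ P → 0 < β →
      (P : ℝ) ^ ((q : ℝ) + 1 / 4) ≤ β * (P : ℝ) ^ θ → β * (P : ℝ) ^ θ ≤ (P : ℝ) ^ ((q : ℝ) + 5 / 4) →
      ‖VV θ P β‖ ≤ C * (P : ℝ) ^ (1 - 1 / (8 * Q * 2 ^ Q) : ℝ) := by
  obtain ⟨C, hC, h⟩ := iter_claim θ hθ Q q hQ hq q le_rfl
  refine ⟨C, hC, ?_⟩
  intro P β hP hβ h1 h2
  have hx : (1 : ℝ) ≤ P := by exact_mod_cast hP
  have hQ1 : (1 : ℝ) ≤ Q := by exact_mod_cast hQ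
  have h3 := h P β hP hβ h1 h2 [] (by rw [List.length_nil, zero_add])
    (fun h hh => absurd hh List.not_mem_nil) P (2 * P) le_rfl (by omega)
  have h4 : VV θ P β = ∑ n ∈ Ico P (2 * P), e (β * dl θ [] n) := rfl
  rw [h4]
  refine h3.trans (mul_le_mul_of_nonneg_left (Real.rpow_le_rpow_of_exponent_le hx ?_) hC.le)
  have h5 : (1 : ℝ) / (8 * Q * 2 ^ Q) = 1 / (8 * Q) / 2 ^ Q := by
    rw [div_div]
  rw [h5]
  have h6 : (1 : ℝ) / (8 * Q) / 2 ^ Q ≤ 1 / (8 * Q) / 2 ^ q := by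
    refine div_le_div_of_nonneg_left (by positivity) (by positivity) ?_
    exact pow_le_pow_right₀ (by norm_num) hq
  linarith

end Pool.Agent.Lib.MP_570bef_ntM
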