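import Mathlib
import Pool.Agent.Lib.MP_570bef_ntM.IterW

/-!
# WeylB: `|V(β)| ≤ C P^(1-σ) (1 + |β|)` for `|β| ≥ P^(-θ+1/4)`

`σ = sg Q = 1/(8 Q 2^Q)`, `0 < σ ≤ 1/16 ≤ 1/4`.

* `weyl_pos`: let `1 < θ ≤ Q`. For each `q ≤ Q` take the constant `C_q` of `iter_w`, `C = ∑_{q ≤ Q} C_q` (choose by `Classical.choose` / `choose`). If `P^(-θ+1/4) ≤ β ≤ P^(1/4)` then
  `P^(1/4) ≤ β P^θ ≤ P^(Q+1/4)`. Let `P ≥ 1`. There is `q ≤ Q` with `P^(q+1/4) ≤ β P^θ ≤ P^(q+5/4)`: the greatest `q ≤ Q` with `P^(q+1/4) ≤ β P^θ` (`q = 0` works; `Nat.findGreatest`, or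
  induction on `Q`): if `q < Q`, `P^(q+1+1/4) > β P^θ` and `q + 1 + 1/4 = q + 5/4`; if `q = Q`, `β P^θ ≤ P^(Q+1/4) ≤ P^(Q+5/4)`.
* `weyl_all`: for `β < 0` use `VV θ P (-β) = conj (VV θ P β)` (`norm_sum_e_neg`), so `‖VV θ P β‖ = ‖VV θ P |β|‖`. If `|β| ≤ P^(1/4)` use `weyl_pos` and `1 ≤ 1 + |β|`.
  If `|β| > P^(1/4)`: trivially `‖VV‖ ≤ P` (`norm_sum_e_le`, `2P - P = P`) and `P = P^(1-1/4) P^(1/4) ≤ P^(1-σ) |β| ≤ P^(1-σ) (1+|β|)`. Constant `max C 1`.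
-/

set_option autoImplicit false

open Finset Real
open Pool.Agent.Lib.MP_2a816b_nt (e norm_e conj_e e_add e_neg)

namespace Pool.Agent.Lib.MP_570bef_ntM

private theorem WeylB_choose {P X : ℝ} (hP : 1 ≤ P) (hX : P ^ (1 / 4 : ℝ) ≤ X) (Q : ℕ) :
    X ≤ P ^ ((Q : ℝ) + 1 / 4) →
      ∃ q ≤ Q, P ^ ((q : ℝ) + 1 / 4) ≤ X ∧ X ≤ P ^ ((q : ℝ) + 5 / 4) := by
  induction Q with
  | zero =>
    intro h
    refine ⟨0, le_rfl, ?_, ?_⟩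
    · simpa using hX
    · refine h.trans (Real.rpow_le_rpow_of_exponent_le hP ?_)
      norm_num
  | succ Q ih =>
    intro h
    rcases le_total X (P ^ ((Q : ℝ) + 1 / 4)) with h1 | h1
    · obtain ⟨q, hq, h2, h3⟩ := ih h1
      exact ⟨q, hq.trans (Nat.le_succ Q), h2, h3⟩
    · refine ⟨Q, Nat.le_succ Q, h1, h.trans (le_of_eq ?_)⟩
      congr 1
      push_cast
      ring

theorem weyl_pos (Q : ℕ) (hQ : 1 ≤ Q) (θ : ℝ) (hθ : ∀ k : ℕ, θ ≠ k) (h1 : 1 < θ) (hθQ : θ ≤ Q) :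
    ∃ C : ℝ, 0 < C ∧ ∀ (P : ℕ) (β : ℝ), 1 ≤ P → (P : ℝ) ^ (-θ + 1 / 4) ≤ β →
      β ≤ (P : ℝ) ^ (1 / 4 : ℝ) → ‖VV θ P β‖ ≤ C * (P : ℝ) ^ (1 - 1 / (8 * Q * 2 ^ Q) : ℝ) := by
  have H : ∀ q : ℕ, ∃ C : ℝ, 0 < C ∧ (q ≤ Q → ∀ (P : ℕ) (β : ℝ), 1 ≤ P → 0 < β →
      (P : ℝ) ^ ((q : ℝ) + 1 / 4) ≤ β * (P : ℝ) ^ θ → β * (P : ℝ) ^ θ ≤ (P : ℝ) ^ ((q : ℝ) + 5 / 4) →
      ‖VV θ P β‖ ≤ C * (P : ℝ) ^ (1 - 1 / (8 * Q * 2 ^ Q) : ℝ)) := by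
    intro q
    by_cases hq : q ≤ Q
    · obtain ⟨C, hC, h⟩ := iter_w θ hθ Q q hQ hq
      exact ⟨C, hC, fun _ => h⟩
    · exact ⟨1, one_pos, fun h => absurd h hq⟩
  choose C hC0 hC using H
  refine ⟨∑ q ∈ range (Q + 1), C q, Finset.sum_pos (fun q _ => hC0 q) ⟨0, by simp⟩, ?_⟩
  intro P β hP hβ1 hβ2
  have hP1 : (1 : ℝ) ≤ (P : ℝ) := by exact_mod_cast hP
  have hP0 : (0 : ℝ) < (P : ℝ) := by linarith
  have hβ : 0 < β := lt_of_lt_of_le (Real.rpow_pos_of_pos hP0 _) hβ1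
  have hPθ : 0 < (P : ℝ) ^ θ := Real.rpow_pos_of_pos hP0 _
  have hX1 : (P : ℝ) ^ (1 / 4 : ℝ) ≤ β * (P : ℝ) ^ θ := by
    calc (P : ℝ) ^ (1 / 4 : ℝ) = (P : ℝ) ^ (-θ + 1 / 4) * (P : ℝ) ^ θ := by
          rw [← Real.rpow_add hP0]; congr 1; ring
      _ ≤ β * (P : ℝ) ^ θ := by gcongr
  have hX2 : β * (P : ℝ) ^ θ ≤ (P : ℝ) ^ ((Q : ℝ) + 1 / 4) := by
    calc β * (P : ℝ) ^ θ ≤ (P : ℝ) ^ (1 / 4 : ℝ) * (P : ℝ) ^ (Q : ℝ) := by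
          apply mul_le_mul hβ2 (Real.rpow_le_rpow_of_exponent_le hP1 hθQ) hPθ.le
          positivity
      _ = (P : ℝ) ^ ((Q : ℝ) + 1 / 4) := by
          rw [← Real.rpow_add hP0]; congr 1; ring
  obtain ⟨q, hq, h2, h3⟩ := WeylB_choose hP1 hX1 Q hX2
  refine (hC q hq P β hP hβ h2 h3).trans ?_
  apply mul_le_mul_of_nonneg_right _ (by positivity)
  exact Finset.single_le_sum (f := C) (fun i _ => (hC0 i).le) (Finset.mem_range.2 (by omega))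

theorem weyl_all (Q : ℕ) (hQ : 1 ≤ Q) (θ : ℝ) (hθ : ∀ k : ℕ, θ ≠ k) (h1 : 1 < θ) (hθQ : θ ≤ Q) :
    ∃ C : ℝ, 0 < C ∧ ∀ (P : ℕ) (β : ℝ), 1 ≤ P → (P : ℝ) ^ (-θ + 1 / 4) ≤ |β| →
      ‖VV θ P β‖ ≤ C * (P : ℝ) ^ (1 - 1 / (8 * Q * 2 ^ Q) : ℝ) * (1 + |β|) := by
  obtain ⟨C, hC0, hC⟩ := weyl_pos Q hQ θ hθ h1 hθQ
  refine ⟨max C 1, lt_max_of_lt_left hC0, ?_⟩
  intro P β hP hβ1
  have hP1 : (1 : ℝ) ≤ (P : ℝ) := by exact_mod_cast hP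
  have hP0 : (0 : ℝ) < (P : ℝ) := by linarith
  have hQ1 : (1 : ℝ) ≤ (Q : ℝ) := by exact_mod_cast hQ
  have hσ : (1 : ℝ) / (8 * Q * 2 ^ Q) ≤ 1 / 4 := by
    apply one_div_le_one_div_of_le (by norm_num)
    have : (1 : ℝ) ≤ 2 ^ Q := one_le_pow₀ (by norm_num)
    nlinarith
  have hneg : ‖VV θ P β‖ = ‖VV θ P |β|‖ := by
    rcases abs_cases β with ⟨h, _⟩ | ⟨h, _⟩
    · rw [h]
    · rw [h]
      unfold VV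
      rw [← norm_sum_e_neg (Ico P (2 * P)) (fun n => β * (n : ℝ) ^ θ)]
      congr 1
      refine Finset.sum_congr rfl fun n _ => ?_
      rw [neg_mul]
  have hPs : 0 < (P : ℝ) ^ (1 - 1 / (8 * Q * 2 ^ Q) : ℝ) := Real.rpow_pos_of_pos hP0 _
  have habs : 0 ≤ |β| := abs_nonneg β
  have hC1 : 0 < max C 1 := lt_max_of_lt_left hC0
  rcases le_total |β| ((P : ℝ) ^ (1 / 4 : ℝ)) with h | h
  · rw [hneg]
    calc ‖VV θ P |β|‖ ≤ C * (P : ℝ) ^ (1 - 1 / (8 * Q * 2 ^ Q) : ℝ) := hC P |β| hP hβ1 h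
      _ ≤ max C 1 * (P : ℝ) ^ (1 - 1 / (8 * Q * 2 ^ Q) : ℝ) := by
          gcongr
          exact le_max_left _ _
      _ ≤ max C 1 * (P : ℝ) ^ (1 - 1 / (8 * Q * 2 ^ Q) : ℝ) * (1 + |β|) := by
          apply le_mul_of_one_le_right (by positivity)
          linarith
  · have ht : ‖VV θ P β‖ ≤ (P : ℝ) := by
      have := norm_sum_e_le P (2 * P) (fun n => β * (n : ℝ) ^ θ)
      rw [show 2 * P - P = P by omega] at this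
      exact this
    calc ‖VV θ P β‖ ≤ (P : ℝ) := ht
      _ = (P : ℝ) ^ (1 - 1 / 4 : ℝ) * (P : ℝ) ^ (1 / 4 : ℝ) := by
          rw [← Real.rpow_add hP0]; norm_num
      _ ≤ (P : ℝ) ^ (1 - 1 / (8 * Q * 2 ^ Q) : ℝ) * |β| := by
          apply mul_le_mul _ h (by positivity) hPs.le
          exact Real.rpow_le_rpow_of_exponent_le hP1 (by linarith)
      _ ≤ (P : ℝ) ^ (1 - 1 / (8 * Q * 2 ^ Q) : ℝ) * (1 + |β|) := by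
          gcongr
          linarith
      _ = 1 * (P : ℝ) ^ (1 - 1 / (8 * Q * 2 ^ Q) : ℝ) * (1 + |β|) := by ring
      _ ≤ max C 1 * (P : ℝ) ^ (1 - 1 / (8 * Q * 2 ^ Q) : ℝ) * (1 + |β|) := by
          gcongr
          exact le_max_right _ _

end Pool.Agent.Lib.MP_570bef_ntM
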