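import Mathlib
import Pool.Agent.Lib.MP_570bef_ntM.SwA
import Pool.Agent.Lib.MP_570bef_ntM.WeylB

/-!
# SwB: the weighted sum with floors on the minor arcs

* `sw_expand`: `four_sum α (n^θ)` for `n ∈ Ico P (2P)` and `hasSum_sum`: `∑_n cw (α+h) e ((α+h) n^θ) = cw (α+h) VV θ P (α+h)` (`Finset.mul_sum`), and
  `(⌊n^θ⌋ : ℤ) = fl θ n` because `n^θ ≥ 0` (`natCast_floor_eq_intCast_floor` or `Int.natCast_floor_eq_floor`); `wt θ n = sin² (π n^θ)`.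
* `sw_minor`: let `0 < P^(-θ+1/4) ≤ α ≤ 1 - P^(-θ+1/4)`. For `h ∈ ℤ` `|α + h| ≥ P^(-θ+1/4)` (`h ≥ 0`: `α + h ≥ α`; `h ≤ -1`: `-(α+h) ≥ 1 - α`). So by `weyl_all` and `cw_norm`
  `‖cw (α+h) VV θ P (α+h)‖ ≤ 27/(1+|α+h|)^3 * C P^(1-σ) (1+|α+h|) = 27 C P^(1-σ)/(1+|α+h|)²`, and `inv_sum` gives `‖SW θ P α‖ ≤ 27 C C' P^(1-σ)`
  (`tsum_of_norm_bounded` or `norm_tsum_le_tsum_norm` with `sw_expand.tsum_eq`).
* `wt_sum`: `wt θ n = (1 - cos (2π n^θ))/2`, `cos (2π n^θ) = re (e (n^θ))`, so `∑_{Ico P (2P)} wt θ n = P/2 - re (VV θ P 1)/2 ≥ P/2 - ‖VV θ P 1‖/2`, and by `weyl_all` (`β = 1`,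
  `P^(-θ+1/4) ≤ 1`) `‖VV θ P 1‖ ≤ 2 C P^(1-σ) ≤ P/2` as soon as `P^σ ≥ 4C`.
* `wt_le`: `0 ≤ wt ≤ 1`.
-/

set_option autoImplicit false

open Finset Real
open Pool.Agent.Lib.MP_2a816b_nt (e norm_e conj_e e_add e_neg)

namespace Pool.Agent.Lib.MP_570bef_ntM

theorem wt_sum (Q : ℕ) (hQ : 1 ≤ Q) (θ : ℝ) (hθ : ∀ k : ℕ, θ ≠ k) (h1 : 1 < θ) (hθQ : θ ≤ Q) :
    ∃ P0 : ℕ, ∀ P : ℕ, P0 ≤ P → (P : ℝ) / 4 ≤ ∑ n ∈ Ico P (2 * P), wt θ n := by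
  obtain ⟨C, hC, hw⟩ := weyl_all Q hQ θ hθ h1 hθQ
  obtain ⟨σ, hσ⟩ : ∃ σ : ℝ, σ = 1 / (8 * Q * 2 ^ Q) := ⟨_, rfl⟩
  have hQ0 : (0 : ℝ) < Q := by exact_mod_cast hQ
  have hσ0 : 0 < σ := by
    rw [hσ]
    positivity
  have h2 : ∀ᶠ P : ℕ in Filter.atTop, 4 * C ≤ (P : ℝ) ^ σ :=
    ((tendsto_rpow_atTop hσ0).comp tendsto_natCast_atTop_atTop).eventually_ge_atTop (4 * C)
  obtain ⟨P0, hP0⟩ := (h2.and (Filter.eventually_ge_atTop 1)).exists_forall_of_atTop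
  refine ⟨P0, fun P hP => ?_⟩
  obtain ⟨h3, h4⟩ := hP0 P hP
  have hP1 : (1 : ℝ) ≤ P := by exact_mod_cast h4
  have hPpos : (0 : ℝ) < P := by linarith
  have h5 : ‖VV θ P 1‖ ≤ P / 2 := by
    have h6 := hw P 1 h4 (by
      rw [abs_one]
      exact Real.rpow_le_one_of_one_le_of_nonpos hP1 (by linarith))
    rw [← hσ, abs_one] at h6
    have h7 : (P : ℝ) = (P : ℝ) ^ (1 - σ) * (P : ℝ) ^ σ := by
      rw [← Real.rpow_add hPpos, sub_add_cancel, Real.rpow_one]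
    have h8 : (P : ℝ) ^ (1 - σ) * (4 * C) ≤ (P : ℝ) ^ (1 - σ) * (P : ℝ) ^ σ :=
      mul_le_mul_of_nonneg_left h3 (Real.rpow_nonneg hPpos.le _)
    rw [← h7] at h8
    linarith
  have h6 : ∀ n : ℕ, wt θ n = 1 / 2 - (e (1 * (n : ℝ) ^ θ)).re / 2 := by
    intro n
    have h7 : (e (1 * (n : ℝ) ^ θ)).re = Real.cos (2 * (π * (n : ℝ) ^ θ)) := by
      unfold e
      have h8 : (2 * (π : ℂ) * ((1 * (n : ℝ) ^ θ : ℝ) : ℂ) * Complex.I) =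
          ((2 * (π * (n : ℝ) ^ θ) : ℝ) : ℂ) * Complex.I := by
        push_cast
        ring
      rw [h8, Complex.exp_ofReal_mul_I_re]
    rw [h7, wt, Real.sin_sq_eq_half_sub]
  have h7 : ∑ n ∈ Ico P (2 * P), wt θ n = P / 2 - (VV θ P 1).re / 2 := by
    rw [Finset.sum_congr rfl fun n _ => h6 n, Finset.sum_sub_distrib, Finset.sum_const,
      Nat.card_Ico, ← Finset.sum_div, VV, Complex.re_sum]
    have h8 : 2 * P - P = P := by omega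
    rw [h8, nsmul_eq_mul]
    ring
  rw [h7]
  have h8 := (Complex.re_le_norm (VV θ P 1)).trans h5
  linarith

end Pool.Agent.Lib.MP_570bef_ntM
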