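import Mathlib
import Pool.Agent.Lib.MP_570bef_ntM.ParH
import Pool.Agent.Lib.MP_570bef_ntM.SwW
import Pool.Agent.Lib.MP_570bef_ntM.Cnt
import Pool.Agent.Lib.MP_570bef_ntM.CirC

/-!
# ParA: lower bound for the averaged number of representations

Let `C3 = 2 (2C + 2^θ) ≥ 8`, `P ≥ P0`, `C3 P^θ ≤ N ≤ C3 (2P)^θ`, `H = HH θ P = ⌈P^(θ-3/4)⌉₊`, `Y = YY θ N = ⌈(2N)^(1/θ)⌉₊`, `v t ≤ C P^θ`.

* For `t, t' ∈ T`, `n ∈ Ico P (2P)`: `S := v t + v t' + fl θ n ≤ 2C P^θ + (2P)^θ = (2C + 2^θ) P^θ ≤ N/2` (`Nat.floor_le`, `Real.mul_rpow`). Let `A = N - S ≥ N/2 ≥ 1`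
  (natural number, `S ≤ N`; `N ≥ C3 P^θ ≥ 8`). `N ≤ S + fl θ k ∧ S + fl θ k < N + H` iff `A ≤ fl θ k ∧ fl θ k < A + H`. `H ≤ P^(θ-3/4) + 1 ≤ 2 P^θ ≤ N`, so `A + H ≤ 2N`.
  `cnt_lower`: the number of such `k < Y` is `≥ (H/θ) (2N)^(1/θ-1) - 1`.
* `(2N)^(1/θ-1) ≥ (2 C3 (2P)^θ)^(1/θ-1) = (2 C3 2^θ)^(1/θ-1) P^(1-θ) =: c' P^(1-θ)` (exponent negative: `Real.rpow_le_rpow_of_nonpos`; `(P^θ)^(1/θ-1) = P^(1-θ)`).
  As `H ≥ P^(θ-3/4)`: `(H/θ) c' P^(1-θ) ≥ (c'/θ) P^(1/4) ≥ 2` for `P ≥ P0`; so the number is `≥ (c'/(2θ)) H P^(1-θ)`.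
* `avg_lower` with `c = (c'/(2θ)) H P^(1-θ)` and `wt_sum` (`∑ wt ≥ P/4`): `∑_{h<H} RR (N+h) ≥ (c'/(2θ)) H P^(1-θ) (#T)² P/4`. Divide by `H ≥ 1`: `c = c'/(8θ)`, `P^(1-θ) P = P^(2-θ)`.
-/

set_option autoImplicit false

open Finset Real

namespace Pool.Agent.Lib.MP_570bef_ntM

private theorem parA_pow (x a b : ℝ) (hx : 0 < x) : x ^ a * x ^ b = x ^ (a + b) :=
  (Real.rpow_add hx a b).symm

/-- the count for one triple -/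
private theorem parA_count (θ : ℝ) (h1 : 1 < θ) (C : ℝ) (hC : 1 ≤ C) (P N : ℕ) (hP : 1 ≤ P)
    (hN1 : 2 * (2 * C + 2 ^ θ) * (P : ℝ) ^ θ ≤ N) (a b n : ℕ) (ha : (a : ℝ) ≤ C * (P : ℝ) ^ θ)
    (hb : (b : ℝ) ≤ C * (P : ℝ) ^ θ) (hn : n ∈ Ico P (2 * P)) :
    (HH θ P : ℝ) / θ * (2 * (N : ℝ)) ^ (1 / θ - 1) - 1 ≤
      (#{k ∈ range (YY θ N) | N ≤ a + b + fl θ n + fl θ k ∧ a + b + fl θ n + fl θ k < N + HH θ P}
        : ℝ) := by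
  have hx : (1 : ℝ) ≤ P := by exact_mod_cast hP
  have hx0 : (0 : ℝ) < P := by linarith
  have hθ0 : 0 < θ := by linarith
  have hxθ : (1 : ℝ) ≤ (P : ℝ) ^ θ := Real.one_le_rpow hx hθ0.le
  have h2θ : (2 : ℝ) ≤ 2 ^ θ := by
    calc (2 : ℝ) = 2 ^ (1 : ℝ) := (Real.rpow_one 2).symm
      _ ≤ 2 ^ θ := Real.rpow_le_rpow_of_exponent_le (by norm_num) h1.le
  rw [Finset.mem_Ico] at hn
  have hfl : (fl θ n : ℝ) ≤ 2 ^ θ * (P : ℝ) ^ θ := by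
    have h2 : ((⌊(n : ℝ) ^ θ⌋₊ : ℕ) : ℝ) ≤ (n : ℝ) ^ θ := Nat.floor_le (by positivity)
    have h3 : (n : ℝ) ≤ 2 * P := by exact_mod_cast hn.2.le
    have h4 : (n : ℝ) ^ θ ≤ (2 * (P : ℝ)) ^ θ :=
      Real.rpow_le_rpow (Nat.cast_nonneg _) h3 hθ0.le
    rw [Real.mul_rpow (by norm_num) hx0.le] at h4
    exact h2.trans h4
  have hS : ((a + b + fl θ n : ℕ) : ℝ) ≤ (2 * C + 2 ^ θ) * (P : ℝ) ^ θ := by
    push_cast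
    nlinarith
  have hN8 : 8 * (P : ℝ) ^ θ ≤ N := by
    refine le_trans ?_ hN1
    refine mul_le_mul_of_nonneg_right ?_ (by linarith)
    linarith
  have hSN : 2 * ((a + b + fl θ n : ℕ) : ℝ) ≤ N := by linarith
  have hSN' : 2 * (a + b + fl θ n) ≤ N := by exact_mod_cast hSN
  have hN8' : (8 : ℝ) ≤ N := by linarith
  have hN8n : 8 ≤ N := by exact_mod_cast hN8'
  obtain ⟨hH1, hH2, hH3⟩ := hh_bounds θ h1 P hP
  have hH4 : (HH θ P : ℝ) ≤ N := by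
    have h5 : (P : ℝ) ^ (θ - 3 / 4) ≤ (P : ℝ) ^ θ :=
      Real.rpow_le_rpow_of_exponent_le hx (by linarith)
    linarith
  have hH5 : HH θ P ≤ N := by exact_mod_cast hH4
  have h6 := cnt_lower θ h1 (N - (a + b + fl θ n)) (HH θ P) (YY θ N) N (by omega) (by omega)
    (Nat.le_ceil _)
  refine h6.trans (le_of_eq ?_)
  congr 2
  refine Finset.filter_congr fun k _ => ?_
  constructor
  · intro h7
    omega
  · intro h7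
    omega

theorem avg_bound (Q : ℕ) (hQ : 1 ≤ Q) (θ : ℝ) (hθ : ∀ k : ℕ, θ ≠ k) (h1 : 1 < θ) (hθQ : θ ≤ Q)
    (C : ℝ) (hC : 1 ≤ C) :
    ∃ c : ℝ, 0 < c ∧ ∃ P0 : ℕ, ∀ P N : ℕ, P0 ≤ P → 2 * (2 * C + 2 ^ θ) * (P : ℝ) ^ θ ≤ N →
      (N : ℝ) ≤ 2 * (2 * C + 2 ^ θ) * (2 * (P : ℝ)) ^ θ →
      ∀ {ι : Type} (T : Finset ι) (v : ι → ℕ), (∀ t ∈ T, (v t : ℝ) ≤ C * (P : ℝ) ^ θ) →
      c * (#T : ℝ) ^ 2 * (P : ℝ) ^ (2 - θ) ≤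
        (∑ h ∈ range (HH θ P), RR T v (Ico P (2 * P)) (wt θ) (fl θ) (YY θ N) (N + h)) /
          (HH θ P : ℝ) := by
  obtain ⟨P1, hP1⟩ := wt_sum Q hQ θ hθ h1 hθQ
  have hθ0 : 0 < θ := by linarith
  have h2θ : (2 : ℝ) ≤ 2 ^ θ := by
    calc (2 : ℝ) = 2 ^ (1 : ℝ) := (Real.rpow_one 2).symm
      _ ≤ 2 ^ θ := Real.rpow_le_rpow_of_exponent_le (by norm_num) h1.le
  set C3 : ℝ := 2 * (2 * C + 2 ^ θ) with hC3
  have hC3p : 8 ≤ C3 := by rw [hC3]; linarith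
  set c' : ℝ := (2 * C3 * 2 ^ θ) ^ (1 / θ - 1) with hc'
  have hc'p : 0 < c' := Real.rpow_pos_of_pos (by positivity) _
  refine ⟨c' / (8 * θ), by positivity, max P1 (max 1 ⌈(2 * θ / c') ^ 4⌉₊), ?_⟩
  intro P N hP hN1 hN2 ι T v hv
  have hPa : P1 ≤ P := (le_max_left _ _).trans hP
  have hPb : 1 ≤ P := ((le_max_left _ _).trans (le_max_right _ _)).trans hP
  have hPc : ⌈(2 * θ / c') ^ 4⌉₊ ≤ P := ((le_max_right _ _).trans (le_max_right _ _)).trans hP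
  have hx : (1 : ℝ) ≤ P := by exact_mod_cast hPb
  have hx0 : (0 : ℝ) < P := by linarith
  have hxθ : (1 : ℝ) ≤ (P : ℝ) ^ θ := Real.one_le_rpow hx hθ0.le
  have hN1' : 1 ≤ N := by
    have : (1 : ℝ) ≤ N := by nlinarith
    exact_mod_cast this
  obtain ⟨hH1, hH2, hH3⟩ := hh_bounds θ h1 P hPb
  have hH0 : (0 : ℝ) < HH θ P := by
    have : (1 : ℝ) ≤ HH θ P := by exact_mod_cast hH1
    linarith
  have h14 : 2 * θ / c' ≤ (P : ℝ) ^ (1 / 4 : ℝ) := by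
    have h2 : (2 * θ / c') ^ 4 ≤ (P : ℝ) := (Nat.le_ceil _).trans (by exact_mod_cast hPc)
    have h3 : ((2 * θ / c') ^ 4) ^ (1 / 4 : ℝ) ≤ (P : ℝ) ^ (1 / 4 : ℝ) :=
      Real.rpow_le_rpow (by positivity) h2 (by norm_num)
    have h4 : ((2 * θ / c') ^ 4) ^ (1 / 4 : ℝ) = 2 * θ / c' := by
      rw [← Real.rpow_natCast, ← Real.rpow_mul (by positivity)]
      norm_num
    rwa [h4] at h3
  set c1 : ℝ := c' / (2 * θ) * HH θ P * (P : ℝ) ^ (1 - θ) with hc1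
  have hxp : 0 < (P : ℝ) ^ (1 - θ) := Real.rpow_pos_of_pos hx0 _
  have hc1' : 1 ≤ c1 := by
    have h5 : (P : ℝ) ^ (1 / 4 : ℝ) ≤ HH θ P * (P : ℝ) ^ (1 - θ) := by
      calc (P : ℝ) ^ (1 / 4 : ℝ) = (P : ℝ) ^ (θ - 3 / 4) * (P : ℝ) ^ (1 - θ) := by
            rw [parA_pow _ _ _ hx0]
            congr 1
            ring
        _ ≤ HH θ P * (P : ℝ) ^ (1 - θ) := mul_le_mul_of_nonneg_right hH2 hxp.le
    have h6 : 2 * θ / c' ≤ HH θ P * (P : ℝ) ^ (1 - θ) := h14.trans h5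
    rw [div_le_iff₀ hc'p] at h6
    rw [hc1, div_mul_eq_mul_div, div_mul_eq_mul_div, le_div_iff₀ (by positivity)]
    linarith
  have hc2 : c1 ≤ (HH θ P : ℝ) / θ * (2 * (N : ℝ)) ^ (1 / θ - 1) - 1 := by
    have h7 := two_n_pow θ C3 h1 (by linarith) P N hPb hN1' hN2
    have h8 : 2 * c1 = (HH θ P : ℝ) / θ * (c' * (P : ℝ) ^ (1 - θ)) := by
      rw [hc1]
      field_simp
    have h9 : (HH θ P : ℝ) / θ * (c' * (P : ℝ) ^ (1 - θ)) ≤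
        (HH θ P : ℝ) / θ * (2 * (N : ℝ)) ^ (1 / θ - 1) :=
      mul_le_mul_of_nonneg_left h7 (by positivity)
    linarith
  have h10 := avg_lower T v (Ico P (2 * P)) (wt θ) (fl θ) (YY θ N) N (HH θ P)
    (fun n => sq_nonneg _) c1 (fun t ht t' ht' n hn =>
      hc2.trans (parA_count θ h1 C hC P N hPb hN1 (v t) (v t') n (hv t ht) (hv t' ht') hn))
  have h11 := hP1 P hPa
  have h12 : c1 * (#T : ℝ) ^ 2 * ((P : ℝ) / 4) ≤ c1 * (#T : ℝ) ^ 2 * ∑ n ∈ Ico P (2 * P), wt θ n :=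
    mul_le_mul_of_nonneg_left h11 (by positivity)
  rw [le_div_iff₀ hH0]
  refine le_trans (le_of_eq ?_) (h12.trans h10)
  have h13 : (P : ℝ) ^ (2 - θ) = (P : ℝ) ^ (1 - θ) * P := by
    rw [show (2 - θ : ℝ) = 1 - θ + 1 by ring, Real.rpow_add hx0, Real.rpow_one]
  rw [h13, hc1]
  field_simp
  ring

end Pool.Agent.Lib.MP_570bef_ntM
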