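import Mathlib
import Pool.Agent.Lib.MP_570bef_ntM.ParH
import Pool.Agent.Lib.MP_570bef_ntM.SwA

/-!
# ParK: sup bound of the kernel

`σ = 1/(8 Q 2^Q) ≤ 1/16`. Let `P ≥ 1`, `1 ≤ N ≤ C3 (2P)^θ`, `0 ≤ α ≤ 1`, `H = HH θ P`, `Y = YY θ N`.

* `‖FY (fl θ) Y α‖ ≤ Y ≤ (2N)^(1/θ) + 1 ≤ (2 C3 2^θ)^(1/θ) P + 1 ≤ C6 P`, `C6 = (2 C3 2^θ)^(1/θ) + 1` (`Nat.ceil_lt_add_one`, `Real.rpow_le_rpow`, `(2 C3 (2P)^θ)^(1/θ) = (2 C3 2^θ)^(1/θ) P`).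
* `‖FW (Ico P (2P)) (wt θ) (fl θ) α‖ ≤ P` (`P` terms of norm `≤ 1`, `wt_mem`); it is `SW θ P α` by definition.
* If `α < P^(-θ+1/4)`: `dh_small` with `m = 0` and `hh_bounds`: `‖1 - DH‖ ≤ 2π H α ≤ 2π * 2 P^(θ-3/4) P^(-θ+1/4) = 4π P^(-1/2)`. If `α > 1 - P^(-θ+1/4)`: the same with `m = 1`. The product is
  `≤ P * C6 P * 4π P^(-1/2) = 4π C6 P^(3/2) ≤ 4π C6 P^(2-σ)`.
* Otherwise `sw_minor` and `dh_two`: `≤ C7 P^(1-σ) * C6 P * 2 = 2 C6 C7 P^(2-σ)`.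

`C8 = 4π C6 + 2 C6 C7`.
-/

set_option autoImplicit false

open Finset Real

namespace Pool.Agent.Lib.MP_570bef_ntM

theorem fy_le (θ C3 : ℝ) (h1 : 1 < θ) (hC : 0 < C3) (P N : ℕ) (α : ℝ) (hP : 1 ≤ P)
    (hN : (N : ℝ) ≤ C3 * (2 * (P : ℝ)) ^ θ) :
    ‖FY (fl θ) (YY θ N) α‖ ≤ ((2 * C3 * 2 ^ θ) ^ (1 / θ) + 1) * P := by
  have hP1 : (1 : ℝ) ≤ P := by exact_mod_cast hP
  have hP0 : (0 : ℝ) < P := by linarith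
  have hθ0 : 0 < θ := by linarith
  have h2θ : (0 : ℝ) < 2 ^ θ := Real.rpow_pos_of_pos (by norm_num) θ
  have hPθ : (0 : ℝ) < (P : ℝ) ^ θ := Real.rpow_pos_of_pos hP0 θ
  have hN0 : (0 : ℝ) ≤ N := Nat.cast_nonneg N
  have hle : 2 * (N : ℝ) ≤ 2 * C3 * 2 ^ θ * (P : ℝ) ^ θ := by
    rw [Real.mul_rpow (by norm_num) hP0.le] at hN
    nlinarith
  have h3 : (2 * (N : ℝ)) ^ (1 / θ) ≤ (2 * C3 * 2 ^ θ) ^ (1 / θ) * P := by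
    have h4 := Real.rpow_le_rpow (by positivity) hle (by positivity : 0 ≤ 1 / θ)
    rw [Real.mul_rpow (by positivity) hPθ.le, ← Real.rpow_mul hP0.le] at h4
    have e1 : θ * (1 / θ) = 1 := by
      field_simp
    rw [e1, Real.rpow_one] at h4
    exact h4
  have h5 : ‖FY (fl θ) (YY θ N) α‖ ≤ (YY θ N : ℝ) := by
    unfold FY
    refine (norm_sum_le _ _).trans ?_
    have : ∀ k ∈ range (YY θ N), ‖Pool.Agent.Lib.MP_2a816b_nt.e (α * (fl θ k : ℕ))‖ ≤ 1 := fun k _ =>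
      (Pool.Agent.Lib.MP_2a816b_nt.norm_e _).le
    refine (Finset.sum_le_card_nsmul _ _ 1 this).trans (le_of_eq ?_)
    simp
  refine h5.trans ?_
  unfold YY
  have h6 := Nat.ceil_lt_add_one (a := (2 * (N : ℝ)) ^ (1 / θ)) (by positivity)
  have e2 : ((2 * C3 * 2 ^ θ) ^ (1 / θ) + 1) * (P : ℝ) = (2 * C3 * 2 ^ θ) ^ (1 / θ) * P + P := by ring
  rw [e2]
  linarith

theorem fw_le (θ : ℝ) (P : ℕ) (α : ℝ) : ‖FW (Ico P (2 * P)) (wt θ) (fl θ) α‖ ≤ P := by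
  unfold FW
  refine (norm_sum_le _ _).trans ?_
  have : ∀ n ∈ Ico P (2 * P), ‖((wt θ n : ℝ) : ℂ) * Pool.Agent.Lib.MP_2a816b_nt.e (α * (fl θ n : ℕ))‖ ≤ 1 := by
    intro n _
    obtain ⟨h1, h2⟩ := wt_mem θ n
    rw [norm_mul, Pool.Agent.Lib.MP_2a816b_nt.norm_e, mul_one, Complex.norm_real, Real.norm_of_nonneg h1]
    exact h2
  refine (Finset.sum_le_card_nsmul _ _ 1 this).trans (le_of_eq ?_)
  rw [Nat.card_Ico, nsmul_eq_mul, mul_one]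
  congr 1
  omega

end Pool.Agent.Lib.MP_570bef_ntM
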