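import Mathlib
import Pool.Agent.Lib.MP_570bef_ntM.SwA
import Pool.Agent.Lib.MP_570bef_ntM.WeylB

/-!
# SwB: the weighted sum with floors on the minor arcs

* `sw_expand`: `four_sum α (n^θ)` for `n ∈ Ico P (2P)` and `hasSum_sum`: `∑_n cw (α+h) e ((α+h) n^θ) = cw (α+h) VV θ P (α+h)` (`Finset.mul_sum`), and
  `(⌊n^θ⌋ : ℤ) = fl θ n` because `n^θ ≥ 0` (`natCast_floor_eq_intCast_floor` or `Int.natCast_floor_eq_floor`); `wt θ n = sin² (π n^θ)`.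
* `sw_minor`: let `0 < P^(-θ+1/4) ≤ α ≤ 1 - P^(-θ+1/4)`. For `h ∈ ℤ` `|α + h| ≥ P^(-θ+1/4)` (`h ≥ 0`: `α + h ≥ α`; `h ≤ -1`: `-(α+h) ≥ 1 - α`). So by `weyl_all` and `cw_norm`
  `‖cw (α+h) VV θ P (α+h)‖ ≤ 27/(1+|α+h|)^3 * C P^(1-σ) (1+|α+h|) = 27 C P^(1-σ)/(1+|α+h|)²`, and `inv_sum` gives `‖SW θ P α‖ ≤ 27 C C' P^(1-σ)`
  (`tsum_of_norm_bounded` or `norm_tsum_le_tsum_norm` with `sw_expand.tsum_eq`).
* `wt_sum`: `wt θ n = (1 - cos (2π n^θ))/2`, `cos (2π n^θ) = re (e (n^θ))`, so `∑_{Ico P (2P)} wt θ n = P/2 - re (VV θ P 1)/2 ≥ P/2 - ‖VV θ P 1‖/2`, and by `weyl_all` (`β = 1`,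
  `P^(-θ+1/4) ≤ 1`) `‖VV θ P 1‖ ≤ 2 C P^(1-σ) ≤ P/2` as soon as `P^σ ≥ 4C`.
* `wt_le`: `0 ≤ wt ≤ 1`.
-/

set_option autoImplicit false

open Finset Real
open Pool.Agent.Lib.MP_2a816b_nt (e norm_e conj_e e_add e_neg)

namespace Pool.Agent.Lib.MP_570bef_ntM

theorem sw_minor (Q : ℕ) (hQ : 1 ≤ Q) (θ : ℝ) (hθ : ∀ k : ℕ, θ ≠ k) (h1 : 1 < θ) (hθQ : θ ≤ Q) :
    ∃ C : ℝ, 0 < C ∧ ∀ (P : ℕ) (α : ℝ), 1 ≤ P → (P : ℝ) ^ (-θ + 1 / 4) ≤ α →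
      α ≤ 1 - (P : ℝ) ^ (-θ + 1 / 4) →
      ‖SW θ P α‖ ≤ C * (P : ℝ) ^ (1 - 1 / (8 * Q * 2 ^ Q) : ℝ) := by
  obtain ⟨C, hC, hW⟩ := weyl_all Q hQ θ hθ h1 hθQ
  obtain ⟨C', hC', hS⟩ := inv_sum
  refine ⟨27 * C * C', by positivity, fun P α hP hlo hhi => ?_⟩
  have hP1 : (1 : ℝ) ≤ P := by exact_mod_cast hP
  have hP0 : (0 : ℝ) < P := by linarith
  have hpp : 0 < (P : ℝ) ^ (-θ + 1 / 4) := Real.rpow_pos_of_pos hP0 _
  have hα0 : 0 ≤ α := by linarith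
  have hα1 : α ≤ 1 := by linarith
  obtain ⟨hsum, hsum2⟩ := hS α hα0 hα1
  set D : ℝ := (P : ℝ) ^ (1 - 1 / (8 * Q * 2 ^ Q) : ℝ) with hD
  have hD0 : 0 ≤ D := by positivity
  have hterm : ∀ h : ℤ, ‖cw (α + h) * VV θ P (α + h)‖ ≤ 27 * C * D * (1 / (1 + |α + h|) ^ 2) := by
    intro h
    have habs : (P : ℝ) ^ (-θ + 1 / 4) ≤ |α + h| := by
      rcases le_or_gt 0 h with h0 | h0
      · have h2 : (0 : ℝ) ≤ h := by exact_mod_cast h0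
        rw [abs_of_nonneg (by linarith)]
        linarith
      · have h2 : (h : ℝ) ≤ -1 := by
          have : h ≤ -1 := by omega
          exact_mod_cast this
        have h3 := neg_le_abs (α + h)
        linarith
    have h3 := hW P (α + h) hP habs
    have h4 := cw_norm (α + h)
    have h5 : 0 ≤ |α + h| := abs_nonneg _
    rw [norm_mul]
    calc ‖cw (α + h)‖ * ‖VV θ P (α + h)‖ ≤ 27 / (1 + |α + h|) ^ 3 * (C * D * (1 + |α + h|)) :=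
          mul_le_mul h4 h3 (norm_nonneg _) (by positivity)
      _ = 27 * C * D * (1 / (1 + |α + h|) ^ 2) := by
          field_simp
  have hg : HasSum (fun h : ℤ => 27 * C * D * (1 / (1 + |α + h|) ^ 2))
      (27 * C * D * ∑' h : ℤ, 1 / (1 + |α + h|) ^ 2) := hsum.hasSum.mul_left _
  have hx := sw_expand θ P α
  rw [← hx.tsum_eq]
  refine (tsum_of_norm_bounded hg hterm).trans ?_
  calc 27 * C * D * ∑' h : ℤ, 1 / (1 + |α + h|) ^ 2 ≤ 27 * C * D * C' :=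
        mul_le_mul_of_nonneg_left hsum2 (by positivity)
    _ = 27 * C * C' * D := by ring

end Pool.Agent.Lib.MP_570bef_ntM
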