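import Mathlib
import Pool.Agent.Lib.MP_570bef_ntM.ParF
import Pool.Agent.Lib.MP_570bef_ntM.SwM
import Pool.Agent.Lib.MP_570bef_ntM.CirA

/-!
# ParK: sup bound of the kernel

`σ = 1/(8 Q 2^Q) ≤ 1/16`. Let `P ≥ 1`, `1 ≤ N ≤ C3 (2P)^θ`, `0 ≤ α ≤ 1`, `H = HH θ P`, `Y = YY θ N`.

* `‖FY (fl θ) Y α‖ ≤ Y ≤ (2N)^(1/θ) + 1 ≤ (2 C3 2^θ)^(1/θ) P + 1 ≤ C6 P`, `C6 = (2 C3 2^θ)^(1/θ) + 1` (`Nat.ceil_lt_add_one`, `Real.rpow_le_rpow`, `(2 C3 (2P)^θ)^(1/θ) = (2 C3 2^θ)^(1/θ) P`).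
* `‖FW (Ico P (2P)) (wt θ) (fl θ) α‖ ≤ P` (`P` terms of norm `≤ 1`, `wt_mem`); it is `SW θ P α` by definition.
* If `α < P^(-θ+1/4)`: `dh_small` with `m = 0` and `hh_bounds`: `‖1 - DH‖ ≤ 2π H α ≤ 2π * 2 P^(θ-3/4) P^(-θ+1/4) = 4π P^(-1/2)`. If `α > 1 - P^(-θ+1/4)`: the same with `m = 1`. The product is
  `≤ P * C6 P * 4π P^(-1/2) = 4π C6 P^(3/2) ≤ 4π C6 P^(2-σ)`.
* Otherwise `sw_minor` and `dh_two`: `≤ C7 P^(1-σ) * C6 P * 2 = 2 C6 C7 P^(2-σ)`.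

`C8 = 4π C6 + 2 C6 C7`.
-/

set_option autoImplicit false

open Finset Real

namespace Pool.Agent.Lib.MP_570bef_ntM

private theorem park_small (θ : ℝ) (h1 : 1 < θ) (P : ℕ) (hP : 1 ≤ P) (α : ℝ) (m : ℤ)
    (h : |α - m| ≤ (P : ℝ) ^ (-θ + 1 / 4)) :
    ‖1 - DH (HH θ P) α‖ ≤ 4 * π * (P : ℝ) ^ (-(1 / 2 : ℝ)) := by
  obtain ⟨hb1, -, hb3⟩ := hh_bounds θ h1 P hP
  have hp : (0 : ℝ) < P := by exact_mod_cast hP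
  have hH0 : (0 : ℝ) ≤ (HH θ P : ℝ) := Nat.cast_nonneg _
  have hq : 0 ≤ (P : ℝ) ^ (-θ + 1 / 4) := Real.rpow_nonneg hp.le _
  have hr : 0 ≤ 2 * (P : ℝ) ^ (θ - 3 / 4) := by positivity
  calc ‖1 - DH (HH θ P) α‖ ≤ 2 * π * (HH θ P) * |α - m| := dh_small _ hb1 α m
    _ ≤ 2 * π * (2 * (P : ℝ) ^ (θ - 3 / 4)) * (P : ℝ) ^ (-θ + 1 / 4) := by
        have e1 : 2 * π * (HH θ P) ≤ 2 * π * (2 * (P : ℝ) ^ (θ - 3 / 4)) :=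
          mul_le_mul_of_nonneg_left hb3 (by positivity)
        exact mul_le_mul e1 h (abs_nonneg _) (by positivity)
    _ = 4 * π * ((P : ℝ) ^ (θ - 3 / 4) * (P : ℝ) ^ (-θ + 1 / 4)) := by ring
    _ = 4 * π * (P : ℝ) ^ (-(1 / 2 : ℝ)) := by
        rw [← Real.rpow_add hp]
        congr 2
        ring

private theorem park_sigma (Q : ℕ) (hQ : 1 ≤ Q) : (1 / (8 * Q * 2 ^ Q) : ℝ) ≤ 1 / 2 := by
  have hQ' : (1 : ℝ) ≤ Q := by exact_mod_cast hQ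
  have h2 : (1 : ℝ) ≤ 2 ^ Q := one_le_pow₀ (by norm_num)
  have h3 : (1 : ℝ) ≤ Q * 2 ^ Q := by nlinarith
  apply one_div_le_one_div_of_le (by norm_num)
  nlinarith

theorem kernel_bound (Q : ℕ) (hQ : 1 ≤ Q) (θ : ℝ) (hθ : ∀ k : ℕ, θ ≠ k) (h1 : 1 < θ) (hθQ : θ ≤ Q)
    (C3 : ℝ) (hC : 0 < C3) :
    ∃ C8 : ℝ, 0 < C8 ∧ ∀ (P N : ℕ) (α : ℝ), 1 ≤ P → (N : ℝ) ≤ C3 * (2 * (P : ℝ)) ^ θ →
      0 ≤ α → α ≤ 1 →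
      ‖FW (Ico P (2 * P)) (wt θ) (fl θ) α‖ * ‖FY (fl θ) (YY θ N) α‖ * ‖1 - DH (HH θ P) α‖ ≤
        C8 * (P : ℝ) ^ (2 - 1 / (8 * Q * 2 ^ Q) : ℝ) := by
  obtain ⟨C7, hC7, h7⟩ := sw_minor Q hQ θ hθ h1 hθQ
  have hC6 : 0 < (2 * C3 * 2 ^ θ) ^ (1 / θ) + 1 := by
    have : 0 ≤ (2 * C3 * 2 ^ θ) ^ (1 / θ) := Real.rpow_nonneg (by positivity) _
    linarith
  obtain ⟨C6, hC6e⟩ : ∃ C6, C6 = (2 * C3 * 2 ^ θ) ^ (1 / θ) + 1 := ⟨_, rfl⟩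
  rw [← hC6e] at hC6
  refine ⟨4 * π * C6 + 2 * C6 * C7, by positivity, ?_⟩
  intro P N α hP hN hα0 hα1
  have hp1 : (1 : ℝ) ≤ P := by exact_mod_cast hP
  have hp : (0 : ℝ) < P := by linarith
  have hσ := park_sigma Q hQ
  have hy : ‖FY (fl θ) (YY θ N) α‖ ≤ C6 * P := by
    rw [hC6e]
    exact fy_le θ C3 h1 hC P N α hP hN
  have hw : ‖FW (Ico P (2 * P)) (wt θ) (fl θ) α‖ ≤ P := fw_le θ P α
  have hW0 := norm_nonneg (FW (Ico P (2 * P)) (wt θ) (fl θ) α)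
  have hY0 := norm_nonneg (FY (fl θ) (YY θ N) α)
  have hD0 := norm_nonneg (1 - DH (HH θ P) α)
  have hps : 0 ≤ (P : ℝ) ^ (2 - 1 / (8 * Q * 2 ^ Q) : ℝ) := Real.rpow_nonneg hp.le _
  have major : ∀ m : ℤ, |α - m| ≤ (P : ℝ) ^ (-θ + 1 / 4) →
      ‖FW (Ico P (2 * P)) (wt θ) (fl θ) α‖ * ‖FY (fl θ) (YY θ N) α‖ * ‖1 - DH (HH θ P) α‖ ≤
        (4 * π * C6 + 2 * C6 * C7) * (P : ℝ) ^ (2 - 1 / (8 * Q * 2 ^ Q) : ℝ) := by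
    intro m hm
    have hd := park_small θ h1 P hP α m hm
    have e1 : ‖FW (Ico P (2 * P)) (wt θ) (fl θ) α‖ * ‖FY (fl θ) (YY θ N) α‖ ≤ P * (C6 * P) :=
      mul_le_mul hw hy hY0 hp.le
    have e2 : ‖FW (Ico P (2 * P)) (wt θ) (fl θ) α‖ * ‖FY (fl θ) (YY θ N) α‖ *
        ‖1 - DH (HH θ P) α‖ ≤ P * (C6 * P) * (4 * π * (P : ℝ) ^ (-(1 / 2 : ℝ))) :=
      mul_le_mul e1 hd hD0 (by positivity)
    have e3 : (P : ℝ) * (C6 * P) * (4 * π * (P : ℝ) ^ (-(1 / 2 : ℝ))) =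
        4 * π * C6 * (P : ℝ) ^ (3 / 2 : ℝ) := by
      have : (P : ℝ) ^ (3 / 2 : ℝ) = P * P * (P : ℝ) ^ (-(1 / 2 : ℝ)) := by
        have h2 : (P : ℝ) * P = (P : ℝ) ^ (2 : ℝ) := by
          rw [Real.rpow_two]; ring
        rw [h2, ← Real.rpow_add hp]
        congr 1
        norm_num
      rw [this]
      ring
    have e4 : (P : ℝ) ^ (3 / 2 : ℝ) ≤ (P : ℝ) ^ (2 - 1 / (8 * Q * 2 ^ Q) : ℝ) :=
      Real.rpow_le_rpow_of_exponent_le hp1 (by linarith)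
    have e5 : 0 ≤ 2 * C6 * C7 * (P : ℝ) ^ (2 - 1 / (8 * Q * 2 ^ Q) : ℝ) := by positivity
    have e6 : 4 * π * C6 * (P : ℝ) ^ (3 / 2 : ℝ) ≤
        4 * π * C6 * (P : ℝ) ^ (2 - 1 / (8 * Q * 2 ^ Q) : ℝ) :=
      mul_le_mul_of_nonneg_left e4 (by positivity)
    rw [add_mul]
    linarith [e2, e3, e6, e5]
  rcases lt_or_ge α ((P : ℝ) ^ (-θ + 1 / 4)) with hlt | hge
  · apply major 0
    rw [Int.cast_zero, sub_zero, abs_of_nonneg hα0]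
    exact hlt.le
  · rcases lt_or_ge (1 - (P : ℝ) ^ (-θ + 1 / 4)) α with hlt2 | hge2
    · apply major 1
      rw [Int.cast_one, abs_le]
      constructor
      · linarith
      · linarith [Real.rpow_nonneg hp.le (-θ + 1 / 4)]
    · have hs : ‖FW (Ico P (2 * P)) (wt θ) (fl θ) α‖ ≤
          C7 * (P : ℝ) ^ (1 - 1 / (8 * Q * 2 ^ Q) : ℝ) := h7 P α hP hge hge2
      obtain ⟨hb1, -, -⟩ := hh_bounds θ h1 P hP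
      have hd : ‖1 - DH (HH θ P) α‖ ≤ 2 := dh_two _ hb1 α
      have e1 : ‖FW (Ico P (2 * P)) (wt θ) (fl θ) α‖ * ‖FY (fl θ) (YY θ N) α‖ ≤
          C7 * (P : ℝ) ^ (1 - 1 / (8 * Q * 2 ^ Q) : ℝ) * (C6 * P) :=
        mul_le_mul hs hy hY0 (by positivity)
      have e2 : ‖FW (Ico P (2 * P)) (wt θ) (fl θ) α‖ * ‖FY (fl θ) (YY θ N) α‖ *
          ‖1 - DH (HH θ P) α‖ ≤ C7 * (P : ℝ) ^ (1 - 1 / (8 * Q * 2 ^ Q) : ℝ) * (C6 * P) * 2 :=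
        mul_le_mul e1 hd hD0 (by positivity)
      have e3 : (P : ℝ) ^ (2 - 1 / (8 * Q * 2 ^ Q) : ℝ) =
          (P : ℝ) ^ (1 - 1 / (8 * Q * 2 ^ Q) : ℝ) * P := by
        have h2 : (2 - 1 / (8 * Q * 2 ^ Q) : ℝ) = (1 - 1 / (8 * Q * 2 ^ Q) : ℝ) + 1 := by ring
        rw [h2, Real.rpow_add hp, Real.rpow_one]
      have e4 : C7 * (P : ℝ) ^ (1 - 1 / (8 * Q * 2 ^ Q) : ℝ) * (C6 * P) * 2 =
          2 * C6 * C7 * (P : ℝ) ^ (2 - 1 / (8 * Q * 2 ^ Q) : ℝ) := by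
        rw [e3]
        ring
      have e5 : 0 ≤ 4 * π * C6 * (P : ℝ) ^ (2 - 1 / (8 * Q * 2 ^ Q) : ℝ) := by positivity
      rw [add_mul]
      linarith [e2, e4, e5]

end Pool.Agent.Lib.MP_570bef_ntM
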