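import Mathlib
import Pool.Agent.Lib.MP_570bef_ntM.BigM
import Pool.Agent.Lib.MP_570bef_ntM.ParA
import Pool.Agent.Lib.MP_570bef_ntM.ParK
import Pool.Agent.Lib.MP_570bef_ntM.CirB

/-!
# ParO: one scale, and all large `N`

* `big_mod`: `M = 1 + N + H + 2 ∑_{t∈T} v t + ∑_{n∈W} g n + ∑_{k<Y} g k + 1` (`Finset.single_le_sum`).
* `one_scale`: `σ = 1/(8 Q 2^Q)`, `C3 = 2 (2C + 2^θ)`, `W = Ico P (2P)`, `H = HH θ P`, `Y = YY θ N`, `M` from `big_mod`. For `j < M`, `α = j/M ∈ [0,1]`; `kernel_bound` gives the hypothesis of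
  `circle_ineq` with `B = C8 P^(2-σ)`. So with `avg_bound`
  `RR N ≥ c (#T)² P^(2-θ) - C8 P^(2-σ) (#T)² P^(-θ+σ/2) = (#T)² P^(2-θ) (c - C8 P^(-σ/2)) > 0` for `P ≥ P0` (`1/(16 Q 2^Q) = σ/2`; `P^(-σ/2) → 0`: `tendsto_rpow_neg_atTop`), `#T ≥ 1`.
* `scale`: `x_m = C3 (2^m)^θ` is strictly increasing and tends to infinity (`(2^m)^θ = (2^θ)^m`, `2^θ > 1`). `N0` with `N0 ≥ x_(m0)`. For `N ≥ N0` let `m` be the greatest with `x_m ≤ N` (`Nat.findGreatest`, or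
  `exists_nat_pow_near`-type for the real number `N/C3 ≥ 1` and the base `2^θ > 1`: `exists_nat_pow_near : 1 ≤ x → 1 < y → ∃ n, y^n ≤ x ∧ x < y^(n+1)`; then `m ≥ m0` by monotonicity).
* `circle`: combine. `C ≥ 1` may be assumed (replace `C` by `max C 1`), `P = 2^m` (`((2^m : ℕ) : ℝ) = 2^m`), `(2 * P)^θ = (2^(m+1))^θ`. Choose `m0` such that the hypothesis `hT` holds and
  `2^m ≥ m ≥ P0` for `m ≥ m0`. `rr_pos` gives the representation.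
-/

set_option autoImplicit false

open Finset Real

namespace Pool.Agent.Lib.MP_570bef_ntM

theorem one_scale (Q : ℕ) (hQ : 1 ≤ Q) (θ : ℝ) (hθ : ∀ k : ℕ, θ ≠ k) (h1 : 1 < θ) (hθQ : θ ≤ Q)
    (C : ℝ) (hC : 1 ≤ C) :
    ∃ P0 : ℕ, ∀ P N : ℕ, P0 ≤ P → 2 * (2 * C + 2 ^ θ) * (P : ℝ) ^ θ ≤ N →
      (N : ℝ) ≤ 2 * (2 * C + 2 ^ θ) * (2 * (P : ℝ)) ^ θ →
      ∀ {ι : Type} (T : Finset ι) (v : ι → ℕ), T.Nonempty → (∀ t ∈ T, (v t : ℝ) ≤ C * (P : ℝ) ^ θ) →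
      (JT T v : ℝ) ≤ (#T : ℝ) ^ 2 * (P : ℝ) ^ (-θ + 1 / (16 * Q * 2 ^ Q) : ℝ) →
      0 < RR T v (Ico P (2 * P)) (wt θ) (fl θ) (YY θ N) N := by
  obtain ⟨c, hc, P1, havg⟩ := avg_bound Q hQ θ hθ h1 hθQ C hC
  have h2θ : (0 : ℝ) < 2 ^ θ := Real.rpow_pos_of_pos (by norm_num) θ
  have hC3 : (0 : ℝ) < 2 * (2 * C + 2 ^ θ) := by linarith
  obtain ⟨C8, hC8, hker⟩ := kernel_bound Q hQ θ hθ h1 hθQ _ hC3
  have hQ0 : (0 : ℝ) < Q := by exact_mod_cast hQ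
  obtain ⟨τ, hτ⟩ : ∃ τ : ℝ, τ = 1 / (16 * Q * 2 ^ Q) := ⟨_, rfl⟩
  have hτ0 : 0 < τ := by
    rw [hτ]
    positivity
  have hτ2 : (1 / (8 * Q * 2 ^ Q) : ℝ) = 2 * τ := by
    rw [hτ]
    field_simp
    ring
  have hlim : ∀ᶠ P : ℕ in Filter.atTop, C8 * (P : ℝ) ^ (-τ) < c := by
    have h3 : Filter.Tendsto (fun P : ℕ => C8 * (P : ℝ) ^ (-τ)) Filter.atTop (nhds (C8 * 0)) :=
      ((tendsto_rpow_neg_atTop hτ0).comp tendsto_natCast_atTop_atTop).const_mul C8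
    rw [mul_zero] at h3
    exact h3.eventually (gt_mem_nhds hc)
  obtain ⟨P2, hP2⟩ := Filter.eventually_atTop.1 hlim
  refine ⟨max (max P1 P2) 1, fun P N hP hN1 hN2 ι T v hTne hv hJ => ?_⟩
  have hPP1 : P1 ≤ P := (le_max_left _ _).trans ((le_max_left _ _).trans hP)
  have hPP2 : P2 ≤ P := (le_max_right _ _).trans ((le_max_left _ _).trans hP)
  have hPone : 1 ≤ P := (le_max_right _ _).trans hP
  have hP0 : (0 : ℝ) < P := by exact_mod_cast hPone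
  obtain ⟨hH, -, -⟩ := hh_bounds θ h1 P hPone
  obtain ⟨M, hM1, hM2, hM3, hM4⟩ := big_mod T v (Ico P (2 * P)) (fl θ) (YY θ N) N (HH θ P)
  have hMpos : (0 : ℝ) < M := by exact_mod_cast hM1
  have hcir := circle_ineq T v (Ico P (2 * P)) (wt θ) (fl θ) (YY θ N) M N (HH θ P) hM1 hH hM2 hM4
    hM3 (C8 * (P : ℝ) ^ (2 - 1 / (8 * Q * 2 ^ Q) : ℝ)) (fun j hj => by
      rw [mem_range] at hj
      refine hker P N ((j : ℝ) / M) hPone hN2 (by positivity) ?_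
      rw [div_le_one hMpos]
      exact_mod_cast hj.le)
  have havg' := havg P N hPP1 hN1 hN2 T v hv
  rw [← hτ] at hJ
  rw [hτ2] at hcir
  have hlo := (abs_le.1 hcir).1
  have hpow : (P : ℝ) ^ (2 - 2 * τ) * (P : ℝ) ^ (-θ + τ) = (P : ℝ) ^ (2 - θ) * (P : ℝ) ^ (-τ) := by
    rw [← Real.rpow_add hP0, ← Real.rpow_add hP0]
    congr 1
    ring
  have hA : (0 : ℝ) < (P : ℝ) ^ (2 - 2 * τ) := Real.rpow_pos_of_pos hP0 _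
  have hB : (0 : ℝ) < (P : ℝ) ^ (2 - θ) := Real.rpow_pos_of_pos hP0 _
  have hT0 : (0 : ℝ) < (#T : ℝ) ^ 2 := by
    have : 0 < #T := hTne.card_pos
    positivity
  have h5 : C8 * (P : ℝ) ^ (2 - 2 * τ) * (JT T v : ℝ) ≤
      (#T : ℝ) ^ 2 * (P : ℝ) ^ (2 - θ) * (C8 * (P : ℝ) ^ (-τ)) := by
    calc C8 * (P : ℝ) ^ (2 - 2 * τ) * (JT T v : ℝ)
        ≤ C8 * (P : ℝ) ^ (2 - 2 * τ) * ((#T : ℝ) ^ 2 * (P : ℝ) ^ (-θ + τ)) :=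
          mul_le_mul_of_nonneg_left hJ (by positivity)
      _ = (#T : ℝ) ^ 2 * C8 * ((P : ℝ) ^ (2 - 2 * τ) * (P : ℝ) ^ (-θ + τ)) := by ring
      _ = (#T : ℝ) ^ 2 * (P : ℝ) ^ (2 - θ) * (C8 * (P : ℝ) ^ (-τ)) := by
          rw [hpow]
          ring
  have h6 : (#T : ℝ) ^ 2 * (P : ℝ) ^ (2 - θ) * (C8 * (P : ℝ) ^ (-τ)) <
      (#T : ℝ) ^ 2 * (P : ℝ) ^ (2 - θ) * c :=
    mul_lt_mul_of_pos_left (hP2 P hPP2) (by positivity)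
  have h7 : c * (#T : ℝ) ^ 2 * (P : ℝ) ^ (2 - θ) = (#T : ℝ) ^ 2 * (P : ℝ) ^ (2 - θ) * c := by ring
  rw [h7] at havg'
  linarith

end Pool.Agent.Lib.MP_570bef_ntM
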