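import Mathlib
import Pool.Agent.Lib.MP_570bef_ntM.ParO

/-!
# ParO: one scale, and all large `N`

* `big_mod`: `M = 1 + N + H + 2 ∑_{t∈T} v t + ∑_{n∈W} g n + ∑_{k<Y} g k + 1` (`Finset.single_le_sum`).
* `one_scale`: `σ = 1/(8 Q 2^Q)`, `C3 = 2 (2C + 2^θ)`, `W = Ico P (2P)`, `H = HH θ P`, `Y = YY θ N`, `M` from `big_mod`. For `j < M`, `α = j/M ∈ [0,1]`; `kernel_bound` gives the hypothesis of
  `circle_ineq` with `B = C8 P^(2-σ)`. So with `avg_bound`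
  `RR N ≥ c (#T)² P^(2-θ) - C8 P^(2-σ) (#T)² P^(-θ+σ/2) = (#T)² P^(2-θ) (c - C8 P^(-σ/2)) > 0` for `P ≥ P0` (`1/(16 Q 2^Q) = σ/2`; `P^(-σ/2) → 0`: `tendsto_rpow_neg_atTop`), `#T ≥ 1`.
* `scale`: `x_m = C3 (2^m)^θ` is strictly increasing and tends to infinity (`(2^m)^θ = (2^θ)^m`, `2^θ > 1`). `N0` with `N0 ≥ x_(m0)`. For `N ≥ N0` let `m` be the greatest with `x_m ≤ N` (`Nat.findGreatest`, or
  `exists_nat_pow_near`-type for the real number `N/C3 ≥ 1` and the base `2^θ > 1`: `exists_nat_pow_near : 1 ≤ x → 1 < y → ∃ n, y^n ≤ x ∧ x < y^(n+1)`; then `m ≥ m0` by monotonicity).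
* `circle`: combine. `C ≥ 1` may be assumed (replace `C` by `max C 1`), `P = 2^m` (`((2^m : ℕ) : ℝ) = 2^m`), `(2 * P)^θ = (2^(m+1))^θ`. Choose `m0` such that the hypothesis `hT` holds and
  `2^m ≥ m ≥ P0` for `m ≥ m0`. `rr_pos` gives the representation.
-/

set_option autoImplicit false

open Finset Real

namespace Pool.Agent.Lib.MP_570bef_ntM

theorem circle (Q : ℕ) (hQ : 1 ≤ Q) (θ : ℝ) (hθ : ∀ k : ℕ, θ ≠ k) (h1 : 1 < θ) (hθQ : θ ≤ Q)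
    {ι : Type} (T : ℕ → Finset ι) (v : ℕ → ι → ℕ) (C : ℝ)
    (hT : ∀ᶠ m : ℕ in Filter.atTop, (T m).Nonempty ∧
      (∀ t ∈ T m, (v m t : ℝ) ≤ C * ((2 : ℝ) ^ m) ^ θ) ∧
      (JT (T m) (v m) : ℝ) ≤ (#(T m) : ℝ) ^ 2 * ((2 : ℝ) ^ m) ^ (-θ + 1 / (16 * Q * 2 ^ Q) : ℝ)) :
    ∀ᶠ N : ℕ in Filter.atTop, ∃ m : ℕ, ∃ t ∈ T m, ∃ t' ∈ T m, ∃ n k : ℕ,
      v m t + v m t' + fl θ n + fl θ k = N := by
  obtain ⟨P0, hP0⟩ := one_scale Q hQ θ hθ h1 hθQ (max C 1) (le_max_right C 1)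
  obtain ⟨m1, hm1⟩ := Filter.eventually_atTop.1 hT
  have hC1 : (1 : ℝ) ≤ max C 1 := le_max_right C 1
  have h2θ : (0 : ℝ) < (2 : ℝ) ^ θ := Real.rpow_pos_of_pos (by norm_num) θ
  have hC3 : (0 : ℝ) < 2 * (2 * max C 1 + 2 ^ θ) := by linarith
  obtain ⟨N0, hN0⟩ := scale θ (2 * (2 * max C 1 + 2 ^ θ)) h1 hC3 (max m1 P0)
  refine Filter.eventually_atTop.2 ⟨N0, fun N hN => ?_⟩
  obtain ⟨m, hm, hlow, hupp⟩ := hN0 N hN
  have hmm1 : m1 ≤ m := le_trans (le_max_left _ _) hm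
  have hmP : P0 ≤ m := le_trans (le_max_right _ _) hm
  obtain ⟨hTn, hTv, hTJ⟩ := hm1 m hmm1
  have h2m : ((2 ^ m : ℕ) : ℝ) = (2 : ℝ) ^ m := by push_cast; rfl
  have hPP : P0 ≤ 2 ^ m := le_trans hmP (le_of_lt Nat.lt_two_pow_self)
  have hpos : (0 : ℝ) ≤ ((2 : ℝ) ^ m) ^ θ := Real.rpow_nonneg (by positivity) θ
  have h2m1 : (2 : ℝ) * (2 : ℝ) ^ m = (2 : ℝ) ^ (m + 1) := by rw [pow_succ]; ring
  have key : 0 < RR (T m) (v m) (Ico (2 ^ m) (2 * 2 ^ m)) (wt θ) (fl θ) (YY θ N) N := by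
    apply hP0 (2 ^ m) N hPP
    · rw [h2m]; exact hlow
    · rw [h2m, h2m1]; exact hupp
    · exact hTn
    · intro t ht
      rw [h2m]
      exact le_trans (hTv t ht) (mul_le_mul_of_nonneg_right (le_max_left C 1) hpos)
    · rw [h2m]; exact hTJ
  obtain ⟨t, ht, t', ht', n, k, hnk⟩ := rr_pos (T m) (v m) _ _ _ _ _ key
  exact ⟨m, t, ht, t', ht', n, k, hnk⟩

end Pool.Agent.Lib.MP_570bef_ntM
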