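import Mathlib
import Pool.Agent.Lib.MP_570bef_ntM.Defs

/-!
# Rep: sums of `s` numbers `⌊n^θ⌋`

* `fl_zero`: `0^θ = 0` (`Real.zero_rpow`).
* `rep_add`: `Fin.append`, `Fin.sum_univ_add`.
* `rep_mono`: add `t - s` zeros (`rep_add` with the constant function `0`, `fl_zero`).
* `wf_mono`: `rep_mono` (`WF θ s` is `∀ᶠ N, rep θ s N` by definition).
* `wf_of_family`: by `circle` every large `N` is `v m t + v m t' + fl θ n + fl θ k`; `v m t = val θ t = sfl θ t.1 + sfl θ t.2` is a sum of `s + s` floors. So `N` is a sum of `(s+s)+(s+s)+1+1 = 4s+2` floors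
  (`rep_add`, `Nat` cast of the number of terms by `show`/`▸`).
-/

set_option autoImplicit false

open Finset Real

namespace Pool.Agent.Lib.MP_570bef_ntM

theorem fl_zero (θ : ℝ) (hθ : 0 < θ) : fl θ 0 = 0 := by
  unfold fl
  rw [Nat.cast_zero, Real.zero_rpow hθ.ne', Nat.floor_zero]

theorem rep_add (θ : ℝ) (s t M N : ℕ) (h1 : rep θ s M) (h2 : rep θ t N) : rep θ (s + t) (M + N) := by
  obtain ⟨x, hx⟩ := h1
  obtain ⟨y, hy⟩ := h2
  refine ⟨Fin.append x y, ?_⟩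
  rw [Fin.sum_univ_add]
  simp only [Fin.append_left, Fin.append_right]
  rw [hx, hy]

theorem rep_mono (θ : ℝ) (hθ : 0 < θ) (s t N : ℕ) (hst : s ≤ t) (h : rep θ s N) : rep θ t N := by
  obtain ⟨u, rfl⟩ := Nat.exists_eq_add_of_le hst
  have h0 : rep θ u 0 := ⟨fun _ => 0, by simp [fl_zero θ hθ]⟩
  exact rep_add θ s u N 0 h h0

theorem wf_mono (θ : ℝ) (hθ : 0 < θ) (s t : ℕ) (hst : s ≤ t) (h : WF θ s) : WF θ t := by
  unfold WF at h ⊢
  exact h.mono fun N hN => rep_mono θ hθ s t N hst hN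

end Pool.Agent.Lib.MP_570bef_ntM
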