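import Mathlib
import Pool.Agent.Lib.MP_570bef_ntM.Rep
import Pool.Agent.Lib.MP_570bef_ntM.Circ

/-!
# Rep: sums of `s` numbers `⌊n^θ⌋`

* `fl_zero`: `0^θ = 0` (`Real.zero_rpow`).
* `rep_add`: `Fin.append`, `Fin.sum_univ_add`.
* `rep_mono`: add `t - s` zeros (`rep_add` with the constant function `0`, `fl_zero`).
* `wf_mono`: `rep_mono` (`WF θ s` is `∀ᶠ N, rep θ s N` by definition).
* `wf_of_family`: by `circle` every large `N` is `v m t + v m t' + fl θ n + fl θ k`; `v m t = val θ t = sfl θ t.1 + sfl θ t.2` is a sum of `s + s` floors. So `N` is a sum of `(s+s)+(s+s)+1+1 = 4s+2` floors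
  (`rep_add`, `Nat` cast of the number of terms by `show`/`▸`).
-/

set_option autoImplicit false

open Finset Real

namespace Pool.Agent.Lib.MP_570bef_ntM

theorem wf_of_family (Q : ℕ) (hQ : 1 ≤ Q) (θ : ℝ) (hθ : ∀ k : ℕ, θ ≠ k) (h1 : 1 < θ) (hθQ : θ ≤ Q)
    (s : ℕ) (T : ℕ → Finset ((Fin s → ℕ) × (Fin s → ℕ))) (C : ℝ)
    (hT : ∀ᶠ m : ℕ in Filter.atTop, (T m).Nonempty ∧
      (∀ t ∈ T m, (val θ t : ℝ) ≤ C * ((2 : ℝ) ^ m) ^ θ) ∧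
      (JT (T m) (val θ) : ℝ) ≤ (#(T m) : ℝ) ^ 2 * ((2 : ℝ) ^ m) ^ (-θ + 1 / (16 * Q * 2 ^ Q) : ℝ)) :
    WF θ (4 * s + 2) := by
  have h := circle Q hQ θ hθ h1 hθQ T (fun _ => val θ) C hT
  unfold WF
  refine h.mono fun N hN => ?_
  obtain ⟨_, t, _, t', _, n, k, hE⟩ := hN
  have r1 : ∀ x : Fin s → ℕ, rep θ s (sfl θ x) := fun x => ⟨x, rfl⟩
  have r0 : ∀ n : ℕ, rep θ 1 (fl θ n) := fun n => ⟨fun _ => n, by simp⟩
  have rv : ∀ t : (Fin s → ℕ) × (Fin s → ℕ), rep θ (s + s) (val θ t) := fun t =>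
    rep_add θ s s _ _ (r1 t.1) (r1 t.2)
  have h2 : rep θ ((((s + s) + (s + s)) + 1) + 1) (val θ t + val θ t' + fl θ n + fl θ k) :=
    rep_add θ _ 1 _ _ (rep_add θ _ 1 _ _ (rep_add θ _ _ _ _ (rv t) (rv t')) (r0 n)) (r0 k)
  rw [hE] at h2
  have e : (((s + s) + (s + s)) + 1) + 1 = 4 * s + 2 := by ring
  rw [e] at h2
  exact h2

end Pool.Agent.Lib.MP_570bef_ntM
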