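import Mathlib
import Pool.Agent.Lib.MP_570bef_ntM.RepF

/-!
# Dim: the exceptional set has dimension less than one on compact intervals

* `local_dim`: let `Q = ⌈θ₀⌉₊ + 1`, `η = 1/(16 Q 2^Q)`, `ε`, `Z` from `hSM s θ₀ η`, `ε' = min ε (min 1 (θ₀ - 1))`. For `θ ∈ (θ₀ - ε', θ₀ + ε')`: `1 < θ ≤ Q`. If `θ ∉ Z` and `θ` is no natural number, `WF θ (4s+2)` by
  `wf_of_family`. So the set is contained in `Z ∪ Set.range (Nat.cast)`, of dimension `max (dimH Z) 0 < 1` (`dimH_union`, `dimH_countable`, `Set.countable_range`, `dimH_mono`).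
* `pow_half`: for `θ₀ > 1`, `s ≥ θ₀ log 2`, `1 ≤ s`: `0 < 1 - 1/θ₀ < exp (-1/θ₀)` (`Real.one_sub_lt_exp_neg`, `Real.add_one_lt_exp`), so `(1 - 1/θ₀)^s < exp (-s/θ₀) ≤ exp (-log 2) = 1/2`.
* `local_dim'`: `s = ⌈θ₀ log 2⌉₊ ≥ 1`. `pow_half`, `local_dim` give `ε`. As `s < θ₀ log 2 + 1` (`Nat.ceil_lt_add_one`) there is `ε₂ > 0` with `(θ₀ - ε₂) log 2 ≥ s - 1` (`ε₂ = (θ₀ log 2 + 1 - s)/log 2`). For
  `θ > θ₀ - min ε ε₂`: `θ log 2 ≥ s - 1`, so `⌊θ log 2⌋₊ ≥ s - 1` (`Nat.le_floor`, cast of natural subtraction), `4 s + 2 ≤ 4 ⌊θ log 2⌋₊ + 6`, and `wf_mono` (`θ > 0`: take also `ε ≤ θ₀ - 1`): the set is contained in the set of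
  `local_dim`.
* `compact_dim`: `IsCompact.induction_on` (`isCompact_Icc`) for the property `p S := dimH {θ | θ ∈ S ∧ 1 < θ ∧ ¬ WF θ (4 ⌊θ log 2⌋₊ + 6)} < 1`: empty set (`dimH_empty`), monotone (`dimH_mono`), unions (`dimH_union`, `max_lt`),
  local: for `x ∈ Icc A B`, `x > 1`, `Ioo (x-ε) (x+ε) ∈ 𝓝 x` (`Ioo_mem_nhds`, `mem_nhdsWithin_of_mem_nhds`), by `local_dim'`.
* `ae_wf`: `{θ | 1 < θ ∧ ¬ WF ..} ⊆ ⋃ n : ℕ, {θ ∈ Icc (1 + 1/(n+1)) (n+2) | ¬ WF ..}`; each of these has dimension `< 1`, hence volume zero: `MeasureTheory.hausdorffMeasure_real : μH[1] = volume` and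
  `hausdorffMeasure_of_dimH_lt` with `d = 1` (`NNReal`). `MeasureTheory.ae_iff`, `measure_mono_null`, `measure_iUnion_null`.
-/

set_option autoImplicit false

open Finset Real

namespace Pool.Agent.Lib.MP_570bef_ntM

theorem local_dim (hSM : SMP) (s : ℕ) (θ₀ : ℝ) (h1 : 1 < θ₀) (hs : (1 - 1 / θ₀) ^ s < 1 / 2) :
    ∃ ε : ℝ, 0 < ε ∧
      dimH {θ : ℝ | θ ∈ Set.Ioo (θ₀ - ε) (θ₀ + ε) ∧ ¬ WF θ (4 * s + 2)} < 1 := by
  set Q : ℕ := ⌈θ₀⌉₊ + 1 with hQ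
  have hQ1 : 1 ≤ Q := by omega
  have hQ0 : (0 : ℝ) < Q := by exact_mod_cast hQ1
  have hη : (0 : ℝ) < 1 / (16 * Q * 2 ^ Q) := by positivity
  obtain ⟨ε, hε, Z, hZ, hfam⟩ := hSM s θ₀ (1 / (16 * Q * 2 ^ Q)) h1 hs hη
  have hε' : 0 < min ε (min 1 (θ₀ - 1)) := lt_min hε (lt_min one_pos (by linarith))
  refine ⟨min ε (min 1 (θ₀ - 1)), hε', ?_⟩
  have hsub : {θ : ℝ | θ ∈ Set.Ioo (θ₀ - min ε (min 1 (θ₀ - 1))) (θ₀ + min ε (min 1 (θ₀ - 1))) ∧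
      ¬ WF θ (4 * s + 2)} ⊆ Z ∪ Set.range (Nat.cast : ℕ → ℝ) := by
    rintro θ ⟨⟨ha, hb⟩, hW⟩
    by_contra hno
    rw [Set.mem_union, not_or] at hno
    obtain ⟨hnZ, hnN⟩ := hno
    apply hW
    have hm1 : min ε (min 1 (θ₀ - 1)) ≤ ε := min_le_left _ _
    have hm2 : min ε (min 1 (θ₀ - 1)) ≤ 1 := (min_le_right _ _).trans (min_le_left _ _)
    have hm3 : min ε (min 1 (θ₀ - 1)) ≤ θ₀ - 1 := (min_le_right _ _).trans (min_le_right _ _)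
    have hk : ∀ k : ℕ, θ ≠ k := fun k hk => hnN ⟨k, hk.symm⟩
    have hθ1 : 1 < θ := by linarith
    have hθQ : θ ≤ Q := by
      have h2 : θ₀ ≤ (⌈θ₀⌉₊ : ℝ) := Nat.le_ceil θ₀
      rw [hQ]
      push_cast
      linarith
    obtain ⟨T, C, hT⟩ := hfam θ ⟨by linarith, by linarith⟩ hnZ
    exact wf_of_family Q hQ1 θ hk hθ1 hθQ s T C hT
  refine lt_of_le_of_lt (dimH_mono hsub) ?_
  rw [dimH_union, (Set.countable_range (Nat.cast : ℕ → ℝ)).dimH_zero]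
  exact max_lt hZ one_pos

end Pool.Agent.Lib.MP_570bef_ntM
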