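import Mathlib
import Pool.Agent.Lib.MP_570bef_ntM.DimA

/-!
# Dim: the exceptional set has dimension less than one on compact intervals

* `local_dim`: let `Q = ⌈θ₀⌉₊ + 1`, `η = 1/(16 Q 2^Q)`, `ε`, `Z` from `hSM s θ₀ η`, `ε' = min ε (min 1 (θ₀ - 1))`. For `θ ∈ (θ₀ - ε', θ₀ + ε')`: `1 < θ ≤ Q`. If `θ ∉ Z` and `θ` is no natural number, `WF θ (4s+2)` by
  `wf_of_family`. So the set is contained in `Z ∪ Set.range (Nat.cast)`, of dimension `max (dimH Z) 0 < 1` (`dimH_union`, `dimH_countable`, `Set.countable_range`, `dimH_mono`).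
* `pow_half`: for `θ₀ > 1`, `s ≥ θ₀ log 2`, `1 ≤ s`: `0 < 1 - 1/θ₀ < exp (-1/θ₀)` (`Real.one_sub_lt_exp_neg`, `Real.add_one_lt_exp`), so `(1 - 1/θ₀)^s < exp (-s/θ₀) ≤ exp (-log 2) = 1/2`.
* `local_dim'`: `s = ⌈θ₀ log 2⌉₊ ≥ 1`. `pow_half`, `local_dim` give `ε`. As `s < θ₀ log 2 + 1` (`Nat.ceil_lt_add_one`) there is `ε₂ > 0` with `(θ₀ - ε₂) log 2 ≥ s - 1` (`ε₂ = (θ₀ log 2 + 1 - s)/log 2`). For
  `θ > θ₀ - min ε ε₂`: `θ log 2 ≥ s - 1`, so `⌊θ log 2⌋₊ ≥ s - 1` (`Nat.le_floor`, cast of natural subtraction), `4 s + 2 ≤ 4 ⌊θ log 2⌋₊ + 6`, and `wf_mono` (`θ > 0`: take also `ε ≤ θ₀ - 1`): the set is contained in the set of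
  `local_dim`.
* `compact_dim`: `IsCompact.induction_on` (`isCompact_Icc`) for the property `p S := dimH {θ | θ ∈ S ∧ 1 < θ ∧ ¬ WF θ (4 ⌊θ log 2⌋₊ + 6)} < 1`: empty set (`dimH_empty`), monotone (`dimH_mono`), unions (`dimH_union`, `max_lt`),
  local: for `x ∈ Icc A B`, `x > 1`, `Ioo (x-ε) (x+ε) ∈ 𝓝 x` (`Ioo_mem_nhds`, `mem_nhdsWithin_of_mem_nhds`), by `local_dim'`.
* `ae_wf`: `{θ | 1 < θ ∧ ¬ WF ..} ⊆ ⋃ n : ℕ, {θ ∈ Icc (1 + 1/(n+1)) (n+2) | ¬ WF ..}`; each of these has dimension `< 1`, hence volume zero: `MeasureTheory.hausdorffMeasure_real : μH[1] = volume` and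
  `hausdorffMeasure_of_dimH_lt` with `d = 1` (`NNReal`). `MeasureTheory.ae_iff`, `measure_mono_null`, `measure_iUnion_null`.
-/

set_option autoImplicit false

open Finset Real

namespace Pool.Agent.Lib.MP_570bef_ntM

theorem pow_half (θ₀ : ℝ) (s : ℕ) (h1 : 1 < θ₀) (hs1 : 1 ≤ s) (hs : θ₀ * log 2 ≤ s) :
    (1 - 1 / θ₀) ^ s < 1 / 2 := by
  have h0 : 0 < θ₀ := by linarith
  have h2 : (1 : ℝ) / θ₀ < 1 := by rw [div_lt_one h0]; exact h1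
  have h3 : 0 ≤ 1 - 1 / θ₀ := by linarith
  have h4 : 1 - 1 / θ₀ < Real.exp (-(1 / θ₀)) := by
    have h5 : (-(1 / θ₀)) ≠ 0 := by
      have : 0 < 1 / θ₀ := by positivity
      linarith
    have := Real.add_one_lt_exp h5
    linarith
  calc (1 - 1 / θ₀) ^ s < Real.exp (-(1 / θ₀)) ^ s := pow_lt_pow_left₀ h4 h3 (by omega)
    _ = Real.exp (-(s / θ₀)) := by
        rw [← Real.exp_nat_mul]
        congr 1
        ring
    _ ≤ Real.exp (-log 2) := by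
        refine Real.exp_le_exp.2 (neg_le_neg ?_)
        rw [le_div_iff₀ h0]
        linarith
    _ = 1 / 2 := by
        rw [Real.exp_neg, Real.exp_log (by norm_num)]
        norm_num

theorem local_dim' (hSM : SMP) (θ₀ : ℝ) (h1 : 1 < θ₀) :
    ∃ ε : ℝ, 0 < ε ∧
      dimH {θ : ℝ | θ ∈ Set.Ioo (θ₀ - ε) (θ₀ + ε) ∧ ¬ WF θ (4 * ⌊θ * log 2⌋₊ + 6)} < 1 := by
  have hl : 0 < log 2 := Real.log_pos (by norm_num)
  have h0 : 0 < θ₀ * log 2 := by positivity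
  obtain ⟨s, hs⟩ : ∃ s : ℕ, s = ⌈θ₀ * log 2⌉₊ := ⟨_, rfl⟩
  have hs1 : 1 ≤ s := by
    rw [hs]
    exact Nat.ceil_pos.2 h0
  have hsle : θ₀ * log 2 ≤ s := by
    rw [hs]
    exact Nat.le_ceil _
  have hslt : (s : ℝ) < θ₀ * log 2 + 1 := by
    rw [hs]
    exact Nat.ceil_lt_add_one h0.le
  obtain ⟨ε, hε, hd⟩ := local_dim hSM s θ₀ h1 (pow_half θ₀ s h1 hs1 hsle)
  obtain ⟨ε₂, hε₂⟩ : ∃ ε₂ : ℝ, ε₂ = (θ₀ * log 2 + 1 - s) / log 2 := ⟨_, rfl⟩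
  have hε₂0 : 0 < ε₂ := by
    rw [hε₂]
    exact div_pos (by linarith) hl
  have hε₂1 : ε₂ * log 2 = θ₀ * log 2 + 1 - s := by
    rw [hε₂]
    field_simp
  refine ⟨min ε (min ε₂ (θ₀ - 1)), lt_min hε (lt_min hε₂0 (by linarith)), ?_⟩
  refine lt_of_le_of_lt (dimH_mono ?_) hd
  intro θ hθ
  obtain ⟨⟨hθ1, hθ2⟩, hθ3⟩ := hθ
  have m1 : min ε (min ε₂ (θ₀ - 1)) ≤ ε := min_le_left _ _
  have m2 : min ε (min ε₂ (θ₀ - 1)) ≤ ε₂ := (min_le_right _ _).trans (min_le_left _ _)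
  have m3 : min ε (min ε₂ (θ₀ - 1)) ≤ θ₀ - 1 := (min_le_right _ _).trans (min_le_right _ _)
  refine ⟨⟨by linarith, by linarith⟩, fun hW => hθ3 ?_⟩
  have hθ0 : 0 < θ := by linarith
  have h5 : (s : ℝ) - 1 ≤ θ * log 2 := by
    have h6 : (θ₀ - ε₂) * log 2 ≤ θ * log 2 := mul_le_mul_of_nonneg_right (by linarith) hl.le
    have h7 : (θ₀ - ε₂) * log 2 = θ₀ * log 2 - ε₂ * log 2 := by ring
    linarith
  have h8 : s - 1 ≤ ⌊θ * log 2⌋₊ := by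
    refine Nat.le_floor ?_
    rw [Nat.cast_sub hs1, Nat.cast_one]
    exact h5
  exact wf_mono θ hθ0 (4 * s + 2) _ (by omega) hW

end Pool.Agent.Lib.MP_570bef_ntM
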