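import Mathlib
import Pool.Agent.Lib.MP_570bef_ntM.DimB

/-!
# Dim: the exceptional set has dimension less than one on compact intervals

* `local_dim`: let `Q = ⌈θ₀⌉₊ + 1`, `η = 1/(16 Q 2^Q)`, `ε`, `Z` from `hSM s θ₀ η`, `ε' = min ε (min 1 (θ₀ - 1))`. For `θ ∈ (θ₀ - ε', θ₀ + ε')`: `1 < θ ≤ Q`. If `θ ∉ Z` and `θ` is no natural number, `WF θ (4s+2)` by
  `wf_of_family`. So the set is contained in `Z ∪ Set.range (Nat.cast)`, of dimension `max (dimH Z) 0 < 1` (`dimH_union`, `dimH_countable`, `Set.countable_range`, `dimH_mono`).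
* `pow_half`: for `θ₀ > 1`, `s ≥ θ₀ log 2`, `1 ≤ s`: `0 < 1 - 1/θ₀ < exp (-1/θ₀)` (`Real.one_sub_lt_exp_neg`, `Real.add_one_lt_exp`), so `(1 - 1/θ₀)^s < exp (-s/θ₀) ≤ exp (-log 2) = 1/2`.
* `local_dim'`: `s = ⌈θ₀ log 2⌉₊ ≥ 1`. `pow_half`, `local_dim` give `ε`. As `s < θ₀ log 2 + 1` (`Nat.ceil_lt_add_one`) there is `ε₂ > 0` with `(θ₀ - ε₂) log 2 ≥ s - 1` (`ε₂ = (θ₀ log 2 + 1 - s)/log 2`). For
  `θ > θ₀ - min ε ε₂`: `θ log 2 ≥ s - 1`, so `⌊θ log 2⌋₊ ≥ s - 1` (`Nat.le_floor`, cast of natural subtraction), `4 s + 2 ≤ 4 ⌊θ log 2⌋₊ + 6`, and `wf_mono` (`θ > 0`: take also `ε ≤ θ₀ - 1`): the set is contained in the set of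
  `local_dim`.
* `compact_dim`: `IsCompact.induction_on` (`isCompact_Icc`) for the property `p S := dimH {θ | θ ∈ S ∧ 1 < θ ∧ ¬ WF θ (4 ⌊θ log 2⌋₊ + 6)} < 1`: empty set (`dimH_empty`), monotone (`dimH_mono`), unions (`dimH_union`, `max_lt`),
  local: for `x ∈ Icc A B`, `x > 1`, `Ioo (x-ε) (x+ε) ∈ 𝓝 x` (`Ioo_mem_nhds`, `mem_nhdsWithin_of_mem_nhds`), by `local_dim'`.
* `ae_wf`: `{θ | 1 < θ ∧ ¬ WF ..} ⊆ ⋃ n : ℕ, {θ ∈ Icc (1 + 1/(n+1)) (n+2) | ¬ WF ..}`; each of these has dimension `< 1`, hence volume zero: `MeasureTheory.hausdorffMeasure_real : μH[1] = volume` and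
  `hausdorffMeasure_of_dimH_lt` with `d = 1` (`NNReal`). `MeasureTheory.ae_iff`, `measure_mono_null`, `measure_iUnion_null`.
-/

set_option autoImplicit false

open Finset Real

namespace Pool.Agent.Lib.MP_570bef_ntM

theorem compact_dim (hSM : SMP) (A B : ℝ) (hA : 1 < A) :
    dimH {θ : ℝ | θ ∈ Set.Icc A B ∧ ¬ WF θ (4 * ⌊θ * log 2⌋₊ + 6)} < 1 := by
  refine IsCompact.induction_on (isCompact_Icc (a := A) (b := B))
    (p := fun S : Set ℝ => dimH {θ : ℝ | θ ∈ S ∧ ¬ WF θ (4 * ⌊θ * log 2⌋₊ + 6)} < 1) ?_ ?_ ?_ ?_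
  · have h : {θ : ℝ | θ ∈ (∅ : Set ℝ) ∧ ¬ WF θ (4 * ⌊θ * log 2⌋₊ + 6)} = ∅ := by
      ext θ
      simp
    rw [h, dimH_empty]
    exact zero_lt_one
  · intro s t hst ht
    refine lt_of_le_of_lt (dimH_mono ?_) ht
    intro θ hθ
    exact ⟨hst hθ.1, hθ.2⟩
  · intro s t hs ht
    have h : {θ : ℝ | θ ∈ s ∪ t ∧ ¬ WF θ (4 * ⌊θ * log 2⌋₊ + 6)} =
        {θ : ℝ | θ ∈ s ∧ ¬ WF θ (4 * ⌊θ * log 2⌋₊ + 6)} ∪
          {θ : ℝ | θ ∈ t ∧ ¬ WF θ (4 * ⌊θ * log 2⌋₊ + 6)} := by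
      ext θ
      simp only [Set.mem_ofPred_eq, Set.mem_union]
      tauto
    rw [h, dimH_union]
    exact max_lt hs ht
  · intro x hx
    obtain ⟨ε, hε, h⟩ := local_dim' hSM x (lt_of_lt_of_le hA hx.1)
    exact ⟨Set.Ioo (x - ε) (x + ε),
      mem_nhdsWithin_of_mem_nhds (Ioo_mem_nhds (by linarith) (by linarith)), h⟩

theorem ae_wf (hSM : SMP) : ∀ᵐ θ : ℝ, 1 < θ → WF θ (4 * ⌊θ * log 2⌋₊ + 6) := by
  rw [MeasureTheory.ae_iff]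
  have hnull : ∀ n : ℕ, MeasureTheory.volume {θ : ℝ | θ ∈ Set.Icc (1 + 1 / ((n : ℝ) + 1)) ((n : ℝ) + 2) ∧
      ¬ WF θ (4 * ⌊θ * log 2⌋₊ + 6)} = 0 := by
    intro n
    have h0 : (0 : ℝ) < 1 / ((n : ℝ) + 1) := by positivity
    have h1 := compact_dim hSM (1 + 1 / ((n : ℝ) + 1)) ((n : ℝ) + 2) (by linarith)
    rw [← MeasureTheory.hausdorffMeasure_real]
    have h2 := hausdorffMeasure_of_dimH_lt (d := 1) (lt_of_lt_of_eq h1 ENNReal.coe_one.symm)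
    rwa [NNReal.coe_one] at h2
  refine MeasureTheory.measure_mono_null ?_ (MeasureTheory.measure_iUnion_null hnull)
  intro θ hθ
  obtain ⟨h1, h2⟩ := Classical.not_imp.1 (show ¬ (1 < θ → WF θ (4 * ⌊θ * log 2⌋₊ + 6)) from hθ)
  obtain ⟨n, hn⟩ := exists_nat_gt (max θ (1 / (θ - 1)))
  have h3 : θ < n := (le_max_left _ _).trans_lt hn
  have h4 : 1 / (θ - 1) < n := (le_max_right _ _).trans_lt hn
  have h5 : 0 < θ - 1 := by linarith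
  refine Set.mem_iUnion.2 ⟨n, ⟨?_, by linarith⟩, h2⟩
  have h6 : 1 < (n : ℝ) * (θ - 1) := by
    rwa [div_lt_iff₀ h5] at h4
  have h7 : 1 / ((n : ℝ) + 1) ≤ θ - 1 := by
    rw [div_le_iff₀ (by positivity)]
    nlinarith
  linarith

end Pool.Agent.Lib.MP_570bef_ntM
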