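import Mathlib
import Pool.Agent.Lib.MP_570bef_ntRE.Blk
import Pool.Agent.Lib.MP_570bef_ntRE.Fam

/-!
# SMa: upper bound for the counting function at scale `P^l`

`s ≥ 1` (`Par.hs`): `s = s' + 1`; `XX = U s σ 1 P ×ˢ U s σ b P`; by `sum_U_succ` the sum over `XX` is `∑_{n ∈ blk P} ∑_{w ∈ U s' σ (1 * σ) P} ∑_{v ∈ U s σ b P}` (`P^(1:ℝ) = P`,
`S_cons`). Fix `w, v` and put `z = y - S w c - S v c`, `L = P^l ≥ P^(q-1) ≥ P^(c-1)` (`l > q - 1 ≥ c - 1`, `P ≥ 1`). `ind L (z - n^c) = 1/L` if `z - L < n^c ≤ z`, else `0`. If `n < n'` are two such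
numbers in `blk P` then `P^(c-1) (n' - n) ≤ n'^c - n^c < L` (`top_diff`), so these `n` lie in an interval of length `< L/P^(c-1)`: their number is at most `L/P^(c-1) + 1 ≤ 2 L/P^(c-1)` (a finite set of naturals with
minimum `n0` is contained in `Finset.Icc n0 (n0 + ⌊L/P^(c-1)⌋₊)`). So the sum over `n` is `≤ 2 P^(1-c) ≤ 2 P^(1-p)`. The number of `(w, v)` is `card XX / card (blk P) ≤ card XX / P` (`blk_card_ge`; `card (U (s'+1) σ 1 P) =
card (blk P) * card (U s' σ (1*σ) P)` by `sum_U_succ` with `F = 1`). Total `≤ 2 P^(1-p) card XX / P = 2 card XX P^(-p)`. `P0 = 1`.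
-/

set_option autoImplicit false

open Finset

namespace Pool.Agent.Lib.MP_570bef_ntM

open Pool.Agent.Lib.MP_570bef_ntRE in
private theorem SMa_inner {X c L : ℝ} (hX : 1 ≤ X) (hc : 1 ≤ c) (hL : X ^ (c - 1) ≤ L) (z : ℝ) :
    ∑ n ∈ blk X, ind L (z - (n : ℝ) ^ c) ≤ 2 * (X ^ (c - 1))⁻¹ := by
  classical
  have hX0 : 0 < X := by linarith
  have hD : 0 < X ^ (c - 1) := Real.rpow_pos_of_pos hX0 _
  have hL0 : 0 < L := lt_of_lt_of_le hD hL
  have e1 : ∑ n ∈ blk X, ind L (z - (n : ℝ) ^ c) =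
      (((blk X).filter fun n : ℕ => 0 ≤ z - (n : ℝ) ^ c ∧ z - (n : ℝ) ^ c < L).card : ℝ) * (1 / L) := by
    unfold ind
    rw [← Finset.sum_filter, Finset.sum_const, nsmul_eq_mul]
  rw [e1]
  set A := (blk X).filter fun n : ℕ => 0 ≤ z - (n : ℝ) ^ c ∧ z - (n : ℝ) ^ c < L with hA
  set R := L / X ^ (c - 1) with hR
  have hR1 : 1 ≤ R := by
    rw [hR, one_le_div hD]
    exact hL
  have hcard : (A.card : ℝ) ≤ 2 * R := by
    rcases A.eq_empty_or_nonempty with h | h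
    · rw [h]
      simp only [Finset.card_empty, Nat.cast_zero]
      linarith
    · set n0 := A.min' h with hn0
      have hn0A : n0 ∈ A := A.min'_mem h
      have hsub : A ⊆ Finset.Icc n0 (n0 + ⌊R⌋₊) := by
        intro n hn
        rw [Finset.mem_Icc]
        have h1 : n0 ≤ n := A.min'_le n hn
        refine ⟨h1, ?_⟩
        rw [hA, Finset.mem_filter, mem_blk hX0.le] at hn hn0A
        have h2 := top_diff hX hc hn.1.1 hn0A.1.1
        have h3 : |(n : ℝ) ^ c - (n0 : ℝ) ^ c| < L := by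
          rw [abs_lt]
          constructor <;> linarith [hn.2.1, hn.2.2, hn0A.2.1, hn0A.2.2]
        have h4 : |(n : ℝ) - n0| = (n : ℝ) - n0 := by
          rw [abs_of_nonneg]
          have : (n0 : ℝ) ≤ n := by exact_mod_cast h1
          linarith
        rw [h4] at h2
        have h5 : (n : ℝ) - n0 ≤ R := by
          rw [hR, le_div_iff₀ hD]
          linarith
        have h6 : ((n - n0 : ℕ) : ℝ) ≤ R := by
          rw [Nat.cast_sub h1]
          exact h5
        have h7 : n - n0 ≤ ⌊R⌋₊ := Nat.le_floor h6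
        omega
      have h2 := Finset.card_le_card hsub
      rw [Nat.card_Icc] at h2
      have h3 : A.card ≤ ⌊R⌋₊ + 1 := by omega
      have h4 : (A.card : ℝ) ≤ (⌊R⌋₊ : ℝ) + 1 := by exact_mod_cast h3
      have h5 := Nat.floor_le (by linarith : (0:ℝ) ≤ R)
      linarith
  calc (A.card : ℝ) * (1 / L) ≤ 2 * R * (1 / L) := mul_le_mul_of_nonneg_right hcard (by positivity)
    _ = 2 * (X ^ (c - 1))⁻¹ := by
      rw [hR]
      field_simp

open Pool.Agent.Lib.MP_570bef_ntRE in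
theorem b_upper {s : ℕ} {p q σ b l η : ℝ} (h : Par s p q σ b l η) :
    ∀ P : ℝ, 1 ≤ P → ∀ c ∈ Set.Icc p q, ∀ y : ℝ,
      ∑ x ∈ XX s σ b P, ind (P ^ l) (y - val x c 1) ≤ 2 * ((XX s σ b P).card : ℝ) * P ^ (-p) := by
  intro P hP c hc y
  have hP0 : 0 < P := by linarith
  obtain ⟨s', rfl⟩ : ∃ s', s = s' + 1 := ⟨s - 1, by have := h.hs; omega⟩
  have hc1 : 1 ≤ c := by linarith [h.hp, hc.1]
  have hL : P ^ (c - 1) ≤ P ^ l := Real.rpow_le_rpow_of_exponent_le hP (by linarith [h.hl1, hc.2])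
  set V := U (s' + 1) σ b P with hV
  set W := U s' σ (1 * σ) P with hW
  have e1 : ∑ x ∈ XX (s' + 1) σ b P, ind (P ^ l) (y - val x c 1) =
      ∑ v ∈ V, ∑ w ∈ W, ∑ n ∈ blk P, ind (P ^ l) ((y - S w c - S v c) - (n : ℝ) ^ c) := by
    unfold XX
    rw [Finset.sum_product, Finset.sum_comm]
    refine Finset.sum_congr rfl fun v _ => ?_
    rw [sum_U_succ, Finset.sum_comm]
    refine Finset.sum_congr rfl fun w _ => ?_
    rw [Real.rpow_one]
    refine Finset.sum_congr rfl fun n _ => ?_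
    unfold Pool.Agent.Lib.MP_570bef_ntRE.val
    simp only
    rw [S_cons]
    congr 1
    ring
  have e2 : ∑ v ∈ V, ∑ w ∈ W, ∑ n ∈ blk P, ind (P ^ l) ((y - S w c - S v c) - (n : ℝ) ^ c) ≤
      ∑ _v ∈ V, ∑ _w ∈ W, 2 * (P ^ (c - 1))⁻¹ :=
    Finset.sum_le_sum fun v _ => Finset.sum_le_sum fun w _ => SMa_inner hP hc1 hL _
  have hcardU : ((U (s' + 1) σ 1 P).card : ℝ) = (blk P).card * W.card := by
    have h2 := sum_U_succ s' σ 1 P (fun _ => (1:ℝ))
    simp only [Finset.sum_const, nsmul_eq_mul, mul_one] at h2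
    rw [Real.rpow_one] at h2
    rw [hW, h2]
  have hcard : ((XX (s' + 1) σ b P).card : ℝ) = (blk P).card * W.card * V.card := by
    unfold XX
    rw [Finset.card_product, Nat.cast_mul, hcardU]
  have hb := blk_card_ge hP
  rw [e1]
  refine e2.trans ?_
  rw [Finset.sum_const, Finset.sum_const, nsmul_eq_mul, nsmul_eq_mul, hcard]
  have h3 : (P ^ (c - 1))⁻¹ ≤ P * P ^ (-p) := by
    have e3 : P * P ^ (-p) = P ^ (1 - p) := by
      rw [show (1:ℝ) - p = 1 + -p by ring, Real.rpow_add hP0, Real.rpow_one]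
    rw [e3, ← Real.rpow_neg hP0.le]
    exact Real.rpow_le_rpow_of_exponent_le hP (by linarith [hc.1])
  have h4 : 0 < P ^ (-p) := Real.rpow_pos_of_pos hP0 _
  have h5 : P * P ^ (-p) ≤ (blk P).card * P ^ (-p) := mul_le_mul_of_nonneg_right hb h4.le
  have h6 : (0:ℝ) ≤ V.card := Nat.cast_nonneg _
  have h7 : (0:ℝ) ≤ W.card := Nat.cast_nonneg _
  calc (V.card : ℝ) * (W.card * (2 * (P ^ (c - 1))⁻¹)) ≤ V.card * (W.card * (2 * ((blk P).card * P ^ (-p)))) := by
        have h8 := h3.trans h5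
        gcongr
    _ = 2 * ((blk P).card * W.card * V.card) * P ^ (-p) := by ring

end Pool.Agent.Lib.MP_570bef_ntM
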