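import Mathlib
import Pool.Agent.Lib.MP_570bef_ntRE.L2

/-!
# SMb: the number of close pairs is bounded by the energy

Put `A y = ∑ ind ε (y - v x)`, `B y = ∑ ind L (y - v x)`, `A - B = ∑ psi ε L (y - v x)`; all are bounded with bounded support and measurable. `A² ≤ 2 (A - B)² + 2 B²`, so by `energy`
`∫ A² ≤ 2 En ε L X v + 2 ∫ B² ≤ 2 En + 2 β ∫ B = 2 En + 2 β card X` (`0 ≤ B ≤ β`, `∫ ind L = 1`).
`∫ A² = ∑ x, ∑ x', ∫ ind ε (y - v x) ind ε (y - v x')`, all terms are `≥ 0`, and for `|v x - v x'| ≤ ε/2` the product is `1/ε²` on `[max (v x) (v x'), min (v x) (v x') + ε)`, an interval of length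
`≥ ε/2`: the integral is `≥ 1/(2ε)`. So `(number of pairs)/(2ε) ≤ ∫ A²`.
-/

set_option autoImplicit false

open Finset MeasureTheory

namespace Pool.Agent.Lib.MP_570bef_ntM

open Pool.Agent.Lib.MP_570bef_ntRE in
private theorem SMb_ind (w a y : ℝ) :
    ind w (y - a) = (Set.Ico a (a + w)).indicator (fun _ => 1 / w) y := by
  unfold ind
  by_cases h : y ∈ Set.Ico a (a + w)
  · rw [Set.indicator_of_mem h, if_pos ⟨by linarith [h.1], by linarith [h.2]⟩]
  · rw [Set.indicator_of_notMem h, if_neg]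
    intro h2
    exact h ⟨by linarith [h2.1], by linarith [h2.2]⟩

open Pool.Agent.Lib.MP_570bef_ntRE in
private theorem SMb_nn {w : ℝ} (hw : 0 < w) (z : ℝ) : 0 ≤ ind w z := by
  unfold ind
  split_ifs
  · positivity
  · exact le_rfl

open Pool.Agent.Lib.MP_570bef_ntRE in
private theorem SMb_int {w : ℝ} (hw : 0 < w) (a : ℝ) :
    Integrable (fun y : ℝ => ind w (y - a)) ∧ ∫ y : ℝ, ind w (y - a) = 1 := by
  have e : (fun y : ℝ => ind w (y - a)) = (Set.Ico a (a + w)).indicator (fun _ => 1 / w) :=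
    funext fun y => SMb_ind w a y
  have hfin : volume (Set.Ico a (a + w)) ≠ ⊤ := by
    rw [Real.volume_Ico]
    exact ENNReal.ofReal_ne_top
  constructor
  · rw [e]
    exact (integrable_indicator_iff measurableSet_Ico).2 (integrableOn_const hfin)
  · rw [e, integral_indicator measurableSet_Ico, setIntegral_const, smul_eq_mul, Measure.real,
      Real.volume_Ico, ENNReal.toReal_ofReal (by linarith)]
    field_simp
    ring

open Pool.Agent.Lib.MP_570bef_ntRE in
private theorem SMb_prod {w : ℝ} (hw : 0 < w) (a b : ℝ) :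
    (fun y : ℝ => ind w (y - a) * ind w (y - b)) =
      (Set.Ico (max a b) (min a b + w)).indicator (fun _ => 1 / w * (1 / w)) := by
  have _ := hw
  funext y
  rw [SMb_ind, SMb_ind]
  by_cases h1 : y ∈ Set.Ico a (a + w)
  · by_cases h2 : y ∈ Set.Ico b (b + w)
    · have h3 : y ∈ Set.Ico (max a b) (min a b + w) := by
        refine ⟨max_le h1.1 h2.1, ?_⟩
        rcases le_total a b with h | h
        · rw [min_eq_left h]; exact h1.2
        · rw [min_eq_right h]; exact h2.2
      rw [Set.indicator_of_mem h1, Set.indicator_of_mem h2, Set.indicator_of_mem h3]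
    · have h3 : y ∉ Set.Ico (max a b) (min a b + w) := by
        intro h
        exact h2 ⟨(le_max_right a b).trans h.1, lt_of_lt_of_le h.2 (by linarith [min_le_right a b])⟩
      rw [Set.indicator_of_notMem h2, Set.indicator_of_notMem h3, mul_zero]
  · have h3 : y ∉ Set.Ico (max a b) (min a b + w) := by
      intro h
      exact h1 ⟨(le_max_left a b).trans h.1, lt_of_lt_of_le h.2 (by linarith [min_le_left a b])⟩
    rw [Set.indicator_of_notMem h1, Set.indicator_of_notMem h3, zero_mul]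

open Pool.Agent.Lib.MP_570bef_ntRE in
private theorem SMb_prodint {w : ℝ} (hw : 0 < w) (a b : ℝ) :
    Integrable (fun y : ℝ => ind w (y - a) * ind w (y - b)) := by
  have hfin : volume (Set.Ico (max a b) (min a b + w)) ≠ ⊤ := by
    rw [Real.volume_Ico]
    exact ENNReal.ofReal_ne_top
  rw [SMb_prod hw]
  exact (integrable_indicator_iff measurableSet_Ico).2 (integrableOn_const hfin)

open Pool.Agent.Lib.MP_570bef_ntRE in
private theorem SMb_close {w a b : ℝ} (hw : 0 < w) (h : |a - b| ≤ w / 2) :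
    1 / (2 * w) ≤ ∫ y : ℝ, ind w (y - a) * ind w (y - b) := by
  rw [SMb_prod hw, integral_indicator measurableSet_Ico, setIntegral_const, smul_eq_mul, Measure.real,
    Real.volume_Ico]
  have h1 : w / 2 ≤ min a b + w - max a b := by
    rcases le_total a b with h2 | h2
    · rw [min_eq_left h2, max_eq_right h2]
      rw [abs_of_nonpos (by linarith)] at h
      linarith
    · rw [min_eq_right h2, max_eq_left h2]
      rw [abs_of_nonneg (by linarith)] at h
      linarith
  rw [ENNReal.toReal_ofReal (by linarith)]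
  have h2 : 0 < 1 / w * (1 / w) := by positivity
  have h3 := mul_le_mul_of_nonneg_right h1 h2.le
  have e : w / 2 * (1 / w * (1 / w)) = 1 / (2 * w) := by
    field_simp
  rw [e] at h3
  exact h3

open Pool.Agent.Lib.MP_570bef_ntRE in
theorem pairs_le {ι : Type*} (X : Finset ι) (v : ι → ℝ) {ε L β : ℝ} (hε : 0 < ε) (hL : ε ≤ L)
    (hβ : 0 ≤ β) (hB : ∀ y : ℝ, ∑ x ∈ X, ind L (y - v x) ≤ β) (X2 : Finset (ι × ι))
    (hX2 : ∀ p ∈ X2, p.1 ∈ X ∧ p.2 ∈ X ∧ |v p.1 - v p.2| ≤ ε / 2) :
    (X2.card : ℝ) ≤ 2 * ε * (2 * En ε L X v + 2 * β * X.card) := by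
  have hL0 : 0 < L := lt_of_lt_of_le hε hL
  -- the square of `A` is integrable
  have hA2 : ∀ y : ℝ, (∑ x ∈ X, ind ε (y - v x)) ^ 2 =
      ∑ p ∈ X ×ˢ X, ind ε (y - v p.1) * ind ε (y - v p.2) := by
    intro y
    rw [sq, Finset.sum_mul_sum, Finset.sum_product]
  have hB2 : ∀ y : ℝ, (∑ x ∈ X, ind L (y - v x)) ^ 2 =
      ∑ p ∈ X ×ˢ X, ind L (y - v p.1) * ind L (y - v p.2) := by
    intro y
    rw [sq, Finset.sum_mul_sum, Finset.sum_product]
  have iA : Integrable (fun y : ℝ => (∑ x ∈ X, ind ε (y - v x)) ^ 2) := by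
    simp_rw [hA2]
    exact integrable_finsetSum _ fun p _ => SMb_prodint hε _ _
  have iB : Integrable (fun y : ℝ => (∑ x ∈ X, ind L (y - v x)) ^ 2) := by
    simp_rw [hB2]
    exact integrable_finsetSum _ fun p _ => SMb_prodint hL0 _ _
  have iB1 : Integrable (fun y : ℝ => ∑ x ∈ X, ind L (y - v x)) :=
    integrable_finsetSum _ fun x _ => (SMb_int hL0 _).1
  -- lower bound
  have h1 : (X2.card : ℝ) * (1 / (2 * ε)) ≤ ∫ y : ℝ, (∑ x ∈ X, ind ε (y - v x)) ^ 2 := by
    have h2 : ∫ y : ℝ, ∑ p ∈ X2, ind ε (y - v p.1) * ind ε (y - v p.2) ≤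
        ∫ y : ℝ, (∑ x ∈ X, ind ε (y - v x)) ^ 2 := by
      refine integral_mono (integrable_finsetSum _ fun p _ => SMb_prodint hε _ _) iA fun y => ?_
      simp only
      rw [hA2]
      refine Finset.sum_le_sum_of_subset_of_nonneg (fun p hp => ?_) fun p _ _ =>
        mul_nonneg (SMb_nn hε _) (SMb_nn hε _)
      obtain ⟨a, b, _⟩ := hX2 p hp
      exact Finset.mem_product.2 ⟨a, b⟩
    rw [integral_finsetSum _ fun p _ => SMb_prodint hε _ _] at h2
    refine le_trans ?_ h2
    rw [← nsmul_eq_mul, ← Finset.sum_const]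
    exact Finset.sum_le_sum fun p hp => SMb_close hε (hX2 p hp).2.2
  -- upper bound
  have h2 : ∫ y : ℝ, (∑ x ∈ X, ind ε (y - v x)) ^ 2 ≤
      ∫ y : ℝ, (2 * (∑ x ∈ X, psi ε L (y - v x)) ^ 2 + 2 * (∑ x ∈ X, ind L (y - v x)) ^ 2) := by
    refine integral_mono iA (((psi_sq_int hε hL X v).const_mul 2).add (iB.const_mul 2)) fun y => ?_
    simp only
    have e : ∑ x ∈ X, psi ε L (y - v x) = ∑ x ∈ X, ind ε (y - v x) - ∑ x ∈ X, ind L (y - v x) := by
      unfold psi
      rw [Finset.sum_sub_distrib]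
    rw [e]
    nlinarith [sq_nonneg (∑ x ∈ X, ind ε (y - v x) - 2 * ∑ x ∈ X, ind L (y - v x))]
  rw [integral_add ((psi_sq_int hε hL X v).const_mul 2) (iB.const_mul 2), integral_const_mul,
    integral_const_mul, energy hε hL] at h2
  have h3 : ∫ y : ℝ, (∑ x ∈ X, ind L (y - v x)) ^ 2 ≤ β * X.card := by
    have h4 : ∫ y : ℝ, (∑ x ∈ X, ind L (y - v x)) ^ 2 ≤ ∫ y : ℝ, β * ∑ x ∈ X, ind L (y - v x) := by
      refine integral_mono iB (iB1.const_mul β) fun y => ?_
      simp only
      rw [sq]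
      exact mul_le_mul_of_nonneg_right (hB y) (Finset.sum_nonneg fun x _ => SMb_nn hL0 _)
    rw [integral_const_mul, integral_finsetSum _ fun x _ => (SMb_int hL0 _).1] at h4
    have e : ∑ x ∈ X, ∫ y : ℝ, ind L (y - v x) = X.card := by
      rw [Finset.sum_congr rfl fun x _ => (SMb_int hL0 (v x)).2]
      simp
    rw [e] at h4
    exact h4
  have _ := hβ
  have h4 : (X2.card : ℝ) * (1 / (2 * ε)) ≤ 2 * En ε L X v + 2 * β * X.card := by linarith
  have h5 := mul_le_mul_of_nonneg_left h4 (by positivity : 0 ≤ 2 * ε)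
  have e : 2 * ε * ((X2.card : ℝ) * (1 / (2 * ε))) = X2.card := by
    field_simp
  rw [e] at h5
  exact h5

end Pool.Agent.Lib.MP_570bef_ntM
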