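import Mathlib
import Pool.Agent.Lib.MP_570bef_ntM.Defs
import Pool.Agent.Lib.MP_570bef_ntM.SMa
import Pool.Agent.Lib.MP_570bef_ntM.SMb
import Pool.Agent.Lib.MP_570bef_ntRE.Kap
import Pool.Agent.Lib.MP_570bef_ntRE.Blk

/-!
# SMc: small energy gives the second moment of the floors

Let `P ≥ 1`, `c ∈ [p, q]`, `ε = 4 s + 2`, `ε ≤ P^l`, `GG s σ b q l ε P c 1 < 1`, `T = XX s σ b P`. `val c t` (natural number, `MP_570bef_ntM.val`) and `RE.val t c 1 = S t.1 c + 1 * S t.2 c` satisfy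
`0 ≤ RE.val t c 1 - val c t < 2 s + 1` (`x - 1 < ⌊x⌋₊ ≤ x` for `x ≥ 0`, `2s` terms). So `val c t = val c t'` implies `|RE.val t c 1 - RE.val t' c 1| ≤ 2s + 1 = ε/2`, and `pairs_le` (with `β = 2 card T P^(-p)` from `b_upper`,
`X2 = {p ∈ T ×ˢ T | val p.1 = val p.2}`, whose cardinality is `JT T (val c)`) gives `JT ≤ 2ε (2 En + 4 (card T)² P^(-p))`.
`GG < 1` means `En < thr = (card T)²/(8 q² 16^(2q) P^q) ≤ (card T)² P^(-q) ≤ (card T)² P^(-p)` (`thr > 0` as `card T > 0`: `U_card_ge`, `Par` gives `0 < σ < 1`, `0 < b`; `8 q² 16^(2q) ≥ 1`).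
So `JT ≤ 2ε * 6 (card T)² P^(-p) = 12 ε (card T)² P^(-p)`.

`val_le`: `val c t ≤ RE.val t c 1 ≤ 2 s (16 P)^c` (`S_le` with `b = 1` and with `b < 1`, `P^b ≤ P`), `= 2 s 16^c P^c`.
-/

set_option autoImplicit false

open Finset

namespace Pool.Agent.Lib.MP_570bef_ntM

private theorem SMc_sig {s : ℕ} {p q σ b l η : ℝ} (h : Pool.Agent.Lib.MP_570bef_ntRE.Par s p q σ b l η) :
    0 < σ ∧ σ < 1 ∧ 0 ≤ b :=
  ⟨h.hσ, h.hσb.trans h.hb, (h.hσ.trans h.hσb).le⟩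

private theorem SMc_card {s : ℕ} {p q σ b l η : ℝ} (h : Pool.Agent.Lib.MP_570bef_ntRE.Par s p q σ b l η)
    (P : ℝ) (hP : 1 ≤ P) : 0 < ((Pool.Agent.Lib.MP_570bef_ntRE.XX s σ b P).card : ℝ) := by
  obtain ⟨h0, h1, h2⟩ := SMc_sig h
  have hP0 : 0 < P := by linarith
  unfold Pool.Agent.Lib.MP_570bef_ntRE.XX
  rw [Finset.card_product, Nat.cast_mul]
  have a1 := Pool.Agent.Lib.MP_570bef_ntRE.U_card_ge s h0 h1 (zero_le_one : (0:ℝ) ≤ 1) hP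
  have a2 := Pool.Agent.Lib.MP_570bef_ntRE.U_card_ge s h0 h1 h2 hP
  exact mul_pos (lt_of_lt_of_le (Real.rpow_pos_of_pos hP0 _) a1)
    (lt_of_lt_of_le (Real.rpow_pos_of_pos hP0 _) a2)

theorem xx_nonempty {s : ℕ} {p q σ b l η : ℝ} (h : Pool.Agent.Lib.MP_570bef_ntRE.Par s p q σ b l η)
    (P : ℝ) (hP : 1 ≤ P) : (Pool.Agent.Lib.MP_570bef_ntRE.XX s σ b P).Nonempty := by
  have h1 := SMc_card h P hP
  rw [← Finset.card_pos]
  exact_mod_cast h1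

/-- `0 ≤ S u c - sfl c u ≤ s`. -/
private theorem SMc_sfl {s : ℕ} (c : ℝ) (u : Fin s → ℕ) :
    (sfl c u : ℝ) ≤ Pool.Agent.Lib.MP_570bef_ntRE.S u c ∧
      Pool.Agent.Lib.MP_570bef_ntRE.S u c ≤ (sfl c u : ℝ) + s := by
  unfold sfl Pool.Agent.Lib.MP_570bef_ntRE.S fl
  push_cast
  constructor
  · exact Finset.sum_le_sum fun i _ => Nat.floor_le (Real.rpow_nonneg (Nat.cast_nonneg _) c)
  · have h1 : ∑ i, ((u i : ℝ)) ^ c ≤ ∑ i : Fin s, ((⌊(u i : ℝ) ^ c⌋₊ : ℝ) + 1) :=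
      Finset.sum_le_sum fun i _ => (Nat.lt_floor_add_one _).le
    rw [Finset.sum_add_distrib] at h1
    simpa using h1

private theorem SMc_val {s : ℕ} (c : ℝ) (t : (Fin s → ℕ) × (Fin s → ℕ)) :
    (val c t : ℝ) ≤ Pool.Agent.Lib.MP_570bef_ntRE.val t c 1 ∧
      Pool.Agent.Lib.MP_570bef_ntRE.val t c 1 ≤ (val c t : ℝ) + 2 * s := by
  obtain ⟨a1, a2⟩ := SMc_sfl c t.1
  obtain ⟨b1, b2⟩ := SMc_sfl c t.2
  unfold val Pool.Agent.Lib.MP_570bef_ntRE.val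
  push_cast
  constructor <;> linarith

theorem val_le {s : ℕ} {p q σ b l η : ℝ} (h : Pool.Agent.Lib.MP_570bef_ntRE.Par s p q σ b l η)
    (P : ℝ) (hP : 1 ≤ P) (c : ℝ) (hc : 1 < c) (t : (Fin s → ℕ) × (Fin s → ℕ))
    (ht : t ∈ Pool.Agent.Lib.MP_570bef_ntRE.XX s σ b P) :
    (val c t : ℝ) ≤ 2 * s * 16 ^ c * P ^ c := by
  obtain ⟨h0, h1, h2⟩ := SMc_sig h
  have hP0 : 0 < P := by linarith
  have hc0 : 0 ≤ c := by linarith
  unfold Pool.Agent.Lib.MP_570bef_ntRE.XX at ht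
  rw [Finset.mem_product] at ht
  have a1 := Pool.Agent.Lib.MP_570bef_ntRE.S_le h0 h1 (zero_le_one : (0:ℝ) ≤ 1) hP hc0 ht.1
  have a2 := Pool.Agent.Lib.MP_570bef_ntRE.S_le h0 h1 h2 hP hc0 ht.2
  rw [Real.rpow_one] at a1
  have hb : P ^ b ≤ P := by
    have h3 := Real.rpow_le_rpow_of_exponent_le hP h.hb.le
    rwa [Real.rpow_one] at h3
  have h4 : (16 * P ^ b) ^ c ≤ (16 * P) ^ c :=
    Real.rpow_le_rpow (by positivity) (by linarith) hc0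
  have h5 : (s : ℝ) * (16 * P ^ b) ^ c ≤ s * (16 * P) ^ c := mul_le_mul_of_nonneg_left h4 (Nat.cast_nonneg _)
  have h6 := (SMc_val c t).1
  unfold Pool.Agent.Lib.MP_570bef_ntRE.val at h6
  have e : (16 * P) ^ c = 16 ^ c * P ^ c := Real.mul_rpow (by norm_num) hP0.le
  rw [e] at h5 a1
  linarith

theorem jt_le {s : ℕ} {p q σ b l η : ℝ} (h : Pool.Agent.Lib.MP_570bef_ntRE.Par s p q σ b l η)
    (P : ℝ) (hP : 1 ≤ P) (hPl : 4 * (s : ℝ) + 2 ≤ P ^ l) (c : ℝ) (hc : c ∈ Set.Icc p q)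
    (hG : Pool.Agent.Lib.MP_570bef_ntRE.GG s σ b q l (4 * s + 2) P c 1 < 1) :
    (JT (Pool.Agent.Lib.MP_570bef_ntRE.XX s σ b P) (val c) : ℝ) ≤
      12 * (4 * s + 2) * ((Pool.Agent.Lib.MP_570bef_ntRE.XX s σ b P).card : ℝ) ^ 2 * P ^ (-p) := by
  classical
  have hP0 : 0 < P := by linarith
  have hcard := SMc_card h P hP
  set T := Pool.Agent.Lib.MP_570bef_ntRE.XX s σ b P with hT
  have hε : (0:ℝ) < 4 * s + 2 := by positivity
  have hPp : 0 < P ^ (-p) := Real.rpow_pos_of_pos hP0 _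
  have hβ : (0:ℝ) ≤ 2 * (T.card : ℝ) * P ^ (-p) := by positivity
  have h1 := pairs_le T (fun x => Pool.Agent.Lib.MP_570bef_ntRE.val x c 1) hε hPl hβ
    (fun y => b_upper h P hP c hc y) ((T ×ˢ T).filter fun p => val c p.1 = val c p.2)
    (fun x hx => by
      rw [Finset.mem_filter, Finset.mem_product] at hx
      refine ⟨hx.1.1, hx.1.2, ?_⟩
      have a := SMc_val c x.1
      have a' := SMc_val c x.2
      have e : (val c x.1 : ℝ) = val c x.2 := by rw [hx.2]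
      rw [abs_le]
      constructor <;> linarith [a.1, a.2, a'.1, a'.2])
  have hJ : (JT T (val c) : ℝ) = (((T ×ˢ T).filter fun p => val c p.1 = val c p.2).card : ℝ) := by
    unfold JT
    rfl
  rw [← hJ] at h1
  -- the energy
  have hq : 1 < q := lt_of_lt_of_le h.hp h.hpq
  have hD : 0 < 8 * q ^ 2 * 16 ^ (2 * q) * P ^ q := by
    have := Real.rpow_pos_of_pos hP0 q
    positivity
  have hthr : 0 < Pool.Agent.Lib.MP_570bef_ntRE.thr s σ b q P := by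
    unfold Pool.Agent.Lib.MP_570bef_ntRE.thr
    rw [← hT]
    positivity
  have hEn : Pool.Agent.Lib.MP_570bef_ntRE.En (4 * s + 2) (P ^ l) T
      (fun x => Pool.Agent.Lib.MP_570bef_ntRE.val x c 1) ≤ (T.card : ℝ) ^ 2 * P ^ (-p) := by
    unfold Pool.Agent.Lib.MP_570bef_ntRE.GG at hG
    rw [div_lt_one hthr, ← hT] at hG
    refine hG.le.trans ?_
    unfold Pool.Agent.Lib.MP_570bef_ntRE.thr
    rw [← hT, div_le_iff₀ hD]
    have h2 : (1:ℝ) ≤ P ^ (-p) * (8 * q ^ 2 * 16 ^ (2 * q) * P ^ q) := by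
      have h3 : (1:ℝ) ≤ 16 ^ (2 * q) := Real.one_le_rpow (by norm_num) (by linarith)
      have h4 : (1:ℝ) ≤ P ^ (-p) * P ^ q := by
        rw [← Real.rpow_add hP0]
        exact Real.one_le_rpow hP (by linarith [h.hpq])
      have h5 : (1:ℝ) ≤ 8 * q ^ 2 := by nlinarith
      have h6 : (1:ℝ) ≤ 8 * q ^ 2 * 16 ^ (2 * q) := by
        calc (1:ℝ) = 1 * 1 := by norm_num
          _ ≤ 8 * q ^ 2 * 16 ^ (2 * q) := mul_le_mul h5 h3 zero_le_one (by positivity)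
      calc (1:ℝ) = 1 * 1 := by norm_num
        _ ≤ (8 * q ^ 2 * 16 ^ (2 * q)) * (P ^ (-p) * P ^ q) := mul_le_mul h6 h4 zero_le_one (by positivity)
        _ = _ := by ring
    have h7 : 0 ≤ (T.card : ℝ) ^ 2 := sq_nonneg _
    have h8 := mul_le_mul_of_nonneg_left h2 h7
    calc (T.card : ℝ) ^ 2 = (T.card : ℝ) ^ 2 * 1 := by ring
      _ ≤ _ := h8
      _ = _ := by ring
  have h2 : 2 * Pool.Agent.Lib.MP_570bef_ntRE.En (4 * s + 2) (P ^ l) T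
      (fun x => Pool.Agent.Lib.MP_570bef_ntRE.val x c 1) + 2 * (2 * (T.card : ℝ) * P ^ (-p)) * T.card ≤
      6 * ((T.card : ℝ) ^ 2 * P ^ (-p)) := by
    nlinarith
  refine h1.trans ?_
  have h3 := mul_le_mul_of_nonneg_left h2 (by positivity : 0 ≤ 2 * (4 * (s:ℝ) + 2))
  refine h3.trans (le_of_eq ?_)
  ring

end Pool.Agent.Lib.MP_570bef_ntM
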