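import Mathlib
import Pool.Agent.Lib.MP_570bef_ntRE.Defs

/-!
# SMp: parameters with a short interval `[p, q]`

As `par_C` (file `MP_570bef_ntRE/ParEx.lean`, read its header), with the additional condition `q - p < r`.
`σ0 = 1 - 1/c ∈ (0, 1)`, `s ≥ 1` (`σ0^0 = 1`), `l = c - 1/2`, `η = min (1/2) (c (1 - 2 σ0^s))/2 > 0`. For `δ > 0` small `p = c - δ`, `q = c + δ`, `σ = 1 - 1/p - δ`, `b = 1 - δ`. All conditions are strict
inequalities between continuous functions of `δ` near `0`, which hold at `δ = 0` (so for all small `δ > 0`), except `σ < b`, `b < 1` and `σ p = p - 1 - δ p < p - 1`, which are clear for `δ > 0` (`σ < b`: at `δ = 0` strict as well, `σ0 < 1`).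
At `δ = 0`: `1 - σ0 = 1/c`; `e1`: `c + η < 2 c (1 - σ0^s)`, true as `η < c (1 - 2 σ0^s)`; `e2`: `(c-1) σ0^s/σ0 = c σ0^s` (`c - 1 = c σ0`), so the right side is `2c (1 - σ0^s) + 2 c σ0^s = 2c` and the left side is
`c + (c - 1/2) + η < 2c`. `q - p = 2δ < r`. (Use continuity at `0` of the explicit functions and `Filter.Eventually` in `nhdsWithin 0 (Set.Ioi 0)`.)
-/

set_option autoImplicit false

namespace Pool.Agent.Lib.MP_570bef_ntM

open Pool.Agent.Lib.MP_570bef_ntRE in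
theorem par_small {c : ℝ} (hc : 1 < c) {s : ℕ} (hs : (1 - 1 / c) ^ s < 1 / 2) {r : ℝ} (hr : 0 < r) :
    ∃ p q σ b l η : ℝ, Par s p q σ b l η ∧ p < c ∧ c < q ∧ q - p < r := by
  have hc0 : 0 < c := by linarith
  have hs1 : 1 ≤ s := by
    rcases Nat.eq_zero_or_pos s with h | h
    · rw [h, pow_zero] at hs
      norm_num at hs
    · exact h
  obtain ⟨σ0, hσ0⟩ : ∃ σ0 : ℝ, σ0 = 1 - 1 / c := ⟨_, rfl⟩
  rw [← hσ0] at hs
  have hinv : 1 / c < 1 := by
    rw [div_lt_one hc0]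
    exact hc
  have hinv0 : 0 < 1 / c := by positivity
  have hσpos : 0 < σ0 := by linarith
  have hσlt : σ0 < 1 := by linarith
  have hm : 0 < min (1 / 2) (c * (1 - 2 * σ0 ^ s)) :=
    lt_min (by norm_num) (mul_pos hc0 (by linarith))
  obtain ⟨η, hη0, hη⟩ := exists_between hm
  have hη1 : η < 1 / 2 := lt_of_lt_of_le hη (min_le_left _ _)
  have hη2 : η < c * (1 - 2 * σ0 ^ s) := lt_of_lt_of_le hη (min_le_right _ _)
  have z0 : (1 : ℝ) - 1 / (c - 0) - 0 = σ0 := by rw [hσ0, sub_zero, sub_zero]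
  have hne1 : c - 0 ≠ 0 := by rw [sub_zero]; exact hc0.ne'
  have cp : ContinuousAt (fun δ : ℝ => c - δ) 0 := by fun_prop
  have cq : ContinuousAt (fun δ : ℝ => c + δ) 0 := by fun_prop
  have cb : ContinuousAt (fun δ : ℝ => 1 - δ) 0 := by fun_prop
  have cσ : ContinuousAt (fun δ : ℝ => 1 - 1 / (c - δ) - δ) 0 :=
    (continuousAt_const.sub (continuousAt_const.div cp hne1)).sub continuousAt_id
  have cA : ContinuousAt (fun δ : ℝ => (1 - (1 - 1 / (c - δ) - δ) ^ s) /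
      (1 - (1 - 1 / (c - δ) - δ))) 0 := by
    refine (continuousAt_const.sub (cσ.pow s)).div (continuousAt_const.sub cσ) ?_
    rw [z0]
    linarith
  have cB : ContinuousAt (fun δ : ℝ => ((c - δ) - 1) * (1 - 1 / (c - δ) - δ) ^ s /
      (1 - 1 / (c - δ) - δ)) 0 := by
    refine ((cp.sub continuousAt_const).mul (cσ.pow s)).div cσ ?_
    rw [z0]
    exact hσpos.ne'
  have v1 : (1 - σ0 ^ s) / (1 - σ0) = c * (1 - σ0 ^ s) := by
    have : 1 - σ0 = 1 / c := by rw [hσ0]; ring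
    rw [this]
    field_simp
  have v2 : (c - 1) * σ0 ^ s / σ0 = c * σ0 ^ s := by
    have h1 : c - 1 = c * σ0 := by
      rw [hσ0]
      field_simp
    rw [h1]
    field_simp
  have g1 : ∀ᶠ δ : ℝ in nhds 0, 1 < c - δ :=
    continuousAt_const.eventually_lt cp (by rw [sub_zero]; exact hc)
  have g2 : ∀ᶠ δ : ℝ in nhds 0, c + δ < (c - δ) + 1 :=
    cq.eventually_lt (cp.add continuousAt_const) (by rw [sub_zero, add_zero]; linarith)
  have g3 : ∀ᶠ δ : ℝ in nhds 0, 0 < 1 - 1 / (c - δ) - δ :=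
    continuousAt_const.eventually_lt cσ (by rw [z0]; exact hσpos)
  have g4 : ∀ᶠ δ : ℝ in nhds 0, 1 - 1 / (c - δ) - δ < 1 - δ :=
    cσ.eventually_lt cb (by rw [z0, sub_zero]; exact hσlt)
  have g5 : ∀ᶠ δ : ℝ in nhds 0, (c + δ) - 1 < c - 1 / 2 :=
    (cq.sub continuousAt_const).eventually_lt continuousAt_const
      (show (c + 0) - 1 < c - 1 / 2 by rw [add_zero]; linarith)
  have g6 : ∀ᶠ δ : ℝ in nhds 0, c - 1 / 2 < c - δ :=
    continuousAt_const.eventually_lt cp (by rw [sub_zero]; linarith)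
  have g7 : ∀ᶠ δ : ℝ in nhds 0, (c + δ) + η < (1 + (1 - δ)) * ((1 - (1 - 1 / (c - δ) - δ) ^ s) /
      (1 - (1 - 1 / (c - δ) - δ))) := by
    refine (cq.add continuousAt_const).eventually_lt ((continuousAt_const.add cb).mul cA) ?_
    show (c + 0) + η < (1 + (1 - 0)) * ((1 - (1 - 1 / (c - 0) - 0) ^ s) /
      (1 - (1 - 1 / (c - 0) - 0)))
    rw [z0, v1, sub_zero, add_zero]
    linarith
  have g8 : ∀ᶠ δ : ℝ in nhds 0, (c + δ) + ((c + δ) - (c - δ)) + (c - 1 / 2) + η <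
      (1 + (1 - δ)) * ((1 - (1 - 1 / (c - δ) - δ) ^ s) / (1 - (1 - 1 / (c - δ) - δ)) +
        ((c - δ) - 1) * (1 - 1 / (c - δ) - δ) ^ s / (1 - 1 / (c - δ) - δ)) := by
    refine (((cq.add (cq.sub cp)).add continuousAt_const).add continuousAt_const).eventually_lt
      ((continuousAt_const.add cb).mul (cA.add cB)) ?_
    show (c + 0) + ((c + 0) - (c - 0)) + (c - 1 / 2) + η <
      (1 + (1 - 0)) * ((1 - (1 - 1 / (c - 0) - 0) ^ s) / (1 - (1 - 1 / (c - 0) - 0)) +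
        ((c - 0) - 1) * (1 - 1 / (c - 0) - 0) ^ s / (1 - 1 / (c - 0) - 0))
    rw [z0, v1, sub_zero, add_zero, sub_zero, v2]
    linarith
  have g9 : ∀ᶠ δ : ℝ in nhds 0, (c + δ) - (c - δ) < r :=
    (cq.sub cp).eventually_lt continuousAt_const (show (c + 0) - (c - 0) < r by
      rw [sub_zero, add_zero, sub_self]; exact hr)
  have hall := ((((((((g1.and g2).and g3).and g4).and g5).and g6).and g7).and g8).and g9)
  have hall' : ∀ᶠ δ : ℝ in nhdsWithin 0 (Set.Ioi 0), _ := hall.filter_mono nhdsWithin_le_nhds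
  obtain ⟨δ, ⟨⟨⟨⟨⟨⟨⟨⟨⟨h1, h2⟩, h3⟩, h4⟩, h5⟩, h6⟩, h7⟩, h8⟩, h9⟩, hδ⟩⟩ :=
    (hall'.and self_mem_nhdsWithin).exists
  have hδ0 : 0 < δ := hδ
  refine ⟨c - δ, c + δ, 1 - 1 / (c - δ) - δ, 1 - δ, c - 1 / 2, η,
    ⟨hs1, h1, by linarith, h2.le, h3, h4, by linarith, ?_, h5, h6, hη0, by linarith, h7, h8⟩,
    by linarith, by linarith, h9⟩
  have hp0 : c - δ ≠ 0 := by linarith
  have h10 : (1 - 1 / (c - δ) - δ) * (c - δ) = (c - δ) - 1 - δ * (c - δ) := by
    field_simp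
  rw [h10]
  have h11 : 0 < δ * (c - δ) := mul_pos hδ0 (by linarith)
  linarith

end Pool.Agent.Lib.MP_570bef_ntM
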