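import Mathlib
import Pool.Agent.Lib.MP_570bef_ntM.SMc
import Pool.Agent.Lib.MP_570bef_ntM.SMp
import Pool.Agent.Lib.MP_570bef_ntRE.IntB
import Pool.Agent.Lib.MP_570bef_ntRE.LipG
import Pool.Agent.Lib.MP_570bef_ntRE.FamC
import Pool.Agent.Lib.MP_570bef_ntRE.Dim

/-!
# SMd: the second moment statement

Given `s`, `θ₀ > 1`, `(1 - 1/θ₀)^s < 1/2`, `η₁ > 0`. `par_small` with `r = min (η₁/2) 1`: `Par s p q σ b l η`, `p < θ₀ < q`, `q - p < η₁/2`, `q ≤ p + 1`. `ε := 4 s + 2 > 0`. `fam_C` with `lam = 1` gives `K`, `P1`, `Fam s p q σ b l p q 1 ε K P1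
(fun t => t) (fun _ => 1)`. `a = (p + θ₀)/2`, `b' = (θ₀ + q)/2`, `G j t = GG s σ b q l ε (2^j) t 1`, `ρ = 2q + 3`. `dim_lemma` (`t1 = p`, `t2 = q`): `j0` such that `2^j ≥` the `P0` of `int_bound` and of `lip_G` and `ε ≤ (2^j)^l` for `j ≥ j0` (`l > 0`);
`0 ≤ G` by `En_nonneg` and `thr ≥ 0`. So `Z = {t ∈ Icc a b' | ∀ J, ∃ j ≥ J, 1 ≤ G j t}` has dimension `≤ ofReal (1 - η/(2ρ)) < 1` (as in the header of `MP_570bef_ntRE/Core.lean`, theorem `local_eps`).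
`ε₀ = min (θ₀ - a) (b' - θ₀)`. For `θ ∈ Ioo (θ₀ - ε₀) (θ₀ + ε₀)`, `θ ∉ Z`: `θ ∈ Icc a b' ⊆ Icc p q`, and there is `J` with `G j θ < 1` for all `j ≥ J`. `T m = XX s σ b (2^m)`, `C = 2 s 16^θ`. For large `m`: `xx_nonempty`, `val_le`,
and `jt_le`: `JT ≤ 12 (4s+2) card² (2^m)^(-p) ≤ card² (2^m)^(-θ+η₁)` as `-θ + η₁ + p ≥ η₁/2 > 0` and `(2^m)^(η₁/2) ≥ 12 (4s+2)` for large `m`.
-/

set_option autoImplicit false

open Finset

namespace Pool.Agent.Lib.MP_570bef_ntM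

private theorem SMd_j0 (P0 P0' ε l : ℝ) (hl : 0 < l) :
    ∃ j0 : ℕ, ∀ j ≥ j0, P0 ≤ (2 : ℝ) ^ j ∧ P0' ≤ (2 : ℝ) ^ j ∧ ε ≤ ((2 : ℝ) ^ j) ^ l := by
  have h2 : Filter.Tendsto (fun j : ℕ => (2 : ℝ) ^ j) Filter.atTop Filter.atTop :=
    tendsto_pow_atTop_atTop_of_one_lt one_lt_two
  have h3 : Filter.Tendsto (fun j : ℕ => ((2 : ℝ) ^ j) ^ l) Filter.atTop Filter.atTop :=
    (tendsto_rpow_atTop hl).comp h2
  have h4 := (h2.eventually_ge_atTop P0).and ((h2.eventually_ge_atTop P0').and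
    (h3.eventually_ge_atTop ε))
  rw [Filter.eventually_atTop] at h4
  exact h4

open Pool.Agent.Lib.MP_570bef_ntRE in
private theorem SMd_thr (s : ℕ) (σ b q P : ℝ) (hP : 0 < P) : 0 ≤ thr s σ b q P := by
  unfold thr
  have h1 : (0 : ℝ) < P ^ q := Real.rpow_pos_of_pos hP _
  positivity

theorem smp : SMP := by
  intro s θ₀ η₁ hθ hs hη₁
  obtain ⟨p, q, σ, b, l, η, h, hp, hq, hpq⟩ :=
    par_small hθ hs (r := min (η₁ / 2) 1) (lt_min (by linarith) one_pos)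
  have hpq1 : q - p < η₁ / 2 := hpq.trans_le (min_le_left _ _)
  have hpltq : p < q := hp.trans hq
  have hε : (0 : ℝ) < 4 * (s : ℝ) + 2 := by positivity
  have hp1 := h.hp
  have hl : 0 < l := by
    have h5 := h.hl1
    linarith
  obtain ⟨K, P1, hF⟩ := Pool.Agent.Lib.MP_570bef_ntRE.fam_C h hpltq (lam := 1)
    (ε := 4 * (s : ℝ) + 2) one_pos hε
  obtain ⟨P0, hP0, hI⟩ := Pool.Agent.Lib.MP_570bef_ntRE.int_bound h hpltq h.hq hε hF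
  obtain ⟨P0', hP0', hL⟩ := Pool.Agent.Lib.MP_570bef_ntRE.lip_G h hε hF
  obtain ⟨j0, hj0⟩ := SMd_j0 P0 P0' (4 * (s : ℝ) + 2) l hl
  let G : ℕ → ℝ → ℝ := fun j t =>
    Pool.Agent.Lib.MP_570bef_ntRE.GG s σ b q l (4 * (s : ℝ) + 2) ((2 : ℝ) ^ j) t 1
  have hdim := Pool.Agent.Lib.MP_570bef_ntRE.dim_lemma (t1 := p) (t2 := q) (a := (p + θ₀) / 2)
    (b := (θ₀ + q) / 2) (η := η) (ρ := 2 * q + 3) (by linarith) (by linarith) h.hη
    (by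
      have h5 := h.hη1
      linarith) G j0
    (fun j hj t _ => by
      have h5 := Pool.Agent.Lib.MP_570bef_ntRE.En_nonneg hε (hj0 j hj).2.2
        (Pool.Agent.Lib.MP_570bef_ntRE.XX s σ b ((2 : ℝ) ^ j))
        (fun x => Pool.Agent.Lib.MP_570bef_ntRE.val x t 1)
      exact div_nonneg h5 (SMd_thr s σ b q _ (by positivity)))
    (fun j hj t ht t' ht' => hL _ (hj0 j hj).2.1 t ht t' ht')
    (fun j hj => hI _ (hj0 j hj).1)
  have hε₀ : 0 < min ((θ₀ - p) / 2) ((q - θ₀) / 2) := lt_min (by linarith) (by linarith)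
  refine ⟨min ((θ₀ - p) / 2) ((q - θ₀) / 2), hε₀, _, hdim.trans_lt ?_, ?_⟩
  · rw [ENNReal.ofReal_lt_one]
    have h5 : 0 < η / (2 * (2 * q + 3)) := div_pos h.hη (by linarith)
    linarith
  · intro θ hθ' hZ
    have hm1 := min_le_left ((θ₀ - p) / 2) ((q - θ₀) / 2)
    have hm2 := min_le_right ((θ₀ - p) / 2) ((q - θ₀) / 2)
    have hθ1 := hθ'.1
    have hθ2 := hθ'.2
    have hIcc : θ ∈ Set.Icc ((p + θ₀) / 2) ((θ₀ + q) / 2) := ⟨by linarith, by linarith⟩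
    have hIcc' : θ ∈ Set.Icc p q := ⟨by linarith, by linarith⟩
    have hJ : ∃ J : ℕ, ∀ j ≥ J, G j θ < 1 := by
      by_contra hcon
      push Not at hcon
      exact hZ ⟨hIcc, hcon⟩
    obtain ⟨J, hJ⟩ := hJ
    refine ⟨fun m => Pool.Agent.Lib.MP_570bef_ntRE.XX s σ b ((2 : ℝ) ^ m), 2 * s * 16 ^ θ, ?_⟩
    have h2 : Filter.Tendsto (fun j : ℕ => (2 : ℝ) ^ j) Filter.atTop Filter.atTop :=
      tendsto_pow_atTop_atTop_of_one_lt one_lt_two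
    have h3 : Filter.Tendsto (fun j : ℕ => ((2 : ℝ) ^ j) ^ (η₁ / 2)) Filter.atTop
        Filter.atTop := (tendsto_rpow_atTop (by linarith : (0 : ℝ) < η₁ / 2)).comp h2
    filter_upwards [Filter.eventually_ge_atTop J, Filter.eventually_ge_atTop j0,
      h3.eventually_ge_atTop (12 * (4 * (s : ℝ) + 2))] with m hmJ hmj hm
    have hP1 : (1 : ℝ) ≤ (2 : ℝ) ^ m := one_le_pow₀ one_le_two
    have hPpos : (0 : ℝ) < (2 : ℝ) ^ m := by positivity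
    refine ⟨xx_nonempty h _ hP1, fun t ht => val_le h _ hP1 θ (by linarith) t ht, ?_⟩
    have h6 := jt_le h _ hP1 (hj0 m hmj).2.2 θ hIcc' (hJ m hmJ)
    refine h6.trans ?_
    have h7 : ((2 : ℝ) ^ m) ^ (η₁ / 2) ≤ ((2 : ℝ) ^ m) ^ (p - θ + η₁) :=
      Real.rpow_le_rpow_of_exponent_le hP1 (by linarith)
    have h8 : ((2 : ℝ) ^ m) ^ (-θ + η₁) = ((2 : ℝ) ^ m) ^ (p - θ + η₁) * ((2 : ℝ) ^ m) ^ (-p) := by
      rw [← Real.rpow_add hPpos]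
      congr 1
      ring
    rw [h8]
    have h9 : 12 * (4 * (s : ℝ) + 2) *
        ((Pool.Agent.Lib.MP_570bef_ntRE.XX s σ b ((2 : ℝ) ^ m)).card : ℝ) ^ 2 *
        ((2 : ℝ) ^ m) ^ (-p) =
        ((Pool.Agent.Lib.MP_570bef_ntRE.XX s σ b ((2 : ℝ) ^ m)).card : ℝ) ^ 2 *
        (12 * (4 * (s : ℝ) + 2) * ((2 : ℝ) ^ m) ^ (-p)) := by ring
    rw [h9]
    refine mul_le_mul_of_nonneg_left ?_ (by positivity)
    exact mul_le_mul_of_nonneg_right (hm.trans h7) (Real.rpow_nonneg hPpos.le _)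

end Pool.Agent.Lib.MP_570bef_ntM
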